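import Mathlib

/-!
# Side-disjoint triangles in line arrangements: the combinatorial core

`X i j` is the abscissa of the crossing of the lines `i` and `j`, where the lines are
numbered by increasing slope.  The only fact used about it is the betweenness axiom `bt`.
-/

namespace Pool.Agent.Helper30.KO

open Finset

/-- abscissae of the crossings of `n` lines numbered by increasing slope -/
structure Arr (n : ℕ) where
  X : Fin n → Fin n → ℝ
  sym : ∀ i j, X i j = X j i
  bt : ∀ i j k, i < j → j < k →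
    (X i j < X i k ∧ X i k < X j k) ∨ (X j k < X i k ∧ X i k < X i j) ∨
      (X i j = X i k ∧ X i k = X j k)

/-- a side-disjoint family of empty triangles -/
structure Fam {n : ℕ} (a : Arr n) where
  T : Finset (Finset (Fin n))
  card3 : ∀ A ∈ T, A.card = 3
  ne : ∀ A ∈ T, ∀ i ∈ A, ∀ j ∈ A, ∀ k ∈ A, i ≠ j → i ≠ k → j ≠ k → a.X i j ≠ a.X i k
  emp : ∀ A ∈ T, ∀ i ∈ A, ∀ j ∈ A, ∀ k ∈ A, i ≠ j → i ≠ k → j ≠ k →
    ∀ l, l ≠ i → ¬ (a.X i j < a.X i l ∧ a.X i l < a.X i k)
  ed : ∀ A ∈ T, ∀ B ∈ T, ∀ i, i ∈ A → i ∈ B → ∀ j ∈ A, ∀ k ∈ A, ∀ j' ∈ B, ∀ k' ∈ B,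
    i ≠ j → i ≠ k → j ≠ k → i ≠ j' → i ≠ k' → j' ≠ k' →
    a.X i j = a.X i j' → a.X i k = a.X i k' → A = B

variable {n : ℕ} {a : Arr n} (F : Fam a)

/-- the three lines form a triangle of the family -/
def Fam.Tr (i j k : Fin n) : Prop :=
  i ≠ j ∧ i ≠ k ∧ j ≠ k ∧ ({i, j, k} : Finset (Fin n)) ∈ F.T

lemma Fam.Tr.swap {F : Fam a} {i j k : Fin n} (h : F.Tr i j k) : F.Tr i k j := by
  obtain ⟨h1, h2, h3, h4⟩ := h
  refine ⟨h2, h1, h3.symm, ?_⟩
  have : ({i, k, j} : Finset (Fin n)) = {i, j, k} := by
    ext x; simp only [mem_insert, mem_singleton]; tauto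
  rw [this]; exact h4

lemma Fam.Tr.rot {F : Fam a} {i j k : Fin n} (h : F.Tr i j k) : F.Tr j i k := by
  obtain ⟨h1, h2, h3, h4⟩ := h
  refine ⟨h1.symm, h3, h2, ?_⟩
  have : ({j, i, k} : Finset (Fin n)) = {i, j, k} := by
    ext x; simp only [mem_insert, mem_singleton]; tauto
  rw [this]; exact h4

lemma Fam.Tr.ne_X {F : Fam a} {i j k : Fin n} (h : F.Tr i j k) : a.X i j ≠ a.X i k := by
  obtain ⟨h1, h2, h3, h4⟩ := h
  exact F.ne _ h4 i (by simp) j (by simp) k (by simp) h1 h2 h3

lemma Fam.Tr.emp1 {F : Fam a} {i j k : Fin n} (h : F.Tr i j k) (l : Fin n) (hl : l ≠ i) :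
    ¬ (a.X i j < a.X i l ∧ a.X i l < a.X i k) := by
  obtain ⟨h1, h2, h3, h4⟩ := h
  exact F.emp _ h4 i (by simp) j (by simp) k (by simp) h1 h2 h3 l hl

lemma Fam.Tr.emp2 {F : Fam a} {i j k : Fin n} (h : F.Tr i j k) (l : Fin n) (hl : l ≠ i) :
    ¬ (a.X i k < a.X i l ∧ a.X i l < a.X i j) :=
  h.swap.emp1 l hl

/-- two triangles with the same side coincide -/
lemma Fam.Tr.ed {F : Fam a} {i j k j' k' : Fin n} (h : F.Tr i j k) (h' : F.Tr i j' k')
    (e1 : a.X i j = a.X i j') (e2 : a.X i k = a.X i k') : j = j' ∧ k = k' := by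
  have hne := h.ne_X
  have hne' := h'.ne_X
  obtain ⟨h1, h2, h3, h4⟩ := h
  obtain ⟨h1', h2', h3', h4'⟩ := h'
  have hE := F.ed _ h4 _ h4' i (by simp) (by simp) j (by simp) k (by simp) j' (by simp) k'
    (by simp) h1 h2 h3 h1' h2' h3' e1 e2
  have hj : j ∈ ({i, j', k'} : Finset (Fin n)) := by rw [← hE]; simp
  have hk : k ∈ ({i, j', k'} : Finset (Fin n)) := by rw [← hE]; simp
  simp only [mem_insert, mem_singleton] at hj hk
  constructor
  · rcases hj with hj | hj | hj
    · exact absurd hj.symm h1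
    · exact hj
    · subst hj
      exact absurd (e1.symm) (by
        intro h5
        exact hne' h5)
  · rcases hk with hk | hk | hk
    · exact absurd hk.symm h2
    · subst hk
      exact absurd e2 hne'
    · exact hk

/-- `y` lies in direction `d` from `x` (`true` is to the right) -/
def dl (d : Bool) (x y : ℝ) : Prop := if d then x < y else y < x

lemma dl_true (x y : ℝ) : dl true x y ↔ x < y := by simp [dl]
lemma dl_false (x y : ℝ) : dl false x y ↔ y < x := by simp [dl]

lemma dl_not (d : Bool) (x y : ℝ) : dl (!d) x y ↔ dl d y x := by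
  cases d <;> simp [dl]

lemma dl_irrefl (d : Bool) (x : ℝ) : ¬ dl d x x := by
  cases d <;> simp [dl]

lemma dl_ne {d : Bool} {x y : ℝ} (h : dl d x y) : x ≠ y := by
  rintro rfl; exact dl_irrefl d x h

lemma dl_trichotomy (d : Bool) {x y : ℝ} (h : x ≠ y) : dl d x y ∨ dl (!d) x y := by
  rcases lt_or_gt_of_ne h with h | h
  · cases d
    · right; simpa [dl] using h
    · left; simpa [dl] using h
  · cases d
    · left; simpa [dl] using h
    · right; simpa [dl] using h

lemma dl_trans {d : Bool} {x y z : ℝ} (h : dl d x y) (h' : dl d y z) : dl d x z := by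
  cases d
  · simp only [dl_false] at *; exact lt_trans h' h
  · simp only [dl_true] at *; exact lt_trans h h'

lemma dl_asymm {d : Bool} {x y : ℝ} (h : dl d x y) : ¬ dl d y x := fun h' =>
  dl_irrefl d x (dl_trans h h')

/-- consecutive crossings: the emptiness in terms of directions -/
lemma Fam.Tr.empd {F : Fam a} {i j k : Fin n} (h : F.Tr i j k) (l : Fin n) (hl : l ≠ i)
    (d : Bool) : ¬ (dl d (a.X i j) (a.X i l) ∧ dl d (a.X i l) (a.X i k)) := by
  cases d
  · simp only [dl_false]
    rintro ⟨h1, h2⟩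
    exact h.emp2 l hl ⟨h2, h1⟩
  · simp only [dl_true]
    exact h.emp1 l hl

/-- if two triangles at the same point of line `i` go in the same direction then they
have the same side on `i` -/
lemma Fam.Tr.same_dir {F : Fam a} {i j k j' k' : Fin n} (h : F.Tr i j k) (h' : F.Tr i j' k')
    (e1 : a.X i j = a.X i j') {d : Bool} (h1 : dl d (a.X i j) (a.X i k))
    (h2 : dl d (a.X i j') (a.X i k')) : j = j' ∧ k = k' := by
  refine h.ed h' e1 ?_
  by_contra hne
  rcases dl_trichotomy d hne with h3 | h3
  · exact h'.empd k h.2.1.symm d ⟨by rw [← e1]; exact h1, h3⟩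
  · rw [dl_not] at h3
    exact h.empd k' h'.2.1.symm d ⟨by rw [e1]; exact h2, h3⟩

/-- the half-edge of line `i` at the crossing with `j` in direction `d` is a side
of a triangle which has the line `j` as another side -/
def Fam.used (i j : Fin n) (d : Bool) : Prop :=
  ∃ k, F.Tr i j k ∧ dl d (a.X i j) (a.X i k)

/-- simple crossing -/
def Sim (a : Arr n) (i j : Fin n) : Prop := ∀ l, l ≠ i → l ≠ j → a.X i l ≠ a.X i j

lemma tie {a : Arr n} {i j l : Fin n} (hij : i ≠ j) (hil : i ≠ l) (hjl : j ≠ l)
    (h : a.X i l = a.X i j) : a.X j l = a.X i j := by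
  have s1 := a.sym i j
  have s2 := a.sym i l
  have s3 := a.sym j l
  rcases lt_or_gt_of_ne hij with h1 | h1
  · rcases lt_or_gt_of_ne hjl with h2 | h2
    · rcases a.bt i j l h1 h2 with h3 | h3 | h3
      · linarith [h3.1, h3.2]
      · linarith [h3.1, h3.2]
      · linarith [h3.1, h3.2]
    · rcases lt_or_gt_of_ne hil with h4 | h4
      · rcases a.bt i l j h4 h2 with h3 | h3 | h3
        · linarith [h3.1, h3.2]
        · linarith [h3.1, h3.2]
        · linarith [h3.1, h3.2]
      · rcases a.bt l i j h4 h1 with h3 | h3 | h3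
        · linarith [h3.1, h3.2]
        · linarith [h3.1, h3.2]
        · linarith [h3.1, h3.2]
  · rcases lt_or_gt_of_ne hil with h2 | h2
    · rcases a.bt j i l h1 h2 with h3 | h3 | h3
      · linarith [h3.1, h3.2]
      · linarith [h3.1, h3.2]
      · linarith [h3.1, h3.2]
    · rcases lt_or_gt_of_ne hjl with h4 | h4
      · rcases a.bt j l i h4 h2 with h3 | h3 | h3
        · linarith [h3.1, h3.2]
        · linarith [h3.1, h3.2]
        · linarith [h3.1, h3.2]
      · rcases a.bt l j i h4 h1 with h3 | h3 | h3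
        · linarith [h3.1, h3.2]
        · linarith [h3.1, h3.2]
        · linarith [h3.1, h3.2]

lemma Sim.symm {a : Arr n} {i j : Fin n} (hij : i ≠ j) (h : Sim a i j) : Sim a j i := by
  intro l hl1 hl2 he
  have : a.X i l = a.X j i := tie hij.symm hl1.symm hl2.symm he
  exact h l hl2 hl1 (by rw [this, a.sym])

/-- number of crossings of line `i` to the left of the crossing with `j` -/
noncomputable def Nl (a : Arr n) (i j : Fin n) : ℕ :=
  (univ.filter (fun l => l ≠ i ∧ a.X i l < a.X i j)).card

/-- parity lemma -/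
lemma Nl_add {a : Arr n} {i j : Fin n} (hij : i < j) (hs : Sim a i j) :
    ((Nl a i j : ℕ) : ZMod 2) + (Nl a j i : ZMod 2) = (i : ℕ) + (j : ℕ) + 1 := by
  classical
  have key : ∀ l : Fin n,
      ((if (l ≠ i ∧ a.X i l < a.X i j) then 1 else 0 : ZMod 2) +
        (if (l ≠ j ∧ a.X j l < a.X j i) then 1 else 0 : ZMod 2)) =
        if (i < l ∧ l < j) then 1 else 0 := by
    intro l
    have s1 := a.sym i j
    by_cases h1 : l = i
    · subst h1
      simp
    by_cases h2 : l = j
    · subst h2
      simp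
    have h3 := hs l h1 h2
    have s2 := a.sym i l
    have s3 := a.sym j l
    rcases lt_or_gt_of_ne h1 with h4 | h4
    · have h5 : ¬ (i < l ∧ l < j) := fun h => absurd h.1 (not_lt.mpr h4.le)
      rw [if_neg h5]
      have : a.X i l < a.X i j ↔ a.X j l < a.X j i := by
        rcases a.bt l i j h4 hij with h6 | h6 | h6
        · constructor
          · intro h7; linarith [h6.1, h6.2]
          · intro h7; linarith [h6.1, h6.2]
        · constructor
          · intro h7; linarith [h6.1, h6.2]
          · intro h7; linarith [h6.1, h6.2]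
        · exact absurd (by linarith [h6.1, h6.2]) h3
      by_cases h8 : a.X i l < a.X i j
      · rw [if_pos ⟨h1, h8⟩, if_pos ⟨h2, this.mp h8⟩]; decide
      · rw [if_neg (fun h => h8 h.2), if_neg (fun h => h8 (this.mpr h.2))]; decide
    · rcases lt_or_gt_of_ne h2 with h5 | h5
      · have g0 : (i < l ∧ l < j) := ⟨h4, h5⟩
        rw [if_pos g0]
        have : a.X i l < a.X i j ↔ ¬ a.X j l < a.X j i := by
          rcases a.bt i l j h4 h5 with h6 | h6 | h6
          · constructor
            · intro h7; linarith [h6.1, h6.2]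
            · intro h7; linarith [h6.1, h6.2]
          · constructor
            · intro h7; linarith [h6.1, h6.2]
            · intro h7; exact absurd (by linarith [h6.1, h6.2]) h7
          · exact absurd (by linarith [h6.1, h6.2]) h3
        by_cases h8 : a.X i l < a.X i j
        · have g1 : (l ≠ i ∧ a.X i l < a.X i j) := ⟨h1, h8⟩
          have g2 : ¬ (l ≠ j ∧ a.X j l < a.X j i) := fun h => (this.mp h8) h.2
          rw [if_pos g1, if_neg g2]; decide
        · have h9 : a.X j l < a.X j i := by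
            by_contra h10
            exact h8 (this.mpr h10)
          have g1 : ¬ (l ≠ i ∧ a.X i l < a.X i j) := fun h => h8 h.2
          have g2 : (l ≠ j ∧ a.X j l < a.X j i) := ⟨h2, h9⟩
          rw [if_neg g1, if_pos g2]; decide
      · have h5' : ¬ (i < l ∧ l < j) := fun h => absurd h.2 (not_lt.mpr h5.le)
        rw [if_neg h5']
        have : a.X i l < a.X i j ↔ a.X j l < a.X j i := by
          rcases a.bt i j l hij h5 with h6 | h6 | h6
          · constructor
            · intro h7; linarith [h6.1, h6.2]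
            · intro h7; linarith [h6.1, h6.2]
          · constructor
            · intro h7; linarith [h6.1, h6.2]
            · intro h7; linarith [h6.1, h6.2]
          · exact absurd (by linarith [h6.1, h6.2]) h3
        by_cases h8 : a.X i l < a.X i j
        · rw [if_pos ⟨h1, h8⟩, if_pos ⟨h2, this.mp h8⟩]; decide
        · rw [if_neg (fun h => h8 h.2), if_neg (fun h => h8 (this.mpr h.2))]; decide
  have h1 : ((Nl a i j : ℕ) : ZMod 2) =
      ∑ l : Fin n, (if (l ≠ i ∧ a.X i l < a.X i j) then 1 else 0 : ZMod 2) := by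
    rw [Nl, Finset.card_filter]; push_cast; rfl
  have h2 : ((Nl a j i : ℕ) : ZMod 2) =
      ∑ l : Fin n, (if (l ≠ j ∧ a.X j l < a.X j i) then 1 else 0 : ZMod 2) := by
    rw [Nl, Finset.card_filter]; push_cast; rfl
  rw [h1, h2, ← Finset.sum_add_distrib, Finset.sum_congr rfl (fun l _ => key l),
    ← Finset.sum_filter, Finset.sum_const, nsmul_eq_mul, mul_one]
  have h3 : (univ.filter (fun l : Fin n => i < l ∧ l < j)) = Finset.Ioo i j := by
    ext l; simp
  rw [h3, Fin.card_Ioo]
  have hij' : (i : ℕ) < (j : ℕ) := hij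
  have h4 : ((j : ℕ) - (i : ℕ) - 1 : ℕ) + 2 * (i : ℕ) + 2 = (i : ℕ) + (j : ℕ) + 1 := by omega
  have h5 : ((((j : ℕ) - (i : ℕ) - 1 : ℕ) + 2 * (i : ℕ) + 2 : ℕ) : ZMod 2) =
      (((i : ℕ) + (j : ℕ) + 1 : ℕ) : ZMod 2) := by rw [h4]
  push_cast at h5
  have h6 : (2 : ZMod 2) = 0 := by decide
  rw [h6] at h5
  simpa using h5

lemma Nl_add' {a : Arr n} {i j : Fin n} (hij : i ≠ j) (hs : Sim a i j) :
    ((Nl a i j : ℕ) : ZMod 2) + (Nl a j i : ZMod 2) = (i : ℕ) + (j : ℕ) + 1 := by
  rcases lt_or_gt_of_ne hij with h | h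
  · exact Nl_add h hs
  · rw [add_comm, Nl_add h (hs.symm hij)]; ring

open Classical in
/-- indicator in `ZMod 2` -/
noncomputable def ind (p : Prop) : ZMod 2 := if p then 1 else 0

/-- colour of the triangle `i j k` seen from the crossing of `i` and `j` along line `i` -/
noncomputable def col (a : Arr n) (i j k : Fin n) : ZMod 2 :=
  (i : ℕ) + (Nl a i j : ZMod 2) + ind (a.X i j < a.X i k) +
    ind (¬ (i < j ↔ a.X i j < a.X j k))

lemma z2 (x : ZMod 2) : x + x = 0 := by
  have : (2 : ZMod 2) = 0 := by decide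
  rw [← two_mul, this, zero_mul]

lemma ind_not (p : Prop) : ind (¬ p) = ind p + 1 := by
  unfold ind
  by_cases h : p
  · simp [h]; decide
  · simp [h]

lemma ind_iff (p q : Prop) : ind (¬ (p ↔ q)) = ind p + ind q := by
  unfold ind
  by_cases h : p <;> by_cases h' : q <;> simp [h, h']; decide

lemma ind_congr {p q : Prop} (h : p ↔ q) : ind p = ind q := by
  rw [propext h]

/-- colours agree on the two lines at a simple crossing -/
lemma col_swap {a : Arr n} {i j k : Fin n} (hij : i ≠ j) (hs : Sim a i j) :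
    col a i j k = col a j i k := by
  classical
  unfold col
  rw [ind_iff, ind_iff]
  have h1 := Nl_add' hij hs
  have h2 : ind (i < j) = ind (j < i) + 1 := by
    rw [← ind_not]
    apply ind_congr
    constructor
    · intro h; exact not_lt.mpr h.le
    · intro h; exact lt_of_le_of_ne (not_lt.mp h) hij
  have h3 : a.X j i = a.X i j := a.sym j i
  rw [h2, h3]
  have h4 : (Nl a j i : ZMod 2) = (i : ℕ) + (j : ℕ) + 1 + (Nl a i j : ZMod 2) := by
    rw [← h1]
    have := z2 (Nl a i j : ZMod 2)
    calc (Nl a j i : ZMod 2) = ((Nl a i j : ZMod 2) + (Nl a i j : ZMod 2)) + (Nl a j i : ZMod 2) := by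
          rw [this, zero_add]
      _ = _ := by ring
  rw [h4]
  have h5 := z2 ((j : ℕ) : ZMod 2)
  have h6 : ((j : ℕ) : ZMod 2) + ((i : ℕ) + (j : ℕ) + 1 + (Nl a i j : ZMod 2)) +
      ind (a.X i j < a.X j k) + (ind (j < i) + ind (a.X i j < a.X i k)) =
      ((j : ℕ) + (j : ℕ)) + ((i : ℕ) + (Nl a i j : ZMod 2) + ind (a.X i j < a.X i k) +
      (ind (j < i) + 1 + ind (a.X i j < a.X j k))) := by ring
  rw [h6, h5, zero_add]

/-- betweenness for a triangle, in general position -/
lemma up_swap {a : Arr n} {i j k : Fin n} (hij : i ≠ j) (hik : i ≠ k) (hjk : j ≠ k)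
    (hne : a.X i j ≠ a.X i k) :
    (i < j ↔ a.X i j < a.X j k) ↔ (i < k ↔ a.X i k < a.X k j) := by
  have s1 := a.sym i j
  have s2 := a.sym i k
  have s3 := a.sym j k
  rcases lt_or_gt_of_ne hij with h1 | h1
  · rcases lt_or_gt_of_ne hik with h2 | h2
    · rcases lt_or_gt_of_ne hjk with h3 | h3
      · rcases a.bt i j k h1 h3 with h4 | h4 | h4
        · have e1 : a.X i j < a.X j k := by linarith [h4.1, h4.2]
          have e2 : a.X i k < a.X k j := by linarith [h4.1, h4.2]
          simp [h1, h2, e1, e2]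
        · have e1 : ¬ a.X i j < a.X j k := by linarith [h4.1, h4.2]
          have e2 : ¬ a.X i k < a.X k j := by linarith [h4.1, h4.2]
          simp only [h1, h2, e1, e2]
        · exact absurd h4.1 hne
      · rcases a.bt i k j h2 h3 with h4 | h4 | h4
        · have e1 : a.X i j < a.X j k := by linarith [h4.1, h4.2]
          have e2 : a.X i k < a.X k j := by linarith [h4.1, h4.2]
          simp [h1, h2, e1, e2]
        · have e1 : ¬ a.X i j < a.X j k := by linarith [h4.1, h4.2]
          have e2 : ¬ a.X i k < a.X k j := by linarith [h4.1, h4.2]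
          simp only [h1, h2, e1, e2]
        · exact absurd h4.1.symm hne
    · -- k < i < j
      have h2' : ¬ i < k := not_lt.mpr h2.le
      rcases a.bt k i j h2 h1 with h4 | h4 | h4
      · have e1 : ¬ a.X i j < a.X j k := by linarith [h4.1, h4.2]
        have e2 : a.X i k < a.X k j := by linarith [h4.1, h4.2]
        simp [h1, h2', e1, e2]
      · have e1 : a.X i j < a.X j k := by linarith [h4.1, h4.2]
        have e2 : ¬ a.X i k < a.X k j := by linarith [h4.1, h4.2]
        simp only [h1, h2', e1, e2]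
      · exact absurd (by linarith [h4.1, h4.2]) hne
  · have h1' : ¬ i < j := not_lt.mpr h1.le
    rcases lt_or_gt_of_ne hik with h2 | h2
    · -- j < i < k
      rcases a.bt j i k h1 h2 with h4 | h4 | h4
      · have e1 : a.X i j < a.X j k := by linarith [h4.1, h4.2]
        have e2 : ¬ a.X i k < a.X k j := by linarith [h4.1, h4.2]
        simp [h1', h2, e1, e2]
      · have e1 : ¬ a.X i j < a.X j k := by linarith [h4.1, h4.2]
        have e2 : a.X i k < a.X k j := by linarith [h4.1, h4.2]
        simp [h1', h2, e1, e2]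
      · exact absurd (by linarith [h4.1, h4.2]) hne
    · have h2' : ¬ i < k := not_lt.mpr h2.le
      rcases lt_or_gt_of_ne hjk with h3 | h3
      · -- j < k < i
        rcases a.bt j k i h3 h2 with h4 | h4 | h4
        · have e1 : ¬ a.X i j < a.X j k := by linarith [h4.1, h4.2]
          have e2 : ¬ a.X i k < a.X k j := by linarith [h4.1, h4.2]
          simp only [h1', h2', e1, e2]
        · have e1 : a.X i j < a.X j k := by linarith [h4.1, h4.2]
          have e2 : a.X i k < a.X k j := by linarith [h4.1, h4.2]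
          simp [h1', h2', e1, e2]
        · exact absurd (by linarith [h4.1, h4.2]) hne
      · rcases a.bt k j i h3 h1 with h4 | h4 | h4
        · have e1 : ¬ a.X i j < a.X j k := by linarith [h4.1, h4.2]
          have e2 : ¬ a.X i k < a.X k j := by linarith [h4.1, h4.2]
          simp only [h1', h2', e1, e2]
        · have e1 : a.X i j < a.X j k := by linarith [h4.1, h4.2]
          have e2 : a.X i k < a.X k j := by linarith [h4.1, h4.2]
          simp [h1', h2', e1, e2]
        · exact absurd (by linarith [h4.1, h4.2]) hne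

/-- the position numbers of the two ends of a side -/
lemma Nl_succ {F : Fam a} {i j k : Fin n} (h : F.Tr i j k) (hs : Sim a i j)
    (hlt : a.X i j < a.X i k) : Nl a i k = Nl a i j + 1 := by
  classical
  unfold Nl
  have hj : j ∉ univ.filter (fun l => l ≠ i ∧ a.X i l < a.X i j) := by simp
  rw [← Finset.card_insert_of_notMem hj]
  congr 1
  ext l
  simp only [mem_insert, mem_filter, mem_univ, true_and]
  constructor
  · rintro ⟨h1, h2⟩
    by_cases hlj : l = j
    · left; exact hlj
    · right
      refine ⟨h1, ?_⟩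
      have h3 := hs l h1 hlj
      by_contra h4
      have h5 : a.X i j < a.X i l := lt_of_le_of_ne (not_lt.mp h4) (Ne.symm h3)
      exact h.emp1 l h1 ⟨h5, h2⟩
  · rintro (h1 | h1)
    · subst h1; exact ⟨h.1.symm, hlt⟩
    · exact ⟨h1.1, lt_trans h1.2 hlt⟩

/-- colour transport along a side with simple ends -/
lemma col_move {F : Fam a} {i j k : Fin n} (h : F.Tr i j k) (hs : Sim a i j)
    (hs' : Sim a i k) : col a i j k = col a i k j := by
  classical
  unfold col
  have hup := up_swap h.1 h.2.1 h.2.2.1 h.ne_X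
  have h1 : ind (¬ (i < j ↔ a.X i j < a.X j k)) = ind (¬ (i < k ↔ a.X i k < a.X k j)) :=
    ind_congr (not_congr hup)
  rw [h1]
  congr 1
  rcases lt_or_gt_of_ne h.ne_X with hlt | hlt
  · have h2 := Nl_succ h hs hlt
    rw [h2]
    have e1 : ind (a.X i j < a.X i k) = 1 := by simp [ind, hlt]
    have e2 : ind (a.X i k < a.X i j) = 0 := by simp [ind, hlt.le]
    rw [e1, e2]; push_cast; ring
  · have h2 := Nl_succ h.swap hs' hlt
    rw [h2]
    have e1 : ind (a.X i j < a.X i k) = 0 := by simp [ind, hlt.le]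
    have e2 : ind (a.X i k < a.X i j) = 1 := by simp [ind, hlt]
    rw [e1, e2]; push_cast; ring

/-- the two triangles at a crossing are in opposite quadrants -/
lemma opp {F : Fam a} {i j k k' : Fin n} (h : F.Tr i j k) (h' : F.Tr i j k')
    (hk : k ≠ k') : a.X i j < a.X i k' ↔ ¬ a.X i j < a.X i k := by
  constructor
  · intro h1 h2
    have := (h.same_dir h' rfl (d := true) (by simpa [dl] using h2) (by simpa [dl] using h1)).2
    exact hk this
  · intro h1
    by_contra h2
    have h3 : a.X i k < a.X i j := lt_of_le_of_ne (not_lt.mp h1) h.ne_X.symm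
    have h4 : a.X i k' < a.X i j := lt_of_le_of_ne (not_lt.mp h2) h'.ne_X.symm
    have := (h.same_dir h' rfl (d := false) (by simpa [dl] using h3)
      (by simpa [dl] using h4)).2
    exact hk this

/-- the colour at a crossing does not depend on the triangle -/
lemma col_unique {F : Fam a} {i j k k' : Fin n} (h : F.Tr i j k) (h' : F.Tr i j k') :
    col a i j k = col a i j k' := by
  classical
  by_cases hk : k = k'
  · rw [hk]
  unfold col
  have h1 : ind (a.X i j < a.X i k') = ind (a.X i j < a.X i k) + 1 := by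
    rw [← ind_not]; exact ind_congr (opp h h' hk)
  have h2 : ind (a.X i j < a.X j k') = ind (a.X i j < a.X j k) + 1 := by
    rw [← ind_not]
    apply ind_congr
    have := opp h.rot h'.rot hk
    rwa [a.sym j i] at this
  rw [ind_iff, ind_iff, h1, h2]
  have := z2 (1 : ZMod 2)
  calc _ = ((i : ℕ) : ZMod 2) + (Nl a i j : ZMod 2) + ind (a.X i j < a.X i k) +
        (ind (i < j) + ind (a.X i j < a.X j k)) + (1 + 1) := by rw [this, add_zero]
    _ = _ := by ring

/-- a simple crossing with a triangle of colour `c` -/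
def W (F : Fam a) (c : ZMod 2) (i j : Fin n) : Prop :=
  Sim a i j ∧ ∃ k, F.Tr i j k ∧ col a i j k = c

lemma W.symm {F : Fam a} {c : ZMod 2} {i j : Fin n} (hij : i ≠ j) (h : W F c i j) :
    W F c j i := by
  obtain ⟨hs, k, hk, hc⟩ := h
  exact ⟨hs.symm hij, k, hk.rot, by rw [← col_swap hij hs]; exact hc⟩

/-- some colour does not fill any line -/
lemma exists_colour (F : Fam a) (hn : 2 ≤ n) :
    ∃ c : ZMod 2, ∀ i : Fin n, ∃ j, j ≠ i ∧ ¬ W F c i j := by
  by_contra hcon
  push Not at hcon
  obtain ⟨i, hi⟩ := hcon 0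
  obtain ⟨i', hi'⟩ := hcon 1
  have key : ∀ x y : Fin n, W F 0 x y → W F 1 x y → False := by
    intro x y h1 h2
    obtain ⟨_, k, hk, hc⟩ := h1
    obtain ⟨_, k', hk', hc'⟩ := h2
    have := col_unique hk hk'
    rw [hc, hc'] at this
    exact absurd this (by decide)
  by_cases h : i = i'
  · subst h
    have : ∃ j : Fin n, j ≠ i := by
      have : Nontrivial (Fin n) := Fin.nontrivial_iff_two_le.mpr hn
      exact exists_ne i
    obtain ⟨j, hj⟩ := this
    exact key i j (hi j hj) (hi' j hj)
  · exact key i i' (hi i' (Ne.symm h)) ((hi' i h).symm (Ne.symm h))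

/-- `j` is the last crossing on line `i` in direction `d` -/
def Ext (a : Arr n) (i j : Fin n) (d : Bool) : Prop :=
  ∀ l, l ≠ i → ¬ dl d (a.X i j) (a.X i l)

lemma exists_ext (a : Arr n) (hn : 2 ≤ n) (i : Fin n) (d : Bool) :
    ∃ j, j ≠ i ∧ Ext a i j d := by
  classical
  have : Nontrivial (Fin n) := Fin.nontrivial_iff_two_le.mpr hn
  obtain ⟨j0, hj0⟩ := exists_ne i
  have hne : (univ.filter (fun l : Fin n => l ≠ i)).Nonempty := ⟨j0, by simp [hj0]⟩
  cases d
  · obtain ⟨j, hj, hmin⟩ := Finset.exists_min_image _ (fun l => a.X i l) hne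
    refine ⟨j, by simpa using hj, fun l hl => ?_⟩
    rw [dl_false, not_lt]
    exact hmin l (by simp [hl])
  · obtain ⟨j, hj, hmax⟩ := Finset.exists_max_image _ (fun l => a.X i l) hne
    refine ⟨j, by simpa using hj, fun l hl => ?_⟩
    rw [dl_true, not_lt]
    exact hmax l (by simp [hl])

/-- among finitely many points there is a last one in direction `d` -/
lemma exists_last (f : Fin n → ℝ) (S : Finset (Fin n)) (hS : S.Nonempty) (d : Bool) :
    ∃ j ∈ S, ∀ l ∈ S, ¬ dl d (f j) (f l) := by
  cases d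
  · obtain ⟨j, hj, hmin⟩ := Finset.exists_min_image S f hS
    exact ⟨j, hj, fun l hl => by rw [dl_false, not_lt]; exact hmin l hl⟩
  · obtain ⟨j, hj, hmax⟩ := Finset.exists_max_image S f hS
    exact ⟨j, hj, fun l hl => by rw [dl_true, not_lt]; exact hmax l hl⟩

/-- a crossing extreme in both directions is not simple when `n ≥ 3` -/
lemma not_ext_both {i j : Fin n} (hn : 3 ≤ n) (hij : j ≠ i) (hs : Sim a i j)
    (h1 : Ext a i j true) (h2 : Ext a i j false) : False := by
  classical
  have : ∃ l : Fin n, l ≠ i ∧ l ≠ j := by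
    by_contra hcon
    push Not at hcon
    have hsub : (univ : Finset (Fin n)) ⊆ {i, j} := by
      intro l _
      by_cases h : l = i
      · simp [h]
      · simp [hcon l h]
    have := Finset.card_le_card hsub
    rw [Finset.card_univ, Fintype.card_fin] at this
    have h3 : ({i, j} : Finset (Fin n)).card ≤ 2 := Finset.card_le_two
    omega
  obtain ⟨l, hl1, hl2⟩ := this
  have h3 := h1 l hl1
  have h4 := h2 l hl1
  rw [dl_true] at h3
  rw [dl_false] at h4
  exact hs l hl1 hl2 (le_antisymm (not_lt.mp h3) (not_lt.mp h4))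

lemma not_ext_both' {i j : Fin n} (hn : 3 ≤ n) (hij : j ≠ i) (hs : Sim a i j) (d : Bool)
    (h1 : Ext a i j d) (h2 : Ext a i j (!d)) : False := by
  cases d
  · exact not_ext_both hn hij hs h2 h1
  · exact not_ext_both hn hij hs h1 h2

/-- the unused half-edges -/
def Un (F : Fam a) (q : Fin n × Fin n × Bool) : Prop :=
  q.1 ≠ q.2.1 ∧ ¬ F.used q.1 q.2.1 q.2.2

lemma un_of_ext {F : Fam a} {i j : Fin n} {d : Bool} (hij : i ≠ j) (h : Ext a i j d) :
    Un F (i, j, d) := by
  refine ⟨hij, ?_⟩
  rintro ⟨k, hk, hd⟩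
  exact h k hk.2.1.symm hd

/-- black wedges: the ends that have no partner -/
def Lost (F : Fam a) (c : ZMod 2) (i j : Fin n) : Prop :=
  Sim a i j ∧ ∃ k, F.Tr i j k ∧ col a i j k ≠ c ∧ ∃ s, dl s (a.X i j) (a.X j k) ∧
    Ext a j i (!s)

/-- the partner relation -/
inductive P (F : Fam a) (c : ZMod 2) (e : Fin n → Bool → Fin n) :
    Fin n × Bool → Fin n × Fin n × Bool → Prop
  | M (i b : Fin n) (d : Bool) (h1 : ¬ Sim a i b) (h2 : b ≠ e i d) : P F c e (i, d) (i, b, d)
  | N (i : Fin n) (d : Bool) (h1 : Sim a i (e i d)) (h2 : ∀ k, ¬ F.Tr i (e i d) k) :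
      P F c e (i, d) (i, e i d, !d)
  | WA (i u : Fin n) (d : Bool) (h1 : W F c i u) (h2 : ¬ Ext a i u (!d)) :
      P F c e (i, d) (i, u, !d)
  | WB (i k : Fin n) (d : Bool) (h1 : ¬ Sim a i k) (h2 : ¬ Ext a i k d) :
      P F c e (i, d) (i, k, d)
  | B (i : Fin n) (d s : Bool) (h1 : Sim a i (e i d)) (k : Fin n) (h2 : F.Tr i (e i d) k)
      (h3 : col a i (e i d) k ≠ c) (h4 : ¬ Ext a (e i d) i s) :
      P F c e (i, d) (e i d, i, s)

/-- existence of a partner -/
lemma exists_partner (F : Fam a) (c : ZMod 2) (hn : 3 ≤ n)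
    (hc : ∀ i : Fin n, ∃ j, j ≠ i ∧ ¬ W F c i j)
    (e : Fin n → Bool → Fin n) (he1 : ∀ i d, e i d ≠ i) (he2 : ∀ i d, Ext a i (e i d) d)
    (i : Fin n) (d : Bool) (hl : ¬ Lost F c i (e i d)) :
    ∃ q, P F c e (i, d) q ∧ Un F q := by
  classical
  by_cases hs : Sim a i (e i d)
  swap
  · -- multiple end
    have hs' := hs
    unfold Sim at hs
    push Not at hs
    obtain ⟨b, hb1, hb2, hb3⟩ := hs
    refine ⟨(i, b, d), P.M i b d ?_ hb2, ?_⟩
    · intro h
      exact h (e i d) (he1 i d) (Ne.symm hb2) hb3.symm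
    · refine ⟨hb1.symm, ?_⟩
      rintro ⟨k, hk, hd⟩
      refine he2 i d k hk.2.1.symm ?_
      rw [← hb3]; exact hd
  by_cases ht : ∀ k, ¬ F.Tr i (e i d) k
  · refine ⟨(i, e i d, !d), P.N i d hs ht, (he1 i d).symm, ?_⟩
    rintro ⟨k, hk, _⟩
    exact ht k hk
  push Not at ht
  obtain ⟨k, hk⟩ := ht
  by_cases hcol : col a i (e i d) k = c
  · -- white end
    have hW : W F c i (e i d) := ⟨hs, k, hk, hcol⟩
    let S := univ.filter (fun l : Fin n => l ≠ i ∧ ¬ W F c i l)
    have hS : S.Nonempty := by
      obtain ⟨j, hj1, hj2⟩ := hc i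
      exact ⟨j, by simp [S, hj1, hj2]⟩
    obtain ⟨l0, hl0, hlast⟩ := exists_last (fun l => a.X i l) S hS d
    simp only [S, mem_filter, mem_univ, true_and] at hl0
    have hne : a.X i l0 ≠ a.X i (e i d) := by
      by_cases h : l0 = e i d
      · rw [h] at hl0; exact absurd hW hl0.2
      · exact hs l0 hl0.1 h
    have hdl : dl d (a.X i l0) (a.X i (e i d)) := by
      rcases dl_trichotomy d hne with h | h
      · exact h
      · rw [dl_not] at h
        exact absurd h (he2 i d l0 hl0.1)
    let U := univ.filter (fun l : Fin n => l ≠ i ∧ dl d (a.X i l0) (a.X i l))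
    have hU : U.Nonempty := ⟨e i d, by simp [U, he1 i d, hdl]⟩
    obtain ⟨u, hu, hfirst⟩ := exists_last (fun l => a.X i l) U hU (!d)
    simp only [U, mem_filter, mem_univ, true_and] at hu
    have hWu : W F c i u := by
      by_contra hcon
      exact hlast u (by simp [S, hu.1, hcon]) hu.2
    have hext : ¬ Ext a i u (!d) := by
      intro h
      refine h l0 hl0.1 ?_
      rw [dl_not]; exact hu.2
    by_cases hused : F.used i u (!d)
    swap
    · exact ⟨(i, u, !d), P.WA i u d hWu hext, hu.1.symm, hused⟩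
    obtain ⟨v, hv, hvd⟩ := hused
    rw [dl_not] at hvd
    -- the other end of the side is at the abscissa of `l0`
    have hv0 : a.X i v = a.X i l0 := by
      by_contra hne2
      rcases dl_trichotomy d hne2 with h | h
      · -- v further from the end than l0
        exact hv.swap.empd l0 hl0.1 d ⟨h, hu.2⟩
      · rw [dl_not] at h
        -- l0 -> v -> u : v is in U and closer
        have hvU : v ∈ U := by simp [U, hv.2.1.symm, h]
        have := hfirst v hvU
        rw [dl_not] at this
        exact this hvd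
    have hns : ¬ Sim a i l0 := by
      intro hsl
      have hvl : v = l0 := by
        by_contra h
        exact hsl v hv.2.1.symm h hv0
      subst hvl
      refine hl0.2 ⟨hsl, u, hv.swap, ?_⟩
      obtain ⟨hsu, k0, hk0, hc0⟩ := hWu
      rw [← col_move hv hsu hsl, col_unique hv hk0, hc0]
    -- another line through the point of `l0`
    obtain ⟨k', hk'1, hk'2, hk'3⟩ : ∃ k', k' ≠ i ∧ k' ≠ v ∧ a.X i k' = a.X i v := by
      by_cases hvl : l0 = v
      · have h := hns
        unfold Sim at h
        push Not at h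
        obtain ⟨m, hm1, hm2, hm3⟩ := h
        exact ⟨m, hm1, by rw [← hvl]; exact hm2, by rw [hm3, hv0]⟩
      · exact ⟨l0, hl0.1, hvl, hv0.symm⟩
    refine ⟨(i, k', d), P.WB i k' d ?_ ?_, hk'1.symm, ?_⟩
    · intro h
      exact h v hv.2.1.symm (Ne.symm hk'2) hk'3.symm
    · intro h
      refine h u hu.1 ?_
      rw [hk'3]; exact hvd
    · rintro ⟨w, hw, hwd⟩
      have := (hv.swap.same_dir hw hk'3.symm hvd hwd).1
      exact hk'2 this.symm
  · -- black end
    have hne := hk.rot.ne_X
    obtain ⟨s, hs2⟩ : ∃ s, dl s (a.X (e i d) i) (a.X (e i d) k) := by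
      rcases dl_trichotomy true hne with h | h
      · exact ⟨true, h⟩
      · exact ⟨false, h⟩
    by_cases hE : Ext a (e i d) i (!s)
    · exact absurd ⟨hs, k, hk, hcol, s, by rw [a.sym i (e i d)]; exact hs2, hE⟩ hl
    · refine ⟨(e i d, i, !s), P.B i d (!s) hs k hk hcol hE, he1 i d, ?_⟩
      rintro ⟨k', hk', hd'⟩
      have hkk : k ≠ k' := by
        rintro rfl
        rw [dl_not] at hd'
        exact dl_asymm hs2 hd'
      have h1 : dl (!d) (a.X i (e i d)) (a.X i k) := by
        rcases dl_trichotomy d hk.ne_X with h | h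
        · exact absurd h (he2 i d k hk.2.1.symm)
        · exact h
      have h2 : dl (!d) (a.X i (e i d)) (a.X i k') := by
        rcases dl_trichotomy d hk'.rot.ne_X with h | h
        · exact absurd h (he2 i d k' hk'.2.2.1.symm)
        · exact h
      exact hkk (hk.same_dir hk'.rot rfl h1 h2).2

/-- what a partner looks like -/
lemma partner_spec (F : Fam a) (c : ZMod 2)
    (e : Fin n → Bool → Fin n) (he1 : ∀ i d, e i d ≠ i)
    {t : Fin n × Bool} {q : Fin n × Fin n × Bool} (h : P F c e t q) :
    (¬ Sim a q.1 q.2.1 ∧ t = (q.1, q.2.2)) ∨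
    (Sim a q.1 q.2.1 ∧ (∀ k, ¬ F.Tr q.1 q.2.1 k) ∧ t = (q.1, !q.2.2) ∧
      q.2.1 = e t.1 t.2) ∨
    (W F c q.1 q.2.1 ∧ t = (q.1, !q.2.2)) ∨
    (Sim a q.1 q.2.1 ∧ (∃ k, F.Tr q.1 q.2.1 k ∧ col a q.1 q.2.1 k ≠ c) ∧ t.1 = q.2.1 ∧
      e t.1 t.2 = q.1) := by
  cases h with
  | M i b d h1 h2 => left; exact ⟨h1, rfl⟩
  | N i d h1 h2 => right; left; exact ⟨h1, h2, by simp, rfl⟩
  | WA i u d h1 h2 => right; right; left; exact ⟨h1, by simp⟩
  | WB i k d h1 h2 => left; exact ⟨h1, rfl⟩
  | B i d s h1 k h2 h3 h4 =>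
    right; right; right
    refine ⟨h1.symm (he1 _ _).symm, ⟨k, h2.rot, ?_⟩, rfl, rfl⟩
    rw [← col_swap (he1 _ _).symm h1]; exact h3

/-- the partner determines the end -/
lemma partner_inj (F : Fam a) (c : ZMod 2) (hn : 3 ≤ n)
    (e : Fin n → Bool → Fin n) (he1 : ∀ i d, e i d ≠ i) (he2 : ∀ i d, Ext a i (e i d) d)
    {t t' : Fin n × Bool} {q : Fin n × Fin n × Bool} (h : P F c e t q) (h' : P F c e t' q) :
    t = t' := by
  have hWt : ∀ i u k, W F c i u → F.Tr i u k → col a i u k = c := by
    intro i u k h1 h2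
    obtain ⟨_, k0, hk0, hc0⟩ := h1
    rw [col_unique h2 hk0, hc0]
  have hex : ∀ i u, W F c i u → ∃ k, F.Tr i u k := fun i u h => ⟨_, h.2.choose_spec.1⟩
  rcases partner_spec F c e he1 h with ⟨h1, h2⟩ | ⟨h1, h2, h3, h4⟩ | ⟨h1, h2⟩ |
    ⟨h1, ⟨k, h2, h3⟩, h4, h5⟩
  · rcases partner_spec F c e he1 h' with ⟨g1, g2⟩ | ⟨g1, g2, g3⟩ | ⟨g1, g2⟩ |
      ⟨g1, ⟨k', g2, g3⟩, g4, g5⟩
    · rw [h2, g2]
    · exact absurd g1 h1
    · exact absurd g1.1 h1
    · exact absurd g1 h1
  · rcases partner_spec F c e he1 h' with ⟨g1, g2⟩ | ⟨g1, g2, g3, g4⟩ | ⟨g1, g2⟩ |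
      ⟨g1, ⟨k', g2, g3⟩, g4, g5⟩
    · exact absurd h1 g1
    · rw [h3, g3]
    · rw [h3, g2]
    · exact absurd g2 (h2 k')
  · rcases partner_spec F c e he1 h' with ⟨g1, g2⟩ | ⟨g1, g2, g3, g4⟩ | ⟨g1, g2⟩ |
      ⟨g1, ⟨k', g2, g3⟩, g4, g5⟩
    · exact absurd h1.1 g1
    · rw [h2, g3]
    · rw [h2, g2]
    · exact absurd (hWt _ _ _ h1 g2) g3
  · rcases partner_spec F c e he1 h' with ⟨g1, g2⟩ | ⟨g1, g2, g3, g4⟩ | ⟨g1, g2⟩ |
      ⟨g1, ⟨k', g2, g3⟩, g4, g5⟩
    · exact absurd h1 g1
    · exact absurd h2 (g2 k)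
    · exact absurd (hWt _ _ _ g1 h2) h3
    · obtain ⟨i, d⟩ := t
      obtain ⟨i', d'⟩ := t'
      simp only at h4 h5 g4 g5
      subst h4
      subst g4
      by_cases hd : d = d'
      · rw [hd]
      exfalso
      have hd' : d' = !d := by cases d <;> cases d' <;> simp_all
      have e1 := he2 q.2.1 d
      have e2 := he2 q.2.1 d'
      rw [h5] at e1
      rw [g5, hd'] at e2
      have hne : q.1 ≠ q.2.1 := by rw [← h5]; exact he1 _ _
      exact not_ext_both' hn hne (h1.symm hne) d e1 e2

/-- partners are not rays -/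
lemma partner_not_ray (F : Fam a) (c : ZMod 2) (hn : 3 ≤ n)
    (e : Fin n → Bool → Fin n) (he1 : ∀ i d, e i d ≠ i) (he2 : ∀ i d, Ext a i (e i d) d)
    {t : Fin n × Bool} {q : Fin n × Fin n × Bool} (h : P F c e t q) :
    q.2.1 ≠ e q.1 q.2.2 := by
  cases h with
  | M i b d h1 h2 => exact h2
  | N i d h1 h2 =>
    intro h3
    simp only at h3
    have h4 := he2 i (!d)
    rw [← h3] at h4
    exact not_ext_both' hn (he1 _ _) h1 d (he2 i d) h4
  | WA i u d h1 h2 =>
    intro h3
    simp only at h3
    apply h2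
    rw [h3]; exact he2 _ _
  | WB i k d h1 h2 =>
    intro h3
    simp only at h3
    apply h2
    rw [h3]; exact he2 _ _
  | B i d s h1 k h2 h3 h4 =>
    intro h5
    simp only at h5
    apply h4
    have h6 := he2 (e i d) s
    rw [← h5] at h6
    exact h6

open Classical in
/-- the number of unused half-edges is large -/
lemma card_un_ge (F : Fam a) (c : ZMod 2) (hn : 3 ≤ n)
    (hc : ∀ i : Fin n, ∃ j, j ≠ i ∧ ¬ W F c i j)
    (e : Fin n → Bool → Fin n) (he1 : ∀ i d, e i d ≠ i) (he2 : ∀ i d, Ext a i (e i d) d) :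
    4 * n ≤ (univ.filter (fun q => Un F q)).card +
      (univ.filter (fun t : Fin n × Bool => Lost F c t.1 (e t.1 t.2))).card := by
  classical
  have hex : ∀ t : Fin n × Bool, ∃ q, (¬ Lost F c t.1 (e t.1 t.2)) → P F c e t q ∧ Un F q := by
    intro t
    by_cases h : Lost F c t.1 (e t.1 t.2)
    · exact ⟨(t.1, t.1, true), fun h' => absurd h h'⟩
    · obtain ⟨q, hq⟩ := exists_partner F c hn hc e he1 he2 t.1 t.2 h
      exact ⟨q, fun _ => hq⟩
  choose g hg using hex
  let A : Finset (Fin n × Bool) := univ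
  let B : Finset (Fin n × Bool) := univ.filter (fun t => ¬ Lost F c t.1 (e t.1 t.2))
  let f1 : Fin n × Bool → Fin n × Fin n × Bool := fun t => (t.1, e t.1 t.2, t.2)
  have h1 : Set.InjOn f1 (A : Set (Fin n × Bool)) := by
    intro t _ t' _ h
    simp only [f1, Prod.mk.injEq] at h
    exact Prod.ext h.1 h.2.2
  have h2 : Set.InjOn g (B : Set (Fin n × Bool)) := by
    intro t ht t' ht' h
    simp only [B, coe_filter, mem_univ, true_and, Set.mem_setOf_eq] at ht ht'
    have k1 := (hg t ht).1
    have k2 := (hg t' ht').1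
    rw [← h] at k2
    exact partner_inj F c hn e he1 he2 k1 k2
  have hdisj : Disjoint (A.image f1) (B.image g) := by
    rw [Finset.disjoint_left]
    intro q hq1 hq2
    simp only [mem_image, A, mem_univ, true_and] at hq1
    simp only [mem_image, B, mem_filter, mem_univ, true_and] at hq2
    obtain ⟨t, rfl⟩ := hq1
    obtain ⟨t', ht', he'⟩ := hq2
    have k1 := (hg t' ht').1
    rw [he'] at k1
    exact partner_not_ray F c hn e he1 he2 k1 rfl
  have hsub : A.image f1 ∪ B.image g ⊆ univ.filter (fun q => Un F q) := by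
    intro q hq
    rw [mem_union] at hq
    simp only [mem_filter, mem_univ, true_and]
    rcases hq with hq | hq
    · simp only [mem_image, A, mem_univ, true_and] at hq
      obtain ⟨t, rfl⟩ := hq
      exact un_of_ext (he1 _ _).symm (he2 _ _)
    · simp only [mem_image, B, mem_filter, mem_univ, true_and] at hq
      obtain ⟨t, ht, rfl⟩ := hq
      exact (hg t ht).2
  have h3 := Finset.card_le_card hsub
  rw [Finset.card_union_of_disjoint hdisj, Finset.card_image_of_injOn h1,
    Finset.card_image_of_injOn h2] at h3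
  have h4 : A.card = 2 * n := by
    simp [A, Finset.card_univ, Fintype.card_prod, mul_comm]
  have h5 := Finset.card_filter_add_card_filter_not (s := (univ : Finset (Fin n × Bool)))
    (fun t : Fin n × Bool => Lost F c t.1 (e t.1 t.2))
  have h6 : (univ : Finset (Fin n × Bool)).card = 2 * n := h4
  simp only [B] at h3
  omega

lemma adj_same {i j : Fin n} (hij : i < j) (hs : Sim a i j) (d : Bool) (h1 : Ext a i j d)
    (h2 : Ext a j i d) : (j : ℕ) = i + 1 := by
  by_contra hne
  have hij' : (i : ℕ) < (j : ℕ) := hij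
  have hjn := j.isLt
  let l : Fin n := ⟨i + 1, by omega⟩
  have hil : i < l := by simp [Fin.lt_def, l]
  have hlj : l < j := by rw [Fin.lt_def]; simp only [l]; omega
  have k1 := h1 l hil.ne'
  have k2 := h2 l hlj.ne
  have k3 := hs l hil.ne' hlj.ne
  have s1 := a.sym i j
  have s2 := a.sym j l
  rcases a.bt i l j hil hlj with h | h | h
  · cases d
    · rw [dl_false] at k1 k2; linarith [h.1, h.2]
    · rw [dl_true] at k1 k2; linarith [h.1, h.2]
  · cases d
    · rw [dl_false] at k1 k2; linarith [h.1, h.2]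
    · rw [dl_true] at k1 k2; linarith [h.1, h.2]
  · exact k3 h.1

lemma adj_opp {i j : Fin n} (hij : i < j) (hs : Sim a i j) (d : Bool) (h1 : Ext a i j d)
    (h2 : Ext a j i (!d)) : (i : ℕ) = 0 ∧ (j : ℕ) + 1 = n := by
  have hij' : (i : ℕ) < (j : ℕ) := hij
  have hjn := j.isLt
  have s1 := a.sym i j
  constructor
  · by_contra hne
    let l : Fin n := ⟨0, by omega⟩
    have hli : l < i := by rw [Fin.lt_def]; simp only [l]; omega
    have hlj : l < j := lt_trans hli hij
    have k1 := h1 l hli.ne
    have k2 := h2 l hlj.ne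
    have k3 := hs l hli.ne hlj.ne
    have s2 := a.sym j l
    have s3 := a.sym i l
    rcases a.bt l i j hli hij with h | h | h
    · cases d
      · simp only [dl_false, dl_true, Bool.not_false] at k1 k2; linarith [h.1, h.2]
      · simp only [dl_false, dl_true, Bool.not_true] at k1 k2; linarith [h.1, h.2]
    · cases d
      · simp only [dl_false, dl_true, Bool.not_false] at k1 k2; linarith [h.1, h.2]
      · simp only [dl_false, dl_true, Bool.not_true] at k1 k2; linarith [h.1, h.2]
    · exact k3 (by linarith [h.1, h.2])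
  · by_contra hne
    let l : Fin n := ⟨n - 1, by omega⟩
    have hjl : j < l := by rw [Fin.lt_def]; simp only [l]; omega
    have hil : i < l := lt_trans hij hjl
    have k1 := h1 l hil.ne'
    have k2 := h2 l hjl.ne'
    have k3 := hs l hil.ne' hjl.ne'
    rcases a.bt i j l hij hjl with h | h | h
    · cases d
      · simp only [dl_false, dl_true, Bool.not_false] at k1 k2; linarith [h.1, h.2]
      · simp only [dl_false, dl_true, Bool.not_true] at k1 k2; linarith [h.1, h.2]
    · cases d
      · simp only [dl_false, dl_true, Bool.not_false] at k1 k2; linarith [h.1, h.2]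
      · simp only [dl_false, dl_true, Bool.not_true] at k1 k2; linarith [h.1, h.2]
    · exact k3 (by linarith [h.1, h.2])

lemma Nl_left {i j : Fin n} (h : Ext a i j false) : Nl a i j = 0 := by
  unfold Nl
  rw [Finset.card_eq_zero, Finset.filter_eq_empty_iff]
  rintro l - ⟨h1, h2⟩
  exact h l h1 (by rw [dl_false]; exact h2)

lemma Nl_right {i j : Fin n} (hij : i ≠ j) (hs : Sim a i j) (h : Ext a i j true) :
    Nl a i j + 2 = n := by
  classical
  unfold Nl
  have h1 : (univ.filter (fun l => l ≠ i ∧ a.X i l < a.X i j)) =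
      (univ : Finset (Fin n)) \ {i, j} := by
    ext l
    simp only [mem_filter, mem_univ, true_and, mem_sdiff, mem_insert, mem_singleton, not_or]
    constructor
    · rintro ⟨h2, h3⟩
      refine ⟨h2, ?_⟩
      rintro rfl
      exact lt_irrefl _ h3
    · rintro ⟨h2, h3⟩
      refine ⟨h2, ?_⟩
      have h4 := h l h2
      rw [dl_true, not_lt] at h4
      exact lt_of_le_of_ne h4 (hs l h2 h3)
  rw [h1, Finset.card_sdiff_of_subset (Finset.subset_univ _), Finset.card_univ,
    Fintype.card_fin, Finset.card_pair hij]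
  have := i.isLt
  have := j.isLt
  have : (i : ℕ) ≠ (j : ℕ) := fun h => hij (Fin.ext h)
  omega

lemma ind_true {p : Prop} (h : p) : ind p = 1 := by simp [ind, h]
lemma ind_false {p : Prop} (h : ¬ p) : ind p = 0 := by simp [ind, h]

lemma z2_ne {x y : ZMod 2} (h : x ≠ y) : y = x + 1 := by
  revert h; revert x y; decide

lemma z2_add_one_ne (x : ZMod 2) : x + 1 ≠ x := by
  revert x; decide

/-- for even `n` the partner of a black wedge is determined by parity -/
lemma lost_adj (F : Fam a) (hn : Even n) {c : ZMod 2} {i j : Fin n} (hji : j ≠ i) {d : Bool}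
    (he : Ext a i j d) (hl : Lost F c i j) :
    (c = (i : ℕ) → (j : ℕ) = (i + 1) % n) ∧ (c ≠ (i : ℕ) → (i : ℕ) = (j + 1) % n) := by
  obtain ⟨hs, k, hk, hcol, s, hs1, hs2⟩ := hl
  have hc := z2_ne hcol
  have hjn := j.isLt
  have hin := i.isLt
  -- number of crossings to the left is even
  have hN : (Nl a i j : ZMod 2) = 0 := by
    cases d
    · rw [Nl_left he]; simp
    · have h1 := Nl_right hji.symm hs he
      obtain ⟨m, hm⟩ := hn
      have h2 : Nl a i j = 2 * (m - 1) := by omega
      rw [h2]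
      push_cast
      have : (2 : ZMod 2) = 0 := by decide
      rw [this, zero_mul]
  have hik : ind (a.X i j < a.X i k) = if d then 0 else 1 := by
    have h1 := he k hk.2.1.symm
    cases d
    · rw [dl_false] at h1
      rw [ind_true (lt_of_le_of_ne (not_lt.mp h1) hk.ne_X)]; simp
    · rw [dl_true] at h1
      rw [ind_false h1]; simp
  have hjk : ind (a.X i j < a.X j k) = if s then 1 else 0 := by
    cases s
    · rw [dl_false] at hs1
      rw [ind_false (not_lt.mpr hs1.le)]; simp
    · rw [dl_true] at hs1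
      rw [ind_true hs1]; simp
  unfold col at hc
  rw [ind_iff, hN, hik, hjk] at hc
  rcases lt_or_gt_of_ne hji with hlt | hlt
  · -- j < i
    rw [ind_false (not_lt.mpr hlt.le)] at hc
    have hlt' : (j : ℕ) < (i : ℕ) := hlt
    have same : (!s) = d → (i : ℕ) = j + 1 := fun h =>
      adj_same hlt (hs.symm hji.symm) d (by rw [← h]; exact hs2) he
    have opp' : s = d → (j : ℕ) = 0 ∧ (i : ℕ) + 1 = n := fun h =>
      adj_opp hlt (hs.symm hji.symm) (!d) (by rw [← h]; exact hs2) (by simpa using he)
    cases d <;> cases s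
    · -- d = false, s = false
      obtain ⟨h1, h2⟩ := opp' rfl
      have h3 : c = (i : ℕ) := by
        rw [hc]; simp; rw [add_assoc, z2, add_zero]
      refine ⟨fun _ => ?_, fun h => absurd h3 h⟩
      rw [h2, Nat.mod_self, h1]
    · have h1 := same rfl
      have h3 : c ≠ (i : ℕ) := by
        rw [hc]; simp
        rw [add_assoc ((i : ℕ) : ZMod 2) 1 1, z2, add_zero]
        exact z2_add_one_ne _
      refine ⟨fun h => absurd h h3, fun _ => ?_⟩
      rw [h1, Nat.mod_eq_of_lt (by omega)]
    · have h1 := same rfl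
      have h3 : c ≠ (i : ℕ) := by
        rw [hc]; simp
      refine ⟨fun h => absurd h h3, fun _ => ?_⟩
      rw [h1, Nat.mod_eq_of_lt (by omega)]
    · obtain ⟨h1, h2⟩ := opp' rfl
      have h3 : c = (i : ℕ) := by
        rw [hc]; simp; rw [add_assoc, z2, add_zero]
      refine ⟨fun _ => ?_, fun h => absurd h3 h⟩
      rw [h2, Nat.mod_self, h1]
  · -- i < j
    have hlt2 : i < j := hlt
    rw [ind_true hlt2] at hc
    have hlt' : (i : ℕ) < (j : ℕ) := hlt
    have same : (!s) = d → (j : ℕ) = i + 1 := fun h =>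
      adj_same hlt2 hs d he (by rw [← h]; exact hs2)
    have opp' : s = d → (i : ℕ) = 0 ∧ (j : ℕ) + 1 = n := fun h =>
      adj_opp hlt2 hs d he (by rw [← h]; exact hs2)
    cases d <;> cases s
    · obtain ⟨h1, h2⟩ := opp' rfl
      have h3 : c ≠ (i : ℕ) := by
        rw [hc]; simp
        rw [add_assoc ((i : ℕ) : ZMod 2) 1 1, z2, add_zero]
        exact z2_add_one_ne _
      refine ⟨fun h => absurd h h3, fun _ => ?_⟩
      rw [h2, Nat.mod_self, h1]
    · have h1 := same rfl
      have h3 : c = (i : ℕ) := by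
        rw [hc]; simp
        have := z2 (1 : ZMod 2)
        rw [this, add_zero, add_assoc, z2, add_zero]
      refine ⟨fun _ => ?_, fun h => absurd h3 h⟩
      rw [h1, Nat.mod_eq_of_lt (by omega)]
    · have h1 := same rfl
      have h3 : c = (i : ℕ) := by
        rw [hc]; simp; rw [add_assoc, z2, add_zero]
      refine ⟨fun _ => ?_, fun h => absurd h3 h⟩
      rw [h1, Nat.mod_eq_of_lt (by omega)]
    · obtain ⟨h1, h2⟩ := opp' rfl
      have h3 : c ≠ (i : ℕ) := by
        rw [hc]; simp
        have := z2 (1 : ZMod 2)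
        rw [this, add_zero]
        exact z2_add_one_ne _
      refine ⟨fun h => absurd h h3, fun _ => ?_⟩
      rw [h2, Nat.mod_self, h1]

open Classical in
/-- for even `n` every line has at most one black wedge -/
lemma card_lost_le (F : Fam a) (c : ZMod 2) (hn3 : 3 ≤ n) (hn : Even n)
    (e : Fin n → Bool → Fin n) (he1 : ∀ i d, e i d ≠ i) (he2 : ∀ i d, Ext a i (e i d) d) :
    (univ.filter (fun t : Fin n × Bool => Lost F c t.1 (e t.1 t.2))).card ≤ n := by
  classical
  have h1 : (univ.filter (fun t : Fin n × Bool => Lost F c t.1 (e t.1 t.2))).card =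
      ((univ.filter (fun t : Fin n × Bool => Lost F c t.1 (e t.1 t.2))).image Prod.fst).card := by
    symm
    apply Finset.card_image_of_injOn
    rintro ⟨i, d⟩ ht ⟨i', d'⟩ ht' h
    simp only [coe_filter, mem_univ, true_and] at ht ht'
    simp only at h
    subst h
    by_cases hd : d = d'
    · rw [hd]
    exfalso
    have hd' : d' = !d := by cases d <;> cases d' <;> simp_all
    have k1 := lost_adj F hn (he1 i d) (he2 i d) ht
    have k2 := lost_adj F hn (he1 i d') (he2 i d') ht'
    have hin := i.isLt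
    have heq : e i d = e i d' := by
      by_cases hc : c = (i : ℕ)
      · apply Fin.ext; rw [k1.1 hc, k2.1 hc]
      · have g1 := k1.2 hc
        have g2 := k2.2 hc
        have l1 := (e i d).isLt
        have l2 := (e i d').isLt
        apply Fin.ext
        rcases Nat.lt_or_ge ((e i d : ℕ) + 1) n with m1 | m1
        · rw [Nat.mod_eq_of_lt m1] at g1
          rcases Nat.lt_or_ge ((e i d' : ℕ) + 1) n with m2 | m2
          · rw [Nat.mod_eq_of_lt m2] at g2; omega
          · have : (e i d' : ℕ) + 1 = n := by omega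
            rw [this, Nat.mod_self] at g2; omega
        · have h3 : (e i d : ℕ) + 1 = n := by omega
          rw [h3, Nat.mod_self] at g1
          rcases Nat.lt_or_ge ((e i d' : ℕ) + 1) n with m2 | m2
          · rw [Nat.mod_eq_of_lt m2] at g2; omega
          · omega
    have e1 := he2 i d
    have e2 := he2 i d'
    rw [← heq, hd'] at e2
    exact not_ext_both' hn3 (he1 i d) ht.1 d e1 e2
  rw [h1]
  calc _ ≤ (univ : Finset (Fin n)).card := Finset.card_le_card (Finset.subset_univ _)
    _ = n := by simp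

open Classical in
/-- counting the used half-edges -/
lemma card_un_add (F : Fam a) :
    (univ.filter (fun q => Un F q)).card + 6 * F.T.card ≤ 2 * (n * (n - 1)) := by
  classical
  -- pairs
  have hpair : ∀ p ∈ (univ : Finset (Fin n)).offDiag,
      (univ.filter (fun d => ¬ F.used p.1 p.2 d)).card +
        (F.T.filter (fun A => p.1 ∈ A ∧ p.2 ∈ A)).card ≤ 2 := by
    rintro ⟨i, j⟩ hp
    rw [Finset.mem_offDiag] at hp
    have hij : i ≠ j := hp.2.2
    simp only
    -- each triangle through i, j
    have hA : ∀ A ∈ F.T, i ∈ A → j ∈ A → ∃ k, F.Tr i j k ∧ A = {i, j, k} := by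
      intro A hAT hi hj
      have hc := F.card3 A hAT
      have hsub : ({i, j} : Finset (Fin n)) ⊆ A := by
        intro x hx
        simp only [mem_insert, mem_singleton] at hx
        rcases hx with rfl | rfl <;> assumption
      have h1 : (A \ {i, j}).card = 1 := by
        rw [Finset.card_sdiff_of_subset hsub, hc, Finset.card_pair hij]
      obtain ⟨k, hk⟩ := Finset.card_eq_one.mp h1
      have hkA : k ∈ A \ {i, j} := by rw [hk]; simp
      simp only [mem_sdiff, mem_insert, mem_singleton, not_or] at hkA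
      have hAe : A = {i, j, k} := by
        have h2 : A = {i, j} ∪ (A \ {i, j}) := by
          rw [Finset.union_sdiff_of_subset hsub]
        rw [h2, hk]
        ext x; simp [or_assoc]
      refine ⟨k, ⟨hij, Ne.symm hkA.2.1, Ne.symm hkA.2.2, ?_⟩, hAe⟩
      rw [← hAe]; exact hAT
    let D : Finset (Fin n) → Bool := fun A =>
      decide (∃ k, F.Tr i j k ∧ A = {i, j, k} ∧ a.X i j < a.X i k)
    have hDspec : ∀ A k, F.Tr i j k → A = {i, j, k} → dl (D A) (a.X i j) (a.X i k) := by
      intro A k hk hAk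
      by_cases hlt : a.X i j < a.X i k
      · have : D A = true := by simp only [D, decide_eq_true_eq]; exact ⟨k, hk, hAk, hlt⟩
        rw [this, dl_true]; exact hlt
      · have : D A = false := by
          simp only [D, decide_eq_false_iff_not]
          rintro ⟨k', hk', hAk', hlt'⟩
          have hkk : k = k' := by
            have : k ∈ ({i, j, k'} : Finset (Fin n)) := by rw [← hAk', hAk]; simp
            simp only [mem_insert, mem_singleton] at this
            rcases this with h | h | h
            · exact absurd h.symm hk.2.1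
            · exact absurd h.symm hk.2.2.1
            · exact h
          rw [hkk] at hlt; exact hlt hlt'
        rw [this, dl_false]
        exact lt_of_le_of_ne (not_lt.mp hlt) hk.ne_X.symm
    have hinj : Set.InjOn D (F.T.filter (fun A => i ∈ A ∧ j ∈ A) : Finset _) := by
      intro A hA1 B hB1 hAB
      simp only [coe_filter] at hA1 hB1
      obtain ⟨k, hk, hAk⟩ := hA A hA1.1 hA1.2.1 hA1.2.2
      obtain ⟨k', hk', hBk⟩ := hA B hB1.1 hB1.2.1 hB1.2.2
      have h1 := hDspec A k hk hAk
      have h2 := hDspec B k' hk' hBk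
      rw [hAB] at h1
      have := (hk.same_dir hk' rfl h1 h2).2
      rw [hAk, hBk, this]
    have hmap : (F.T.filter (fun A => i ∈ A ∧ j ∈ A)).image D ⊆
        univ.filter (fun d => F.used i j d) := by
      intro d hd
      simp only [mem_image, mem_filter] at hd
      obtain ⟨A, ⟨h1, h2, h3⟩, h4⟩ := hd
      obtain ⟨k, hk, hAk⟩ := hA A h1 h2 h3
      have h5 := hDspec A k hk hAk
      rw [h4] at h5
      simp only [mem_filter, mem_univ, true_and]
      exact ⟨k, hk, h5⟩
    have h1 := Finset.card_le_card hmap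
    rw [Finset.card_image_of_injOn hinj] at h1
    have h2 := Finset.card_filter_add_card_filter_not (s := (univ : Finset Bool))
      (fun d => F.used i j d)
    have h3 : (univ : Finset Bool).card = 2 := by simp
    omega
  have hT : ∑ p ∈ (univ : Finset (Fin n)).offDiag,
      (F.T.filter (fun A => p.1 ∈ A ∧ p.2 ∈ A)).card = 6 * F.T.card := by
    have h1 : ∀ p : Fin n × Fin n, (F.T.filter (fun A => p.1 ∈ A ∧ p.2 ∈ A)).card =
        ∑ A ∈ F.T, if (p.1 ∈ A ∧ p.2 ∈ A) then 1 else 0 := fun p => Finset.card_filter _ _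
    rw [Finset.sum_congr rfl (fun p _ => h1 p), Finset.sum_comm]
    have h2 : ∀ A ∈ F.T, ∑ p ∈ (univ : Finset (Fin n)).offDiag,
        (if (p.1 ∈ A ∧ p.2 ∈ A) then 1 else 0) = 6 := by
      intro A hA
      rw [← Finset.card_filter]
      have h3 : (univ : Finset (Fin n)).offDiag.filter (fun p => p.1 ∈ A ∧ p.2 ∈ A) =
          A.offDiag := by
        ext p
        simp only [mem_filter, mem_offDiag, mem_univ, true_and]
        tauto
      rw [h3, Finset.offDiag_card, F.card3 A hA]
    rw [Finset.sum_congr rfl h2, Finset.sum_const, smul_eq_mul, mul_comm]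
  have hU : (univ.filter (fun q => Un F q)).card ≤
      ∑ p ∈ (univ : Finset (Fin n)).offDiag, (univ.filter (fun d => ¬ F.used p.1 p.2 d)).card := by
    rw [Finset.card_eq_sum_card_fiberwise (f := fun q : Fin n × Fin n × Bool => (q.1, q.2.1))
      (t := (univ : Finset (Fin n)).offDiag)]
    · apply Finset.sum_le_sum
      rintro ⟨i, j⟩ _
      rw [← Finset.card_image_of_injOn (f := fun q : Fin n × Fin n × Bool => q.2.2)
        (s := (univ.filter (fun q => Un F q)).filter (fun q => (q.1, q.2.1) = (i, j)))]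
      · apply Finset.card_le_card
        intro d hd
        simp only [mem_image, mem_filter, mem_univ, true_and, Prod.mk.injEq] at hd
        obtain ⟨q, ⟨h1, h2, h3⟩, h4⟩ := hd
        simp only [mem_filter, mem_univ, true_and]
        rw [← h2, ← h3, ← h4]
        exact h1.2
      · intro q hq q' hq' h
        simp only [coe_filter, mem_filter, mem_univ, true_and, Prod.mk.injEq] at hq hq'
        simp only at h
        obtain ⟨_, h1, h2⟩ := hq
        obtain ⟨_, h3, h4⟩ := hq'
        refine Prod.ext (h1.trans h3.symm) (Prod.ext (h2.trans h4.symm) h)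
    · intro q hq
      simp only [coe_filter, mem_univ, true_and] at hq
      simp only [Finset.coe_offDiag, coe_univ, Set.mem_offDiag, Set.mem_univ, true_and]
      exact hq.1
  have hsum := Finset.sum_le_sum hpair
  rw [Finset.sum_add_distrib, hT, Finset.sum_const, smul_eq_mul, Finset.offDiag_card,
    Finset.card_univ, Fintype.card_fin] at hsum
  have h5 : (n * n - n) * 2 = 2 * (n * (n - 1)) := by
    rw [Nat.mul_sub_one]; ring
  omega

/-- **The core theorem.** -/
theorem core (F : Fam a) (hn : Even n) (hn4 : 4 ≤ n) : 6 * F.T.card ≤ n * (2 * n - 5) := by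
  classical
  obtain ⟨c, hc⟩ := exists_colour F (by omega)
  have hex := fun i d => exists_ext a (by omega : 2 ≤ n) i d
  choose e he using hex
  have h1 := card_un_ge F c (by omega) hc e (fun i d => (he i d).1) (fun i d => (he i d).2)
  have h2 := card_lost_le F c (by omega) hn e (fun i d => (he i d).1) (fun i d => (he i d).2)
  have h3 := card_un_add F
  have h4 : n * (2 * n - 5) + 3 * n = 2 * (n * (n - 1)) := by
    obtain ⟨m, rfl⟩ : ∃ m, n = m + 4 := ⟨n - 4, by omega⟩
    have e1 : 2 * (m + 4) - 5 = 2 * m + 3 := by omega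
    have e2 : m + 4 - 1 = m + 3 := by omega
    rw [e1, e2]; ring
  omega

end Pool.Agent.Helper30.KO
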