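import Pool.Agent.Helper30.KO.Lines

/-!
# Exact values for `n = 2 ^ k + 2` lines
-/

namespace Pool.Agent.Helper30.KO

open Finset

lemma ln_inj {m K : ℕ → ℝ} {i j : ℕ} (h : ln m K i = ln m K j) : m i = m j := by
  have h1 : (!₂[0, K i] : Plane) ∈ ln m K i := by simp [ln]
  have h2 : (!₂[1, m i + K i] : Plane) ∈ ln m K i := by simp [ln]
  rw [h] at h1 h2
  simp [ln] at h1 h2
  linarith

open Classical in
/-- the indices of the lines -/
noncomputable def ix (k : ℕ) : Finset ℕ := (range (2 ^ k + 1)).filter (fun q => q = 1 ∨ Even q)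

lemma mem_ix {k q : ℕ} : q ∈ ix k ↔ Lin k q := by
  simp only [ix, mem_filter, mem_range, Lin]
  constructor <;> rintro ⟨h1, h2⟩ <;> exact ⟨by omega, h2⟩

lemma card_ix (k : ℕ) (hk : 1 ≤ k) : (ix k).card = 2 ^ (k - 1) + 2 := by
  classical
  obtain ⟨K, rfl⟩ : ∃ K, k = K + 1 := ⟨k - 1, by omega⟩
  have h1 : ix (K + 1) = insert 1 ((range (2 ^ K + 1)).image (fun x => 2 * x)) := by
    ext q
    rw [mem_ix]
    simp only [Lin, mem_insert, mem_image, mem_range]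
    have hp : (2 : ℕ) ^ (K + 1) = 2 * 2 ^ K := by rw [pow_succ]; ring
    rw [hp]
    have hpos : 1 ≤ 2 ^ K := Nat.one_le_two_pow
    constructor
    · rintro ⟨h1, rfl | ⟨r, hr⟩⟩
      · exact Or.inl rfl
      · exact Or.inr ⟨r, by omega, by omega⟩
    · rintro (rfl | ⟨r, hr, rfl⟩)
      · exact ⟨by omega, Or.inl rfl⟩
      · exact ⟨by omega, Or.inr (even_two_mul r)⟩
  rw [h1, Finset.card_insert_of_notMem (by
    simp only [mem_image, mem_range, not_exists, not_and]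
    intro x _; omega), Finset.card_image_of_injective _ (by intro a b h; simpa using h),
    Finset.card_range, Nat.add_sub_cancel]

/-- the arrangement -/
theorem exists_opt (κ : ℕ) (hκ : 1 ≤ κ) :
    ∃ L : Finset (Set Plane), L.card = 2 ^ κ + 2 ∧ (∀ ℓ ∈ L, IsLine ℓ) ∧
      NoThree (L : Set (Set Plane)) ∧ ∃ 𝒯 : Finset (Finset Plane), (∀ V ∈ 𝒯, Counted L V) ∧
        6 * 𝒯.card = (2 ^ κ + 2) * (2 * (2 ^ κ + 2) - 5) := by
  classical
  obtain ⟨m, K, hm, hs⟩ := exists_real (κ + 1)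
  have h : Rz (κ + 1) m K := ⟨hm, hs⟩
  refine ⟨(ix (κ + 1)).image (ln m K), ?_, ?_, ?_, (fam (κ + 1)).image (vt m K), ?_, ?_⟩
  · rw [Finset.card_image_of_injOn, card_ix (κ + 1) (by omega), Nat.add_sub_cancel]
    intro x hx y hy hxy
    have hx' := (mem_ix.mp (Finset.mem_coe.mp hx)).1
    have hy' := (mem_ix.mp (Finset.mem_coe.mp hy)).1
    by_contra hne
    exact h.ne hx' hy' hne (ln_inj hxy)
  · intro ℓ hℓ
    obtain ⟨q, _, rfl⟩ := Finset.mem_image.mp hℓ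
    exact ln_isLine q
  · intro ℓ₁ h1 ℓ₂ h2 ℓ₃ h3 n1 n2 n3
    obtain ⟨i, hi, rfl⟩ := Finset.mem_image.mp (Finset.mem_coe.mp h1)
    obtain ⟨j, hj, rfl⟩ := Finset.mem_image.mp (Finset.mem_coe.mp h2)
    obtain ⟨l, hl, rfl⟩ := Finset.mem_image.mp (Finset.mem_coe.mp h3)
    rw [Set.eq_empty_iff_forall_notMem]
    rintro z ⟨⟨z1, z2⟩, z3⟩
    exact h.noThree (mem_ix.mp hi).1 (mem_ix.mp hj).1 (mem_ix.mp hl).1
      (fun e => n1 (by rw [e])) (fun e => n2 (by rw [e])) (fun e => n3 (by rw [e])) z1 z2 z3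
  · intro V hV
    obtain ⟨⟨a, b, c⟩, ht, rfl⟩ := Finset.mem_image.mp hV
    apply h.counted (by omega) _ ht
    intro ℓ
    rw [Finset.mem_coe, Finset.mem_image]
    constructor
    · rintro ⟨q, hq, rfl⟩
      exact ⟨q, mem_ix.mp hq, rfl⟩
    · rintro ⟨q, hq, rfl⟩
      exact ⟨q, mem_ix.mpr hq, rfl⟩
  · rw [Finset.card_image_of_injOn (h.vt_inj (by omega)), card_fam (κ + 1) (by omega),
      Nat.add_sub_cancel]

/-- exact values -/
theorem exact (k n : ℕ) (hk : 1 ≤ k) (hn : n = 2 ^ k + 2) :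
    ∃ T : ℕ, 6 * T = n * (2 * n - 5) ∧
      IsGreatest {N : ℕ∞ | ∃ L : Finset (Set Plane), L.card = n ∧ (∀ ℓ ∈ L, IsLine ℓ) ∧
        NoThree (L : Set (Set Plane)) ∧ N = {V : Finset Plane | Counted L V}.encard} (T : ℕ∞) := by
  subst hn
  have he : Even (2 ^ k + 2) := by
    obtain ⟨K, rfl⟩ : ∃ K, k = K + 1 := ⟨k - 1, by omega⟩
    exact ⟨2 ^ K + 1, by rw [pow_succ]; ring⟩
  have h2 : 2 ≤ 2 ^ k := by
    calc 2 = 2 ^ 1 := rfl
      _ ≤ 2 ^ k := Nat.pow_le_pow_right (by norm_num) hk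
  obtain ⟨L, hc, hL, h3, 𝒯, hT1, hT2⟩ := exists_opt k hk
  refine ⟨𝒯.card, hT2, ⟨L, hc, hL, h3, ?_⟩, ?_⟩
  · obtain ⟨hf, hle⟩ := upper_simple he (by omega) L hL hc h3
    have hge : 𝒯.card ≤ {V | Counted (L : Set (Set Plane)) V}.ncard := by
      rw [← Set.ncard_coe_finset]
      exact Set.ncard_le_ncard (fun V hV => hT1 V (Finset.mem_coe.mp hV)) hf
    rw [← hf.cast_ncard_eq]
    congr 1
    omega
  · rintro T ⟨L', hc', hL', h3', rfl⟩
    obtain ⟨hf, hle⟩ := upper_simple he (by omega) L' hL' hc' h3'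
    rw [← hf.cast_ncard_eq]
    have : {V | Counted (L' : Set (Set Plane)) V}.ncard ≤ 𝒯.card := by omega
    exact_mod_cast this

end Pool.Agent.Helper30.KO
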