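import Pool.Agent.Helper30.KO.Mirror

/-!
# Counting the empty triangles of the rule
-/

namespace Pool.Agent.Helper30.KO

open Finset

/-- the triangle attached to two lines of the level `v` -/
def tau (k v r s : ℕ) : ℕ × ℕ × ℕ :=
  if r < s then (if r + s ≤ 2 ^ k then (r, s, r + s) else (r + s - 2 ^ k, r, s))
  else if s < r then
    (if r + s < 2 ^ k then (s, r, r + s + 2 ^ (v + 1))
      else if r + s = 2 ^ k then (0, s, r) else (r + s - 2 ^ k - 2 ^ (v + 1), s, r))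
  else
    (if 2 * r < 2 ^ k then (r, 2 * r, 2 * r + 2 ^ (v + 1))
      else if 2 * r = 2 ^ k then (0, r, 2 ^ k)
      else (2 * r - 2 ^ k - 2 ^ (v + 1), 2 * r - 2 ^ k, r))

/-- the inverse of `tau` -/
def dec (k : ℕ) (t : ℕ × ℕ × ℕ) : ℕ × ℕ :=
  if lvl k t.1 = lvl k t.2.1 then (if t.2.2 = t.1 + t.2.1 then (t.1, t.2.1) else (t.2.1, t.1))
  else if lvl k t.2.1 = lvl k t.2.2 then
    (if t.1 + 2 ^ k = t.2.1 + t.2.2 ∧ 0 < t.1 then (t.2.1, t.2.2) else (t.2.2, t.2.1))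
  else if lvl k t.1 < lvl k t.2.1 then (t.1, t.1)
  else if lvl k t.2.2 < lvl k t.2.1 then (t.2.2, t.2.2)
  else (t.2.1, t.2.1)

/-- the properties of a listed triangle -/
def Ok (k : ℕ) (t : ℕ × ℕ × ℕ) : Prop := IsTri k t.1 t.2.1 t.2.2

lemma tau_spec {k v r s : ℕ} (hv0 : 0 < v) (hr0 : 0 < r) (hr : r < 2 ^ k) (hs0 : 0 < s)
    (hs : s < 2 ^ k) (hlr : lvl k r = v) (hls : lvl k s = v) :
    Ok k (tau k v r s) ∧ dec k (tau k v r s) = (r, s) ∧
      Even (tau k v r s).1 ∧ Even (tau k v r s).2.1 ∧ Even (tau k v r s).2.2 := by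
  have hv : v < k := by rw [← hlr]; exact lvl_lt hr0 hr
  have hM : 0 < 2 ^ (v + 1) := by positivity
  have hN : v < lvl k (2 ^ k) := by rw [lvl_pow]; exact hv
  have h0 : lvl k 0 = k := lvl_zero k
  have er : Even r := by
    have : 2 ^ v ∣ r := (le_lvl_iff hv.le).mp hlr.ge
    exact (even_iff_two_dvd.mpr (dvd_pow_self 2 hv0.ne')).trans_dvd this
  have es : Even s := by
    have : 2 ^ v ∣ s := (le_lvl_iff hv.le).mp hls.ge
    exact (even_iff_two_dvd.mpr (dvd_pow_self 2 hv0.ne')).trans_dvd this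
  have eM : Even (2 ^ (v + 1)) := even_iff_two_dvd.mpr (dvd_pow_self 2 (by omega))
  have eN : Even (2 ^ k) := even_iff_two_dvd.mpr (dvd_pow_self 2 (by omega))
  have hsum : v < lvl k (r + s) := lvl_add_gt hv hlr hls
  unfold tau
  split_ifs with h1 h2 h3 h4 h5 h6 h7
  · -- r < s, r + s ≤ N
    refine ⟨show IsTri k r s (r + s) from tri_A hv hr0 hlr hls h1 (Or.inl rfl) h2, ?_, er, es,
      er.add es⟩
    simp [dec, hlr, hls]
  · -- r < s, N < r + s
    have e1 : r + s - 2 ^ k = 2 ^ k - ((2 ^ k - r) + (2 ^ k - s)) := by omega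
    have l1 : v < lvl k (r + s - 2 ^ k) := by
      rw [e1, lvl_mirror (by omega)]
      exact lvl_add_gt hv (by rw [lvl_mirror hr.le]; exact hlr) (by rw [lvl_mirror hs.le]; exact hls)
    refine ⟨show IsTri k (r + s - 2 ^ k) r s from tri_A' hv hlr hls h1 hs (Or.inl (by omega)),
      ?_, ?_, er, es⟩
    · have n1 : lvl k (r + s - 2 ^ k) ≠ lvl k r := by omega
      have n2 : lvl k r = lvl k s := by rw [hlr, hls]
      have n3 : r + s - 2 ^ k + 2 ^ k = r + s ∧ 0 < r + s - 2 ^ k := by omega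
      simp only [dec, if_neg n1, if_pos n2, if_pos n3]
    · exact (Nat.even_sub (by omega)).mpr ⟨fun _ => eN, fun _ => er.add es⟩
  · -- s < r, r + s < N
    have g := gap_high hv hsum hN h4
    refine ⟨show IsTri k s r (r + s + 2 ^ (v + 1)) from
      tri_A hv hs0 hls hlr h3 (Or.inr (by omega)) g, ?_, es, er, (er.add es).add eM⟩
    have n2 : lvl k s = lvl k r := by rw [hlr, hls]
    have n3 : ¬ (r + s + 2 ^ (v + 1) = s + r) := by omega
    simp only [dec, if_pos n2, if_neg n3]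
  · -- r + s = N
    refine ⟨show IsTri k 0 s r from tri_A' hv hls hlr h3 hr (Or.inl (by omega)), ?_, ⟨0, rfl⟩, es, er⟩
    have n1 : lvl k 0 ≠ lvl k s := by omega
    have n2 : lvl k s = lvl k r := by rw [hlr, hls]
    have n3 : ¬ (0 + 2 ^ k = s + r ∧ 0 < 0) := by omega
    simp only [dec, if_neg n1, if_pos n2, if_neg n3]
  · -- s < r, N < r + s
    have g := gap_high hv hN hsum (by omega)
    have e1 : r + s - 2 ^ k - 2 ^ (v + 1) =
        2 ^ k - ((2 ^ k - r) + (2 ^ k - s) + 2 ^ (v + 1)) := by omega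
    have l1 : v < lvl k (r + s - 2 ^ k - 2 ^ (v + 1)) := by
      rw [e1, lvl_mirror (by omega)]
      exact lvl_add_gt' hv (lvl_add_gt hv (by rw [lvl_mirror hr.le]; exact hlr)
        (by rw [lvl_mirror hs.le]; exact hls)) (lvl_pow_succ hv)
    refine ⟨show IsTri k (r + s - 2 ^ k - 2 ^ (v + 1)) s r from
      tri_A' hv hls hlr h3 hr (Or.inr (by omega)), ?_, ?_, es, er⟩
    · have n1 : lvl k (r + s - 2 ^ k - 2 ^ (v + 1)) ≠ lvl k s := by omega
      have n2 : lvl k s = lvl k r := by rw [hlr, hls]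
      have n3 : ¬ (r + s - 2 ^ k - 2 ^ (v + 1) + 2 ^ k = s + r ∧
          0 < r + s - 2 ^ k - 2 ^ (v + 1)) := by omega
      simp only [dec, if_neg n1, if_pos n2, if_neg n3]
    · exact (Nat.even_sub (by omega)).mpr ⟨fun _ => eM, fun _ =>
        (Nat.even_sub (by omega)).mpr ⟨fun _ => eN, fun _ => er.add es⟩⟩
  · -- 2 r < N
    have hrs : r = s := by omega
    subst hrs
    have hv1 : v + 1 < k := by
      have h8 : 2 ^ v ≤ r := ge_of_lvl hv hlr
      have h9 : 2 ^ (v + 1) < 2 ^ k := by rw [pow_succ]; omega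
      exact (Nat.pow_lt_pow_iff_right (by norm_num)).mp h9
    have hsum' : v < lvl k (2 * r) := by rw [lvl_two_mul hv1 hlr]; omega
    have g := gap_high hv hsum' hN h6
    refine ⟨show IsTri k r (2 * r) (2 * r + 2 ^ (v + 1)) from tri_B hv1 hr0 hlr g, ?_, er,
      even_two_mul r, (even_two_mul r).add eM⟩
    have l2 := lvl_two_mul hv1 hlr
    have l3 := lvl_two_mul_add hv1 hlr
    have n1 : lvl k r ≠ lvl k (2 * r) := by omega
    have n2 : lvl k (2 * r) ≠ lvl k (2 * r + 2 ^ (v + 1)) := by omega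
    have n3 : lvl k r < lvl k (2 * r) := by omega
    simp only [dec, if_neg n1, if_neg n2, if_pos n3]
  · -- 2 r = N
    have hrs : r = s := by omega
    subst hrs
    refine ⟨show IsTri k 0 r (2 ^ k) from tri_B0 (by omega) h7, ?_, ⟨0, rfl⟩, er, eN⟩
    have l4 := lvl_pow k
    have n1 : lvl k 0 ≠ lvl k r := by omega
    have n2 : lvl k r ≠ lvl k (2 ^ k) := by omega
    have n3 : ¬ lvl k 0 < lvl k r := by omega
    have n4 : ¬ lvl k (2 ^ k) < lvl k r := by omega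
    simp only [dec, if_neg n1, if_neg n2, if_neg n3, if_neg n4]
  · -- N < 2 r
    have hrs : r = s := by omega
    subst hrs
    have hlr' : lvl k (2 ^ k - r) = v := by rw [lvl_mirror hr.le]; exact hlr
    have hv1 : v + 1 < k := by
      have h8 : 2 ^ v ≤ 2 ^ k - r := ge_of_lvl hv hlr'
      have h9 : 2 ^ (v + 1) < 2 ^ k := by rw [pow_succ]; omega
      exact (Nat.pow_lt_pow_iff_right (by norm_num)).mp h9
    have l2 := lvl_two_mul hv1 hlr'
    have l3 := lvl_two_mul_add hv1 hlr'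
    have hsum' : v < lvl k (2 * (2 ^ k - r)) := by omega
    have g := gap_high hv hsum' hN (by omega)
    have e1 : 2 * r - 2 ^ k = 2 ^ k - 2 * (2 ^ k - r) := by omega
    have e2 : 2 * r - 2 ^ k - 2 ^ (v + 1) = 2 ^ k - (2 * (2 ^ k - r) + 2 ^ (v + 1)) := by omega
    have l2' : lvl k (2 * r - 2 ^ k) = v + 1 := by rw [e1, lvl_mirror (by omega)]; exact l2
    have l3' : v + 1 < lvl k (2 * r - 2 ^ k - 2 ^ (v + 1)) := by
      rw [e2, lvl_mirror (by omega)]; exact l3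
    refine ⟨show IsTri k (2 * r - 2 ^ k - 2 ^ (v + 1)) (2 * r - 2 ^ k) r from
      tri_B' hv1 hlr hr (by omega), ?_, ?_, ?_, er⟩
    · have n1 : lvl k (2 * r - 2 ^ k - 2 ^ (v + 1)) ≠ lvl k (2 * r - 2 ^ k) := by omega
      have n2 : lvl k (2 * r - 2 ^ k) ≠ lvl k r := by omega
      have n3 : ¬ lvl k (2 * r - 2 ^ k - 2 ^ (v + 1)) < lvl k (2 * r - 2 ^ k) := by omega
      have n4 : lvl k r < lvl k (2 * r - 2 ^ k) := by omega
      simp only [dec, if_neg n1, if_neg n2, if_neg n3, if_pos n4]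
    · exact (Nat.even_sub (by omega)).mpr ⟨fun _ => eM, fun _ =>
        (Nat.even_sub (by omega)).mpr ⟨fun _ => eN, fun _ => even_two_mul r⟩⟩
    · exact (Nat.even_sub (by omega)).mpr ⟨fun _ => eN, fun _ => even_two_mul r⟩

/-- the index set of the pairs of even lines of equal level -/
def idx (k : ℕ) : Finset (Σ _ : ℕ, ℕ × ℕ) :=
  (Finset.Ico 1 k).sigma (fun v => range (2 ^ (k - 1 - v)) ×ˢ range (2 ^ (k - 1 - v)))

lemma card_idx (k : ℕ) (hk : 1 ≤ k) : 3 * (idx k).card + 1 = 4 ^ (k - 1) := by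
  have h1 : ∀ K : ℕ, 3 * (∑ v ∈ Finset.Ico 1 (K + 1), 2 ^ (K - v) * 2 ^ (K - v)) + 1 = 4 ^ K := by
    intro K
    induction K with
    | zero => simp
    | succ K ih =>
      have h2 : Finset.Ico 1 (K + 1 + 1) = insert 1 (Finset.Ico 2 (K + 1 + 1)) := by
        ext x; simp only [mem_Ico, mem_insert]; omega
      have h3 : ∑ v ∈ Finset.Ico 2 (K + 1 + 1), 2 ^ (K + 1 - v) * 2 ^ (K + 1 - v) =
          ∑ v ∈ Finset.Ico 1 (K + 1), 2 ^ (K - v) * 2 ^ (K - v) := by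
        symm
        apply Finset.sum_bij (fun v _ => v + 1)
        · intro a ha; simp only [mem_Ico] at *; omega
        · intro a _ b _ h; omega
        · intro b hb
          simp only [mem_Ico] at hb
          exact ⟨b - 1, by simp only [mem_Ico]; omega, by omega⟩
        · intro a ha
          have : K + 1 - (a + 1) = K - a := by omega
          rw [this]
      rw [h2, Finset.sum_insert (by simp), h3]
      have h4 : (2 : ℕ) ^ (K + 1 - 1) * 2 ^ (K + 1 - 1) = 4 ^ K := by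
        rw [Nat.add_sub_cancel, ← mul_pow]; norm_num
      rw [h4, pow_succ]
      omega
  obtain ⟨K, rfl⟩ : ∃ K, k = K + 1 := ⟨k - 1, by omega⟩
  have h5 : (idx (K + 1)).card =
      ∑ v ∈ Finset.Ico 1 (K + 1), 2 ^ (K - v) * 2 ^ (K - v) := by
    unfold idx
    rw [Finset.card_sigma]
    apply Finset.sum_congr rfl
    intro v _
    rw [Finset.card_product, Finset.card_range, Nat.add_sub_cancel]
  rw [h5, Nat.add_sub_cancel]
  exact h1 K

/-- the lines of level `v` -/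
def el (v a : ℕ) : ℕ := 2 ^ (v + 1) * a + 2 ^ v

lemma el_spec {k v a : ℕ} (hv : v < k) (ha : a < 2 ^ (k - 1 - v)) :
    0 < el v a ∧ el v a < 2 ^ k ∧ lvl k (el v a) = v := by
  refine ⟨by unfold el; positivity, ?_, lvl_of_mod hv rfl⟩
  have h1 : 2 ^ k = 2 ^ (v + 1) * 2 ^ (k - 1 - v) := by
    rw [← pow_add]; congr 1; omega
  have h2 : 2 ^ (v + 1) * (a + 1) ≤ 2 ^ (v + 1) * 2 ^ (k - 1 - v) := Nat.mul_le_mul_left _ ha
  have h3 : 2 ^ v < 2 ^ (v + 1) := Nat.pow_lt_pow_right (by norm_num) (by omega)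
  rw [h1]
  unfold el
  rw [mul_add, mul_one] at h2
  omega

lemma el_inj {v a b : ℕ} (h : el v a = el v b) : a = b := by
  unfold el at h
  have h1 : 2 ^ (v + 1) * a = 2 ^ (v + 1) * b := by omega
  exact Nat.eq_of_mul_eq_mul_left (by positivity) h1

/-- the triangle with a given index -/
def tr (k : ℕ) (x : Σ _ : ℕ, ℕ × ℕ) : ℕ × ℕ × ℕ := tau k x.1 (el x.1 x.2.1) (el x.1 x.2.2)

lemma tr_spec {k : ℕ} {x : Σ _ : ℕ, ℕ × ℕ} (hx : x ∈ idx k) :
    Ok k (tr k x) ∧ dec k (tr k x) = (el x.1 x.2.1, el x.1 x.2.2) ∧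
      Even (tr k x).1 ∧ Even (tr k x).2.1 ∧ Even (tr k x).2.2 := by
  obtain ⟨v, a, b⟩ := x
  simp only [idx, mem_sigma, mem_Ico, mem_product, mem_range] at hx
  obtain ⟨⟨hv1, hv2⟩, ha, hb⟩ := hx
  obtain ⟨a1, a2, a3⟩ := el_spec hv2 ha
  obtain ⟨b1, b2, b3⟩ := el_spec hv2 hb
  exact tau_spec (v := v) (Nat.lt_of_lt_of_le Nat.zero_lt_one hv1) a1 a2 b1 b2 a3 b3

lemma tr_inj {k : ℕ} : Set.InjOn (tr k) (idx k : Set (Σ _ : ℕ, ℕ × ℕ)) := by
  intro x hx y hy hxy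
  have h1 := (tr_spec (Finset.mem_coe.mp hx)).2.1
  have h2 := (tr_spec (Finset.mem_coe.mp hy)).2.1
  rw [hxy, h2] at h1
  obtain ⟨v, a, b⟩ := x
  obtain ⟨w, c, d⟩ := y
  simp only [Prod.mk.injEq] at h1
  have hx' := Finset.mem_coe.mp hx
  have hy' := Finset.mem_coe.mp hy
  simp only [idx, mem_sigma, mem_Ico, mem_product, mem_range] at hx' hy'
  have l1 := (el_spec hx'.1.2 hx'.2.1).2.2
  have l2 := (el_spec hy'.1.2 hy'.2.1).2.2
  have hvw : v = w := by rw [← l1, ← l2, h1.1]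
  subst hvw
  have e1 := el_inj h1.1
  have e2 := el_inj h1.2
  rw [e1, e2]

/-- all triangles -/
def fam (k : ℕ) : Finset (ℕ × ℕ × ℕ) :=
  (idx k).image (tr k) ∪ (range (2 ^ (k - 2))).image (fun j => (1, 4 * j + 2, 4 * j + 4))

/-- the lines of the arrangement -/
def Lin (k q : ℕ) : Prop := q ≤ 2 ^ k ∧ (q = 1 ∨ Even q)

lemma card_fam (k : ℕ) (hk : 2 ≤ k) :
    6 * (fam k).card = (2 ^ (k - 1) + 2) * (2 * (2 ^ (k - 1) + 2) - 5) := by
  have hd : Disjoint ((idx k).image (tr k))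
      ((range (2 ^ (k - 2))).image (fun j => ((1, 4 * j + 2, 4 * j + 4) : ℕ × ℕ × ℕ))) := by
    rw [Finset.disjoint_left]
    intro t h1 h2
    obtain ⟨x, hx, rfl⟩ := Finset.mem_image.mp h1
    obtain ⟨j, _, hj⟩ := Finset.mem_image.mp h2
    have h3 := (tr_spec hx).2.2.1
    rw [← hj] at h3
    exact absurd (show Even 1 from h3) (by decide)
  unfold fam
  rw [Finset.card_union_of_disjoint hd, Finset.card_image_of_injOn tr_inj,
    Finset.card_image_of_injective _ (by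
      intro a b h
      simp only [Prod.mk.injEq] at h
      omega), Finset.card_range]
  have h1 := card_idx k (by omega)
  obtain ⟨K, rfl⟩ : ∃ K, k = K + 2 := ⟨k - 2, by omega⟩
  have e1 : K + 2 - 1 = K + 1 := by omega
  have e2 : K + 2 - 2 = K := by omega
  rw [e1] at h1
  rw [e1, e2]
  have h4 : (4 : ℕ) ^ (K + 1) = 2 ^ (K + 1) * 2 ^ (K + 1) := by rw [← mul_pow]; norm_num
  rw [h4] at h1
  have h5 : 2 * (2 ^ (K + 1) + 2) - 5 = 2 * 2 ^ (K + 1) - 1 := by omega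
  rw [h5]
  have h6 : (2 : ℕ) ^ (K + 1) = 2 * 2 ^ K := by rw [pow_succ]; ring
  have h7 : 1 ≤ 2 ^ K := Nat.one_le_two_pow
  rw [h6] at h1 ⊢
  generalize (idx (K + 2)).card = c at *
  obtain ⟨y, hy⟩ : ∃ y, 2 ^ K = y + 1 := ⟨2 ^ K - 1, by omega⟩
  rw [hy] at h1 ⊢
  have h8 : 2 * (2 * (y + 1)) - 1 = 4 * y + 3 := by omega
  rw [h8]
  nlinarith [h1]

lemma fam_spec {k : ℕ} (hk : 2 ≤ k) {a b c : ℕ} (h : (a, b, c) ∈ fam k) :
    a < b ∧ b < c ∧ Lin k a ∧ Lin k b ∧ Lin k c ∧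
      ∀ q, Lin k q → q ≠ a → q ≠ b → q ≠ c → NS k a b c q := by
  rcases Finset.mem_union.mp h with h | h
  · obtain ⟨x, hx, he⟩ := Finset.mem_image.mp h
    obtain ⟨h1, _, h3, h4, h5⟩ := tr_spec hx
    rw [he] at h1 h3 h4 h5
    obtain ⟨g1, g2, g3, g4⟩ := (h1 : IsTri k a b c)
    simp only at g1 g2 g3 h3 h4 h5
    exact ⟨g1, g2, ⟨by omega, Or.inr h3⟩, ⟨by omega, Or.inr h4⟩, ⟨g3, Or.inr h5⟩,
      fun q hq => g4 q hq.1⟩
  · obtain ⟨j, hj, he⟩ := Finset.mem_image.mp h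
    simp only [Prod.mk.injEq] at he
    obtain ⟨rfl, rfl, rfl⟩ := he
    have hj' := Finset.mem_range.mp hj
    have h6 : 4 * j + 4 ≤ 2 ^ k := by
      obtain ⟨K, rfl⟩ : ∃ K, k = K + 2 := ⟨k - 2, by omega⟩
      rw [Nat.add_sub_cancel] at hj'
      rw [pow_add]; omega
    refine ⟨by omega, by omega, ⟨by omega, Or.inl rfl⟩, ⟨by omega, Or.inr ⟨2 * j + 1, by ring⟩⟩,
      ⟨h6, Or.inr ⟨2 * j + 2, by ring⟩⟩, ?_⟩
    intro q hq n1 n2 n3
    rcases hq.2 with h7 | h7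
    · exact absurd h7 n1
    · exact NS_C (by omega) h6 hq.1 h7 n2 n3

end Pool.Agent.Helper30.KO
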