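import Mathlib

/-!
# Kobon triangles: the definitions used in the statements
-/

namespace Pool.Agent.Helper30.KO

/-- the Euclidean plane -/
abbrev Plane := EuclideanSpace ℝ (Fin 2)

/-- straight lines of the plane: the solution sets of the equations `a x + b y = c` with
`(a, b) ≠ (0, 0)` -/
def IsLine (ℓ : Set Plane) : Prop :=
  ∃ a b c : ℝ, (a ≠ 0 ∨ b ≠ 0) ∧ ℓ = {x | a * x 0 + b * x 1 = c}

/-- `V` is the set of vertices `p, q, r` of a nondegenerate triangle counted by the set of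
lines `L`: its three sides lie on lines of `L` and no line of `L` meets its interior -/
def Counted (L : Set (Set Plane)) (V : Finset Plane) : Prop :=
  ∃ p q r : Plane, (V : Set Plane) = {p, q, r} ∧ AffineIndependent ℝ ![p, q, r] ∧
    (∃ ℓ ∈ L, p ∈ ℓ ∧ q ∈ ℓ) ∧ (∃ ℓ ∈ L, q ∈ ℓ ∧ r ∈ ℓ) ∧ (∃ ℓ ∈ L, p ∈ ℓ ∧ r ∈ ℓ) ∧
    ∀ ℓ ∈ L, Disjoint ℓ (interior (convexHull ℝ {p, q, r}))

/-- no three lines of `L` pass through one point (parallel lines are allowed) -/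
def NoThree (L : Set (Set Plane)) : Prop :=
  ∀ ℓ₁ ∈ L, ∀ ℓ₂ ∈ L, ∀ ℓ₃ ∈ L, ℓ₁ ≠ ℓ₂ → ℓ₁ ≠ ℓ₃ → ℓ₂ ≠ ℓ₃ → ℓ₁ ∩ ℓ₂ ∩ ℓ₃ = ∅

end Pool.Agent.Helper30.KO
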