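import Pool.Agent.Helper30.KO.Rule

/-!
# The empty triangles of the rule
-/

namespace Pool.Agent.Helper30.KO

/-- the line `q` does not separate the vertices of the triangle `a < b < c` -/
def NS (k a b c q : ℕ) : Prop :=
  (q < a → ((Xr k q a b ↔ Xr k q a c) ∧ (Xr k q a c ↔ Xr k q b c))) ∧
  (a < q → q < b → ((Xr k a q b ↔ Xr k a q c) ∧ (Xr k a q c ↔ ¬ Xr k q b c))) ∧
  (b < q → q < c → ((Xr k a b q ↔ ¬ Xr k a q c) ∧ (Xr k a q c ↔ Xr k b q c))) ∧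
  (c < q → ((Xr k a b q ↔ Xr k a c q) ∧ (Xr k a c q ↔ Xr k b c q)))

lemma le_lvl_iff {k v x : ℕ} (hv : v ≤ k) : v ≤ lvl k x ↔ 2 ^ v ∣ x := by
  unfold lvl
  split_ifs with h
  · subst h; simp [hv]
  · exact (padicValNat_dvd_iff_le h).symm

lemma lvl_eq_mod {k v x : ℕ} (hv : v < k) (h : lvl k x = v) : ∃ a, x = 2 ^ (v + 1) * a + 2 ^ v := by
  have h1 : 2 ^ v ∣ x := (le_lvl_iff hv.le).mp h.ge
  have h2 : ¬ 2 ^ (v + 1) ∣ x := fun h3 => by
    have := (le_lvl_iff (k := k) hv).mpr h3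
    omega
  obtain ⟨c, rfl⟩ := h1
  rcases Nat.even_or_odd' c with ⟨a, ha | ha⟩
  · exfalso; apply h2; rw [ha, pow_succ]; exact ⟨a, by ring⟩
  · exact ⟨a, by rw [ha, pow_succ]; ring⟩

lemma lvl_gt_dvd {k v x : ℕ} (hv : v < k) (h : v < lvl k x) : ∃ a, x = 2 ^ (v + 1) * a :=
  (le_lvl_iff (k := k) hv).mp h

lemma gap_same {k v x y : ℕ} (hv : v < k) (hx : lvl k x = v) (hy : lvl k y = v) (h : x < y) :
    x + 2 ^ (v + 1) ≤ y := by
  obtain ⟨a, rfl⟩ := lvl_eq_mod hv hx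
  obtain ⟨b, rfl⟩ := lvl_eq_mod hv hy
  have h1 : 2 ^ (v + 1) * a < 2 ^ (v + 1) * b := by omega
  have h2 : a < b := Nat.lt_of_mul_lt_mul_left h1
  have h3 : 2 ^ (v + 1) * (a + 1) ≤ 2 ^ (v + 1) * b := Nat.mul_le_mul_left _ h2
  rw [mul_add, mul_one] at h3
  omega

lemma gap_high {k v x y : ℕ} (hv : v < k) (hx : v < lvl k x) (hy : v < lvl k y) (h : x < y) :
    x + 2 ^ (v + 1) ≤ y := by
  obtain ⟨a, rfl⟩ := lvl_gt_dvd hv hx
  obtain ⟨b, rfl⟩ := lvl_gt_dvd hv hy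
  have h2 : a < b := Nat.lt_of_mul_lt_mul_left h
  have h3 : 2 ^ (v + 1) * (a + 1) ≤ 2 ^ (v + 1) * b := Nat.mul_le_mul_left _ h2
  rw [mul_add, mul_one] at h3
  exact h3

lemma lvl_add_gt {k v x y : ℕ} (hv : v < k) (hx : lvl k x = v) (hy : lvl k y = v) :
    v < lvl k (x + y) := by
  obtain ⟨a, rfl⟩ := lvl_eq_mod hv hx
  obtain ⟨b, rfl⟩ := lvl_eq_mod hv hy
  apply (le_lvl_iff (k := k) hv).mpr
  refine ⟨a + b + 1, ?_⟩
  rw [pow_succ]; ring

lemma lvl_add_gt' {k v x y : ℕ} (hv : v < k) (hx : v < lvl k x) (hy : v < lvl k y) :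
    v < lvl k (x + y) := by
  obtain ⟨a, ha⟩ := lvl_gt_dvd hv hx
  obtain ⟨b, hb⟩ := lvl_gt_dvd hv hy
  apply (le_lvl_iff (k := k) hv).mpr
  exact ⟨a + b, by rw [ha, hb, mul_add]⟩

lemma lvl_pow_succ {k v : ℕ} (hv : v < k) : v < lvl k (2 ^ (v + 1)) :=
  (le_lvl_iff (k := k) hv).mpr dvd_rfl

/-- two lines of the same level and the older line next to their crossing -/
lemma NS_A {k v r s t : ℕ} (hv : v < k) (h0 : 0 < r) (hr : lvl k r = v) (hs : lvl k s = v)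
    (hrs : r < s) (ht : t = r + s ∨ t = r + s + 2 ^ (v + 1)) (htk : t ≤ 2 ^ k) {q : ℕ}
    (hq : q ≤ 2 ^ k) (hqt : q ≠ t) : NS k r s t q := by
  have hsum : v < lvl k (r + s) := lvl_add_gt hv hr hs
  have hlt : v < lvl k t := by
    rcases ht with rfl | rfl
    · exact hsum
    · exact lvl_add_gt' hv hsum (lvl_pow_succ hv)
  have g1 : lvl k q = v → q < r → q + 2 ^ (v + 1) ≤ r := fun h h' => gap_same hv h hr h'
  have g2 : lvl k q = v → r < q → r + 2 ^ (v + 1) ≤ q := fun h h' => gap_same hv hr h h'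
  have g3 : lvl k q = v → q < s → q + 2 ^ (v + 1) ≤ s := fun h h' => gap_same hv h hs h'
  have g4 : lvl k q = v → s < q → s + 2 ^ (v + 1) ≤ q := fun h h' => gap_same hv hs h h'
  have g5 : v < lvl k q → q < t → q + 2 ^ (v + 1) ≤ t := fun h h' => gap_high hv h hlt h'
  have hMpos : 0 < 2 ^ (v + 1) := by positivity
  unfold NS Xr
  generalize 2 ^ (v + 1) = M at *
  generalize 2 ^ k = N at *
  generalize lvl k q = lq at *
  generalize lvl k t = lt at *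
  generalize lvl k r = lr at *
  generalize lvl k s = ls at *
  refine ⟨?_, ?_, ?_, ?_⟩
  · intro h
    omega
  · intro h h'
    omega
  · intro h h'
    omega
  · intro h
    omega

lemma lvl_of_mod {k v x a : ℕ} (hv : v < k) (h : x = 2 ^ (v + 1) * a + 2 ^ v) : lvl k x = v := by
  have h1 : v ≤ lvl k x := by
    rw [le_lvl_iff hv.le, h, pow_succ]
    exact ⟨2 * a + 1, by ring⟩
  have h2 : ¬ v + 1 ≤ lvl k x := by
    rw [le_lvl_iff (by omega), h]
    rintro ⟨c, hc⟩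
    have h3 : 2 ^ (v + 1) = 2 * 2 ^ v := by rw [pow_succ]; ring
    rw [h3] at hc
    have h4 : 2 ^ v * (2 * a + 1) = 2 ^ v * (2 * c) := by linarith
    have h5 := Nat.eq_of_mul_eq_mul_left (by positivity) h4
    omega
  omega

lemma lvl_two_mul {k v r : ℕ} (hv : v + 1 < k) (hr : lvl k r = v) : lvl k (2 * r) = v + 1 := by
  obtain ⟨a, ha⟩ := lvl_eq_mod (by omega) hr
  apply lvl_of_mod (a := a) hv
  rw [ha, pow_succ (n := v + 1), pow_succ]; ring

lemma lvl_two_mul_add {k v r : ℕ} (hv : v + 1 < k) (hr : lvl k r = v) :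
    v + 1 < lvl k (2 * r + 2 ^ (v + 1)) := by
  obtain ⟨a, ha⟩ := lvl_eq_mod (by omega) hr
  apply (le_lvl_iff (k := k) hv).mpr
  refine ⟨a + 1, ?_⟩
  rw [ha, pow_succ (n := v + 1), pow_succ]; ring

lemma ge_of_lvl {k v q : ℕ} (hv : v < k) (h : lvl k q = v) : 2 ^ v ≤ q := by
  obtain ⟨a, rfl⟩ := lvl_eq_mod hv h
  omega

/-- a line and the two lines of the wedge which it closes -/
lemma NS_B {k v r : ℕ} (hv : v + 1 < k) (h0 : 0 < r) (hr : lvl k r = v)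
    (htk : 2 * r + 2 ^ (v + 1) ≤ 2 ^ k) {q : ℕ}
    (hq : q ≤ 2 ^ k) (hq1 : q ≠ r) (hq2 : q ≠ 2 * r) (hq3 : q ≠ 2 * r + 2 ^ (v + 1)) :
    NS k r (2 * r) (2 * r + 2 ^ (v + 1)) q := by
  have l2 := lvl_two_mul hv hr
  have l3 := lvl_two_mul_add hv hr
  have g1 : lvl k q = v → q < r → q + 2 ^ (v + 1) ≤ r := fun h h' => gap_same (by omega) h hr h'
  have g2 : lvl k q = v → r < q → r + 2 ^ (v + 1) ≤ q := fun h h' => gap_same (by omega) hr h h'
  have g3 : v < lvl k q → 2 * r < q → 2 * r + 2 ^ (v + 1) ≤ q :=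
    fun h h' => gap_high (by omega) (by omega) h h'
  have g4 : lvl k q = v + 1 → 2 ^ (v + 1) ≤ q := fun h => ge_of_lvl (by omega) h
  have hMpos : 0 < 2 ^ (v + 1) := by positivity
  unfold NS Xr
  generalize lvl k (2 * r + 2 ^ (v + 1)) = l3' at *
  generalize lvl k (2 * r) = l2' at *
  generalize 2 ^ (v + 1) = M at *
  generalize 2 ^ k = N at *
  generalize lvl k q = lq at *
  generalize lvl k r = lr at *
  refine ⟨?_, ?_, ?_, ?_⟩
  · intro h
    omega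
  · intro h h'
    omega
  · intro h h'
    omega
  · intro h
    omega

/-- the oldest triangle -/
lemma NS_B0 {k r : ℕ} (hk : 0 < k) (hr : 2 * r = 2 ^ k) {q : ℕ}
    (hq : q ≤ 2 ^ k) (hq1 : q ≠ r) (hq2 : q ≠ 0) (hq3 : q ≠ 2 ^ k) :
    NS k 0 r (2 ^ k) q := by
  obtain ⟨k, rfl⟩ : ∃ k', k = k' + 1 := ⟨k - 1, by omega⟩
  have hr' : r = 2 ^ k := by rw [pow_succ] at hr; omega
  have l1 : lvl (k + 1) r = k := lvl_of_mod (a := 0) (by omega) (by rw [hr']; ring)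
  have l2 : lvl (k + 1) q < k := by
    have h1 : lvl (k + 1) q < k + 1 := lvl_lt (by omega) (by omega)
    by_contra h2
    obtain ⟨a, ha⟩ := lvl_eq_mod (by omega) (by omega : lvl (k + 1) q = k)
    rcases Nat.eq_zero_or_pos a with h3 | h3
    · rw [h3] at ha; apply hq1; rw [hr', ha]; ring
    · have : 2 ^ (k + 1) ≤ 2 ^ (k + 1) * a := Nat.le_mul_of_pos_right _ h3
      have : 0 < 2 ^ k := by positivity
      omega
  have l3 := lvl_zero (k + 1)
  have l4 := lvl_pow (k + 1)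
  unfold NS Xr
  rw [l1, l3, l4]
  generalize 2 ^ (k + 1) = N at *
  generalize lvl (k + 1) q = lq at *
  refine ⟨?_, ?_, ?_, ?_⟩
  · intro h
    omega
  · intro h h'
    omega
  · intro h h'
    omega
  · intro h
    omega

/-- the triangles of the additional line `1` -/
lemma NS_C {k j : ℕ} (hk : 1 < k) (htk : 4 * j + 4 ≤ 2 ^ k) {q : ℕ}
    (hq : q ≤ 2 ^ k) (hqe : Even q) (hq2 : q ≠ 4 * j + 2) (hq3 : q ≠ 4 * j + 4) :
    NS k 1 (4 * j + 2) (4 * j + 4) q := by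
  have l1 : lvl k 1 = 0 := lvl_of_mod (a := 0) (by omega) (by norm_num)
  have l2 : lvl k (4 * j + 2) = 1 := lvl_of_mod (a := j) (by omega) (by norm_num)
  have l3 : 1 < lvl k (4 * j + 4) :=
    (le_lvl_iff (k := k) (by omega : 1 + 1 ≤ k)).mpr ⟨j + 1, by norm_num; ring⟩
  have l4 : 0 < lvl k q := (le_lvl_iff (k := k) (by omega : 0 + 1 ≤ k)).mpr (by
    obtain ⟨a, ha⟩ := hqe
    exact ⟨a, by rw [ha]; norm_num; ring⟩)
  have l5 : lvl k q = 1 → 2 ≤ q := fun h => by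
    have := ge_of_lvl (by omega : 1 < k) h
    simpa using this
  obtain ⟨b, hb⟩ := hqe
  unfold NS Xr
  rw [l1, l2]
  generalize lvl k (4 * j + 4) = l3' at *
  generalize 2 ^ k = N at *
  generalize lvl k q = lq at *
  refine ⟨?_, ?_, ?_, ?_⟩
  · intro h
    omega
  · intro h h'
    omega
  · intro h h'
    omega
  · intro h
    omega

end Pool.Agent.Helper30.KO
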