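import Pool.Agent.Helper30.KO.Core
import Pool.Agent.Helper30.KO.Defs

/-!
# From lines in the plane to crossing data
-/

namespace Pool.Agent.Helper30.KO

open Finset

/-- the determinant of a triple of points -/
def D (p q r : Plane) : ℝ := (q 0 - p 0) * (r 1 - p 1) - (q 1 - p 1) * (r 0 - p 0)

lemma plane_ext {p q : Plane} (h0 : p 0 = q 0) (h1 : p 1 = q 1) : p = q := by
  ext i; fin_cases i
  · exact h0
  · exact h1

lemma D_ne_zero {p q r : Plane} (h : AffineIndependent ℝ ![p, q, r]) : D p q r ≠ 0 := by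
  intro hD
  rw [affineIndependent_iff_linearIndependent_vsub ℝ _ (0 : Fin 3)] at h
  -- reindex
  have h2 : LinearIndependent ℝ ![q - p, r - p] := by
    let g : Fin 2 → {x : Fin 3 // x ≠ 0} := ![⟨1, by decide⟩, ⟨2, by decide⟩]
    have hg : Function.Injective g := by
      intro x y hxy
      fin_cases x <;> fin_cases y <;> simp_all [g]
    have h3 := h.comp g hg
    have h4 : ((fun i : {x : Fin 3 // x ≠ 0} => ![p, q, r] ↑i -ᵥ ![p, q, r] 0) ∘ g) =
        ![q - p, r - p] := by
      ext i j
      fin_cases i <;> simp [g]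
    rw [h4] at h3
    exact h3
  rw [LinearIndependent.pair_iff] at h2
  unfold D at hD
  have k1 := h2 (r 0 - p 0) (-(q 0 - p 0)) (by
    apply plane_ext
    · simp; ring
    · simp; linarith)
  have k2 := h2 (r 1 - p 1) (-(q 1 - p 1)) (by
    apply plane_ext
    · simp; linarith
    · simp; ring)
  have k3 : q - p = 0 := by
    apply plane_ext
    · simp; linarith [k1.2]
    · simp; linarith [k2.2]
  have k4 := h2 1 0 (by rw [k3]; simp)
  exact one_ne_zero k4.1

/-- points with positive barycentric coordinates are interior points -/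
lemma mem_interior {p q r : Plane} (hD : D p q r ≠ 0) {α β γ : ℝ} (hα : 0 < α) (hβ : 0 < β)
    (hγ : 0 < γ) (hs : α + β + γ = 1) :
    α • p + β • q + γ • r ∈ interior (convexHull ℝ {p, q, r}) := by
  let fβ : Plane → ℝ := fun z => D p z r / D p q r
  let fγ : Plane → ℝ := fun z => D p q z / D p q r
  let O : Set Plane := {z | 0 < fβ z ∧ 0 < fγ z ∧ 0 < 1 - fβ z - fγ z}
  have c1 : Continuous fβ := by
    simp only [fβ, D]; fun_prop
  have c2 : Continuous fγ := by
    simp only [fγ, D]; fun_prop
  have hO : IsOpen O := by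
    have o1 : IsOpen {z | 0 < fβ z} := isOpen_lt continuous_const c1
    have o2 : IsOpen {z | 0 < fγ z} := isOpen_lt continuous_const c2
    have o3 : IsOpen {z | 0 < 1 - fβ z - fγ z} :=
      isOpen_lt continuous_const ((continuous_const.sub c1).sub c2)
    exact (o1.inter (o2.inter o3))
  have hsub : O ⊆ convexHull ℝ {p, q, r} := by
    intro z hz
    obtain ⟨h1, h2, h3⟩ := hz
    have hz' : z = (1 - fβ z - fγ z) • p + fβ z • q + fγ z • r := by
      have e1 : ∀ i, z i = ((1 - fβ z - fγ z) • p + fβ z • q + fγ z • r) i := by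
        intro i
        simp only [PiLp.add_apply, PiLp.smul_apply, smul_eq_mul, fβ, fγ]
        have e2 : D p q r * z i = (D p q r - D p z r - D p q z) * p i + D p z r * q i +
            D p q z * r i := by
          fin_cases i <;> simp [D] <;> ring
        field_simp
        linarith
      exact plane_ext (e1 0) (e1 1)
    rw [hz']
    have hconv := convex_convexHull ℝ ({p, q, r} : Set Plane)
    have hp : p ∈ convexHull ℝ ({p, q, r} : Set Plane) := subset_convexHull ℝ _ (by simp)
    have hq : q ∈ convexHull ℝ ({p, q, r} : Set Plane) := subset_convexHull ℝ _ (by simp)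
    have hr : r ∈ convexHull ℝ ({p, q, r} : Set Plane) := subset_convexHull ℝ _ (by simp)
    have h4 := hconv.sum_mem (t := (univ : Finset (Fin 3)))
      (w := ![1 - fβ z - fγ z, fβ z, fγ z]) (z := ![p, q, r])
      (by intro i _; fin_cases i <;> simp <;> linarith)
      (by simp only [Fin.sum_univ_three, Matrix.cons_val_zero, Matrix.cons_val_one,
            Matrix.cons_val]; ring)
      (by intro i _; fin_cases i <;> simp <;> assumption)
    simpa [Fin.sum_univ_three] using h4
  refine interior_maximal hsub hO ?_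
  have hα' : α = 1 - β - γ := by linarith
  have e1 : D p (α • p + β • q + γ • r) r = β * D p q r := by
    simp only [D, PiLp.add_apply, PiLp.smul_apply, smul_eq_mul, hα']; ring
  have e2 : D p q (α • p + β • q + γ • r) = γ * D p q r := by
    simp only [D, PiLp.add_apply, PiLp.smul_apply, smul_eq_mul, hα']; ring
  have e3 : fβ (α • p + β • q + γ • r) = β := by
    simp only [fβ, e1]; field_simp
  have e4 : fγ (α • p + β • q + γ • r) = γ := by
    simp only [fγ, e2]; field_simp
  refine ⟨?_, ?_, ?_⟩
  · rw [e3]; exact hβ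
  · rw [e4]; exact hγ
  · rw [e3, e4]; linarith

/-- an affine function with values of opposite signs at two vertices vanishes somewhere
in the interior -/
lemma exists_zero {p q r : Plane} (hD : D p q r ≠ 0) (φ : Plane → ℝ)
    (hφ : ∀ α β γ : ℝ, α + β + γ = 1 → φ (α • p + β • q + γ • r) =
      α * φ p + β * φ q + γ * φ r) (h : φ p * φ q < 0) :
    ∃ z ∈ interior (convexHull ℝ {p, q, r}), φ z = 0 := by
  -- positive weights with `x φ p + y φ q + φ r = 0`
  obtain ⟨x, y, hx, hy, hxy⟩ : ∃ x y : ℝ, 0 < x ∧ 0 < y ∧ x * φ p + y * φ q + φ r = 0 := by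
    have hp : φ p ≠ 0 := by rintro h0; rw [h0] at h; simp at h
    have hq : φ q ≠ 0 := by rintro h0; rw [h0] at h; simp at h
    have hK : 0 < |φ r| + 1 := by positivity
    rcases lt_or_gt_of_ne hp with hp' | hp'
    · have hq' : 0 < φ q := by nlinarith
      refine ⟨(|φ r| + 1) / (-φ p), (|φ r| + 1 - φ r) / φ q, ?_, ?_, ?_⟩
      · exact div_pos hK (by linarith)
      · exact div_pos (by linarith [le_abs_self (φ r)]) hq'
      · field_simp; ring
    · have hq' : φ q < 0 := by nlinarith
      refine ⟨(|φ r| + 1 - φ r) / φ p, (|φ r| + 1) / (-φ q), ?_, ?_, ?_⟩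
      · exact div_pos (by linarith [le_abs_self (φ r)]) hp'
      · exact div_pos hK (by linarith)
      · field_simp; ring
  have hs : 0 < x + y + 1 := by linarith
  have hsum : x / (x + y + 1) + y / (x + y + 1) + 1 / (x + y + 1) = 1 := by
    field_simp
  refine ⟨(x / (x + y + 1)) • p + (y / (x + y + 1)) • q + (1 / (x + y + 1)) • r,
    mem_interior hD (by positivity) (by positivity) (by positivity) hsum, ?_⟩
  rw [hφ _ _ _ hsum]
  have : x / (x + y + 1) * φ p + y / (x + y + 1) * φ q + 1 / (x + y + 1) * φ r =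
      (x * φ p + y * φ q + φ r) / (x + y + 1) := by field_simp
  rw [this, hxy, zero_div]

/-- `n` lines given by slopes and intercepts in a sheared coordinate system, numbered by
slope and, in a class of parallels, from top to bottom -/
structure Sys (n : ℕ) where
  t : ℝ
  m : Fin n → ℝ
  k : Fin n → ℝ
  ord : ∀ i j, i < j → m i < m j ∨ (m i = m j ∧ k j < k i)

/-- the abscissa -/
def Sys.u {n : ℕ} (s : Sys n) (p : Plane) : ℝ := p 0 + s.t * p 1

/-- the `i`-th line -/
def Sys.line {n : ℕ} (s : Sys n) (i : Fin n) : Set Plane := {p | p 1 = s.m i * s.u p + s.k i}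

lemma Sys.inj {n : ℕ} (s : Sys n) {i j : Fin n} (h1 : s.m i = s.m j) (h2 : s.k i = s.k j) :
    i = j := by
  by_contra h
  rcases lt_or_gt_of_ne h with h | h
  · rcases s.ord i j h with h3 | h3
    · linarith
    · linarith [h3.2]
  · rcases s.ord j i h with h3 | h3
    · linarith
    · linarith [h3.2]

/-- the finite crossings -/
noncomputable def Sys.x {n : ℕ} (s : Sys n) (i j : Fin n) : ℝ :=
  (s.k i - s.k j) / (s.m j - s.m i)

lemma Sys.x_symm {n : ℕ} (s : Sys n) (i j : Fin n) : s.x i j = s.x j i := by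
  unfold Sys.x
  rw [← neg_sub (s.k j), ← neg_sub (s.m i), neg_div_neg_eq]

lemma exists_bound {n : ℕ} (s : Sys n) : ∃ M : ℝ, ∀ i j, s.x i j < M := by
  have h : (Set.range (fun p : Fin n × Fin n => s.x p.1 p.2)).Finite := Set.finite_range _
  obtain ⟨M, hM⟩ := h.bddAbove
  refine ⟨M + 1, fun i j => ?_⟩
  have := hM ⟨(i, j), rfl⟩
  simp only at this
  linarith

lemma mediant {A B a b : ℝ} (hA : 0 < A) (hB : 0 < B) :
    (a / A < (a + b) / (A + B) ∧ (a + b) / (A + B) < b / B) ∨
    (b / B < (a + b) / (A + B) ∧ (a + b) / (A + B) < a / A) ∨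
    (a / A = (a + b) / (A + B) ∧ (a + b) / (A + B) = b / B) := by
  have hAB : 0 < A + B := by linarith
  rcases lt_trichotomy (a * B) (b * A) with h | h | h
  · left
    constructor
    · rw [div_lt_div_iff₀ hA hAB]; linarith
    · rw [div_lt_div_iff₀ hAB hB]; linarith
  · right; right
    constructor
    · rw [div_eq_div_iff hA.ne' hAB.ne']; linarith
    · rw [div_eq_div_iff hAB.ne' hB.ne']; linarith
  · right; left
    constructor
    · rw [div_lt_div_iff₀ hB hAB]; linarith
    · rw [div_lt_div_iff₀ hAB hA]; linarith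

open Classical in
/-- crossing data of a system of lines; parallels are made to cross far to the right -/
noncomputable def Sys.arr {n : ℕ} (s : Sys n) (M : ℝ) (hM : ∀ i j, s.x i j < M) : Arr n where
  X i j := if s.m i = s.m j then M else s.x i j
  sym i j := by
    by_cases h : s.m i = s.m j
    · rw [if_pos h, if_pos h.symm]
    · rw [if_neg h, if_neg (Ne.symm h), s.x_symm]
  bt i j k hij hjk := by
    have e1 : s.x i k = ((s.k i - s.k j) + (s.k j - s.k k)) /
        ((s.m j - s.m i) + (s.m k - s.m j)) := by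
      unfold Sys.x; congr 1 <;> ring
    rcases s.ord i j hij with h1 | ⟨h1, h1'⟩
    · rcases s.ord j k hjk with h2 | ⟨h2, h2'⟩
      · rw [if_neg h1.ne, if_neg h2.ne, if_neg (h1.trans h2).ne, e1]
        exact mediant (by linarith) (by linarith)
      · have h3 : s.m i < s.m k := by linarith
        rw [if_neg h1.ne, if_neg h3.ne, if_pos h2]
        left
        refine ⟨?_, hM i k⟩
        unfold Sys.x
        rw [h2]
        have : 0 < s.m k - s.m i := by linarith
        rw [div_lt_div_iff_of_pos_right this]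
        linarith
    · rcases s.ord j k hjk with h2 | ⟨h2, h2'⟩
      · have h3 : s.m i < s.m k := by linarith
        rw [if_pos h1, if_neg h3.ne, if_neg h2.ne]
        right; left
        refine ⟨?_, hM i k⟩
        unfold Sys.x
        rw [h1]
        have : 0 < s.m k - s.m j := by linarith
        rw [div_lt_div_iff_of_pos_right this]
        linarith
      · rw [if_pos h1, if_pos (h1.trans h2), if_pos h2]
        right; right
        exact ⟨rfl, rfl⟩

/-- the crossing point -/
noncomputable def Sys.cr {n : ℕ} (s : Sys n) (i j : Fin n) : Plane :=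
  !₂[s.x i j - s.t * (s.m i * s.x i j + s.k i), s.m i * s.x i j + s.k i]

lemma Sys.cr_u {n : ℕ} (s : Sys n) (i j : Fin n) : s.u (s.cr i j) = s.x i j := by
  simp [Sys.u, Sys.cr]

lemma Sys.cr_1 {n : ℕ} (s : Sys n) (i j : Fin n) :
    (s.cr i j) 1 = s.m i * s.x i j + s.k i := by
  simp [Sys.cr]

lemma Sys.ext_on {n : ℕ} (s : Sys n) {i : Fin n} {p q : Plane} (hp : p ∈ s.line i)
    (hq : q ∈ s.line i) (h : s.u p = s.u q) : p = q := by
  have h1 : p 1 = q 1 := by
    change p 1 = _ at hp
    change q 1 = _ at hq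
    rw [hp, hq, h]
  refine plane_ext ?_ h1
  unfold Sys.u at h
  rw [h1] at h; linarith

lemma Sys.cr_mem {n : ℕ} (s : Sys n) (i j : Fin n) : s.cr i j ∈ s.line i := by
  change (s.cr i j) 1 = _
  rw [Sys.cr_1, Sys.cr_u]

/-- a common point of two lines with different numbers -/
lemma Sys.common {n : ℕ} (s : Sys n) {i j : Fin n} (hij : i ≠ j) {p : Plane}
    (hi : p ∈ s.line i) (hj : p ∈ s.line j) : s.m i ≠ s.m j ∧ s.u p = s.x i j := by
  change p 1 = _ at hi
  change p 1 = _ at hj
  have h1 : s.m i ≠ s.m j := by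
    intro h
    apply hij
    apply s.inj h
    rw [h] at hi; linarith
  refine ⟨h1, ?_⟩
  unfold Sys.x
  have : s.m j - s.m i ≠ 0 := sub_ne_zero.mpr (Ne.symm h1)
  field_simp
  linarith

lemma Sys.common_eq {n : ℕ} (s : Sys n) {i j : Fin n} (hij : i ≠ j) {p : Plane}
    (hi : p ∈ s.line i) (hj : p ∈ s.line j) : p = s.cr i j := by
  apply s.ext_on hi (s.cr_mem i j)
  rw [s.cr_u]; exact (s.common hij hi hj).2

/-- the equation of a line as an affine function -/
def Sys.φ {n : ℕ} (s : Sys n) (i : Fin n) (p : Plane) : ℝ := p 1 - s.m i * s.u p - s.k i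

lemma Sys.φ_aff {n : ℕ} (s : Sys n) (i : Fin n) (p q r : Plane) (α β γ : ℝ)
    (h : α + β + γ = 1) :
    s.φ i (α • p + β • q + γ • r) = α * s.φ i p + β * s.φ i q + γ * s.φ i r := by
  have hα : α = 1 - β - γ := by linarith
  simp only [Sys.φ, Sys.u, PiLp.add_apply, PiLp.smul_apply, smul_eq_mul, hα]
  ring

lemma Sys.φ_zero {n : ℕ} (s : Sys n) (i : Fin n) (p : Plane) : s.φ i p = 0 ↔ p ∈ s.line i := by
  change _ ↔ p 1 = _
  unfold Sys.φ
  constructor <;> intro h <;> linarith

lemma Sys.φ_on {n : ℕ} (s : Sys n) {i l : Fin n} {p : Plane} (hp : p ∈ s.line i)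
    (hne : s.m i ≠ s.m l) : s.φ l p = (s.m i - s.m l) * (s.u p - s.x i l) := by
  change p 1 = _ at hp
  unfold Sys.φ Sys.x
  rw [hp]
  have : s.m l - s.m i ≠ 0 := sub_ne_zero.mpr (Ne.symm hne)
  field_simp
  ring

/-- three points on one line are not affinely independent -/
lemma D_line {n : ℕ} (s : Sys n) {i : Fin n} {p q r : Plane} (hp : p ∈ s.line i)
    (hq : q ∈ s.line i) (hr : r ∈ s.line i) : D p q r = 0 := by
  change p 1 = _ at hp
  change q 1 = _ at hq
  change r 1 = _ at hr
  have h1 : q 1 - p 1 = s.m i * (s.u q - s.u p) := by linarith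
  have h2 : r 1 - p 1 = s.m i * (s.u r - s.u p) := by linarith
  have h3 : q 0 - p 0 = (s.u q - s.u p) - s.t * (q 1 - p 1) := by unfold Sys.u; ring
  have h4 : r 0 - p 0 = (s.u r - s.u p) - s.t * (r 1 - p 1) := by unfold Sys.u; ring
  unfold D
  rw [h3, h4, h1, h2]; ring

end Pool.Agent.Helper30.KO
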