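import Pool.Agent.Helper30.KO.Rule

/-!
# Realization of the rule by straight lines
-/

namespace Pool.Agent.Helper30.KO

open Finset Filter Topology

/-- the bracket -/
def Qb (b x y z : ℝ) : ℝ := b - x * y + z * (x + y)

lemma exists_b (k : ℕ) : ∃ b : ℝ, 1 < b ∧ ∀ i j l : ℕ, i < 2 ^ k → j < 2 ^ k → l < 2 ^ k →
    Qb 1 (cc k i) (cc k j) (cc k l) < 0 → Qb b (cc k i) (cc k j) (cc k l) < 0 := by
  have h : ∀ᶠ ε in 𝓝[>] (0 : ℝ), ∀ x : Fin (2 ^ k) × Fin (2 ^ k) × Fin (2 ^ k),
      Qb 1 (cc k x.1) (cc k x.2.1) (cc k x.2.2) < 0 →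
      Qb 1 (cc k x.1) (cc k x.2.1) (cc k x.2.2) + ε < 0 := by
    rw [eventually_all]
    intro x
    by_cases hx : Qb 1 (cc k x.1) (cc k x.2.1) (cc k x.2.2) < 0
    · have h1 : ∀ᶠ ε in 𝓝 (0 : ℝ), ε < - Qb 1 (cc k x.1) (cc k x.2.1) (cc k x.2.2) :=
        eventually_lt_nhds (by linarith)
      filter_upwards [h1.filter_mono nhdsWithin_le_nhds] with ε hε _
      linarith
    · filter_upwards with ε h2
      exact absurd h2 hx
  obtain ⟨ε, h1, h2⟩ := (h.and self_mem_nhdsWithin).exists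
  have h2' : 0 < ε := h2
  refine ⟨1 + ε, by linarith, ?_⟩
  intro i j l hi hj hl hQ
  have := h1 (⟨i, hi⟩, ⟨j, hj⟩, ⟨l, hl⟩) hQ
  simp only at this
  unfold Qb at this ⊢
  linarith

lemma exists_C (k : ℕ) (b : ℝ) : ∃ C : ℝ, 0 < C ∧ (∀ i : ℕ, i < 2 ^ k → |cc k i| < C) ∧
    ∀ i j : ℕ, i < 2 ^ k → j < 2 ^ k →
      (0 < cc k i + cc k j → Qb b (cc k i) (cc k j) (-C) < 0 ∧ 0 < Qb b (cc k i) (cc k j) C) ∧
      (cc k i + cc k j < 0 → 0 < Qb b (cc k i) (cc k j) (-C) ∧ Qb b (cc k i) (cc k j) C < 0) := by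
  have h1 : ∀ᶠ C in (atTop : Filter ℝ), ∀ i : Fin (2 ^ k), |cc k i| < C := by
    rw [eventually_all]
    intro i
    exact eventually_gt_atTop _
  have h2 : ∀ᶠ C in (atTop : Filter ℝ), ∀ x : Fin (2 ^ k) × Fin (2 ^ k),
      (0 < cc k x.1 + cc k x.2 → Qb b (cc k x.1) (cc k x.2) (-C) < 0 ∧
        0 < Qb b (cc k x.1) (cc k x.2) C) ∧
      (cc k x.1 + cc k x.2 < 0 → 0 < Qb b (cc k x.1) (cc k x.2) (-C) ∧
        Qb b (cc k x.1) (cc k x.2) C < 0) := by
    rw [eventually_all]
    intro x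
    filter_upwards [eventually_gt_atTop (|b - cc k x.1 * cc k x.2| / |cc k x.1 + cc k x.2|)]
      with C hC
    have e1 := le_abs_self (b - cc k x.1 * cc k x.2)
    have e2 := neg_abs_le (b - cc k x.1 * cc k x.2)
    constructor
    · intro h
      rw [div_lt_iff₀ (abs_pos.mpr h.ne'), abs_of_pos h] at hC
      unfold Qb
      constructor <;> linarith
    · intro h
      rw [div_lt_iff₀ (abs_pos.mpr h.ne), abs_of_neg h] at hC
      unfold Qb
      constructor <;> linarith
  obtain ⟨C, ⟨h3, h4⟩, h5⟩ := ((h1.and h2).and (eventually_gt_atTop (0 : ℝ))).exists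
  exact ⟨C, h5, fun i hi => h3 ⟨i, hi⟩, fun i j hi hj => h4 (⟨i, hi⟩, ⟨j, hj⟩)⟩

/-- negative slopes -/
noncomputable def cs (k : ℕ) (C : ℝ) (i : ℕ) : ℝ :=
  if i = 0 then C else if i = 2 ^ k then -C else cc k i

/-- scaled intercepts -/
noncomputable def kap (k : ℕ) (b : ℝ) (i : ℕ) : ℝ :=
  if i = 0 ∨ i = 2 ^ k then 0 else cc k i ^ 2 + b

lemma cs_mid {k : ℕ} {C : ℝ} {i : ℕ} (h0 : 0 < i) (h1 : i < 2 ^ k) : cs k C i = cc k i := by
  simp [cs, h0.ne', h1.ne]

lemma kap_mid {k : ℕ} {b : ℝ} {i : ℕ} (h0 : 0 < i) (h1 : i < 2 ^ k) :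
    kap k b i = cc k i ^ 2 + b := by
  simp [kap, h0.ne', h1.ne]

lemma kap_nonneg {k : ℕ} {b : ℝ} (hb : 1 < b) (i : ℕ) : 0 ≤ kap k b i := by
  unfold kap
  split_ifs
  · exact le_rfl
  · positivity

lemma kap_pos {k : ℕ} {b : ℝ} (hb : 1 < b) {i : ℕ} (h0 : 0 < i) (h1 : i < 2 ^ k) :
    0 < kap k b i := by
  rw [kap_mid h0 h1]; positivity

lemma cs_anti {k : ℕ} {C : ℝ} (hC0 : 0 < C) (hC : ∀ i : ℕ, i < 2 ^ k → |cc k i| < C)
    {i j : ℕ} (hij : i < j) (hj : j ≤ 2 ^ k) : cs k C j < cs k C i := by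
  rcases Nat.eq_zero_or_pos i with h0 | h0
  · subst h0
    have e1 : cs k C 0 = C := by simp [cs]
    rw [e1]
    rcases Nat.lt_or_ge j (2 ^ k) with h1 | h1
    · rw [cs_mid hij h1]
      exact (abs_lt.mp (hC j h1)).2
    · have h2 : j = 2 ^ k := le_antisymm hj h1
      have e2 : cs k C j = -C := by
        rw [h2]; simp [cs]
      rw [e2]; linarith
  · have hi : i < 2 ^ k := lt_of_lt_of_le hij hj
    rw [cs_mid h0 hi]
    rcases Nat.lt_or_ge j (2 ^ k) with h1 | h1
    · rw [cs_mid (h0.trans hij) h1]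
      exact cc_anti h0 hij h1
    · have h2 : j = 2 ^ k := le_antisymm hj h1
      have e2 : cs k C j = -C := by
        rw [h2]; simp [cs]
      rw [e2]
      exact (abs_lt.mp (hC i hi)).1

/-- sign of the leading coefficient for three lines -/
lemma leading {k : ℕ} {b C : ℝ} (hb : 1 < b)
    (hbQ : ∀ i j l : ℕ, i < 2 ^ k → j < 2 ^ k → l < 2 ^ k →
      Qb 1 (cc k i) (cc k j) (cc k l) < 0 → Qb b (cc k i) (cc k j) (cc k l) < 0)
    (hC0 : 0 < C) (hC : ∀ i : ℕ, i < 2 ^ k → |cc k i| < C)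
    (hCQ : ∀ i j : ℕ, i < 2 ^ k → j < 2 ^ k →
      (0 < cc k i + cc k j → Qb b (cc k i) (cc k j) (-C) < 0 ∧ 0 < Qb b (cc k i) (cc k j) C) ∧
      (cc k i + cc k j < 0 → 0 < Qb b (cc k i) (cc k j) (-C) ∧ Qb b (cc k i) (cc k j) C < 0))
    {i j l : ℕ} (hij : i < j) (hjl : j < l) (hl : l ≤ 2 ^ k) :
    ∃ w, w ≤ lvl k i ∧ w ≤ lvl k j ∧ w ≤ lvl k l ∧
      (Xr k i j l → 0 < (if lvl k j = w then kap k b j * (cs k C i - cs k C l) else 0) +
        (if lvl k i = w then -(kap k b i * (cs k C j - cs k C l)) else 0) +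
        (if lvl k l = w then -(kap k b l * (cs k C i - cs k C j)) else 0)) ∧
      (¬ Xr k i j l → 0 < (if lvl k j = w then -(kap k b j * (cs k C i - cs k C l)) else 0) +
        (if lvl k i = w then kap k b i * (cs k C j - cs k C l) else 0) +
        (if lvl k l = w then kap k b l * (cs k C i - cs k C j) else 0)) := by
  have hj0 : 0 < j := by omega
  have hjN : j < 2 ^ k := by omega
  have hAi : 0 < cs k C j - cs k C l := sub_pos.mpr (cs_anti hC0 hC hjl hl)
  have hAj : 0 < cs k C i - cs k C l := sub_pos.mpr (cs_anti hC0 hC (hij.trans hjl) hl)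
  have hAl : 0 < cs k C i - cs k C j := sub_pos.mpr (cs_anti hC0 hC hij hjN.le)
  have hkj := kap_pos (k := k) hb hj0 hjN
  have hlj : lvl k j < k := lvl_lt hj0 hjN
  have hli : lvl k i ≤ k := lvl_le (by omega)
  have hll : lvl k l ≤ k := lvl_le hl
  -- positions of `i` and `l` when their level is small
  have hi0 : lvl k i < k → 0 < i := by
    intro h
    rcases Nat.eq_zero_or_pos i with h0 | h0
    · rw [h0, lvl_zero] at h; exact absurd h (lt_irrefl _)
    · exact h0
  have hlN : lvl k l < k → l < 2 ^ k := by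
    intro h
    rcases Nat.lt_or_ge l (2 ^ k) with h0 | h0
    · exact h0
    · have : l = 2 ^ k := le_antisymm hl h0
      rw [this, lvl_pow] at h; exact absurd h (lt_irrefl _)
  have hiN : i < 2 ^ k := by omega
  have hl0 : 0 < l := by omega
  -- the bracket identities
  have id1 : 0 < i → kap k b j * (cs k C i - cs k C l) + -(kap k b i * (cs k C j - cs k C l)) =
      (cc k i - cc k j) * Qb b (cc k i) (cc k j) (cs k C l) := by
    intro h0
    rw [kap_mid hj0 hjN, kap_mid h0 hiN, cs_mid h0 hiN, cs_mid hj0 hjN]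
    unfold Qb; ring
  have id2 : l < 2 ^ k → kap k b j * (cs k C i - cs k C l) +
      -(kap k b l * (cs k C i - cs k C j)) =
      (cc k j - cc k l) * Qb b (cc k j) (cc k l) (cs k C i) := by
    intro h0
    rw [kap_mid hj0 hjN, kap_mid hl0 h0, cs_mid hl0 h0, cs_mid hj0 hjN]
    unfold Qb; ring
  have dij : 0 < i → 0 < cc k i - cc k j := fun h0 => sub_pos.mpr (cc_anti h0 hij hjN)
  have djl : l < 2 ^ k → 0 < cc k j - cc k l := fun h0 => sub_pos.mpr (cc_anti hj0 hjl h0)
  -- sign of the first bracket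
  have br1p : 0 < i → l ≤ i + j → 0 < Qb b (cc k i) (cc k j) (cs k C l) := by
    intro h0 hle
    rcases Nat.lt_or_ge l (2 ^ k) with h1 | h1
    · rw [cs_mid hl0 h1]
      have h2 : 0 ≤ 1 - cc k i * cc k j + cc k l * (cc k i + cc k j) := by
        rcases Nat.lt_or_ge l (i + j) with h3 | h3
        · exact (Q_pos h0 hiN hj0 hjN hl0 h1 h3 (by omega)).le
        · exact (Q_zero h0 hiN hj0 hjN hl0 h1 (Or.inl (le_antisymm hle h3))).ge
      unfold Qb; linarith
    · have h2 : l = 2 ^ k := le_antisymm hl h1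
      have e2 : cs k C l = -C := by rw [h2]; simp [cs]
      rw [e2]
      rcases Nat.lt_or_ge (2 ^ k) (i + j) with h3 | h3
      · exact ((hCQ i j hiN hjN).2 (cc_add_neg h0 hiN hj0 hjN h3)).1
      · have h4 := cc_add_zero h0 hiN hj0 hjN (by omega : i + j = 2 ^ k)
        unfold Qb
        rw [h4]
        have h5 : cc k i = - cc k j := by linarith
        rw [h5]
        nlinarith [sq_nonneg (cc k j)]
  have br1n : 0 < i → i + j < l → Qb b (cc k i) (cc k j) (cs k C l) < 0 := by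
    intro h0 hlt
    rcases Nat.lt_or_ge l (2 ^ k) with h1 | h1
    · rw [cs_mid hl0 h1]
      apply hbQ i j l hiN hjN h1
      exact Q_neg h0 hiN hj0 hjN hl0 h1 (Or.inl hlt)
    · have h2 : l = 2 ^ k := le_antisymm hl h1
      have e2 : cs k C l = -C := by rw [h2]; simp [cs]
      rw [e2]
      exact ((hCQ i j hiN hjN).1 (cc_add_pos h0 hiN hj0 hjN (by omega))).1
  have br2p : l < 2 ^ k → j + l ≤ 2 ^ k + i → 0 < Qb b (cc k j) (cc k l) (cs k C i) := by
    intro h0 hle
    rcases Nat.eq_zero_or_pos i with h1 | h1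
    · have e2 : cs k C i = C := by rw [h1]; simp [cs]
      rw [e2]
      rcases Nat.lt_or_ge (j + l) (2 ^ k) with h3 | h3
      · exact ((hCQ j l hjN h0).1 (cc_add_pos hj0 hjN hl0 h0 h3)).2
      · have h4 := cc_add_zero hj0 hjN hl0 h0 (by omega : j + l = 2 ^ k)
        unfold Qb
        rw [h4]
        have h5 : cc k j = - cc k l := by linarith
        rw [h5]
        nlinarith [sq_nonneg (cc k l)]
    · rw [cs_mid h1 hiN]
      have h2 : 0 ≤ 1 - cc k j * cc k l + cc k i * (cc k j + cc k l) := by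
        rcases Nat.lt_or_ge (j + l) (2 ^ k + i) with h3 | h3
        · exact (Q_pos hj0 hjN hl0 h0 h1 hiN (by omega) h3).le
        · exact (Q_zero hj0 hjN hl0 h0 h1 hiN (Or.inr (le_antisymm hle h3))).ge
      unfold Qb; linarith
  have br2n : l < 2 ^ k → 2 ^ k + i < j + l → Qb b (cc k j) (cc k l) (cs k C i) < 0 := by
    intro h0 hlt
    rcases Nat.eq_zero_or_pos i with h1 | h1
    · have e2 : cs k C i = C := by rw [h1]; simp [cs]
      rw [e2]
      exact ((hCQ j l hjN h0).2 (cc_add_neg hj0 hjN hl0 h0 (by omega))).2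
    · rw [cs_mid h1 hiN]
      apply hbQ j l i hjN h0 hiN
      exact Q_neg hj0 hjN hl0 h0 h1 hiN (Or.inr hlt)
  rcases lt_trichotomy (lvl k i) (lvl k j) with h1 | h1 | h1
  · rcases lt_trichotomy (lvl k i) (lvl k l) with h2 | h2 | h2
    · -- i unique lowest
      refine ⟨lvl k i, le_rfl, h1.le, h2.le, ?_, ?_⟩
      · rintro (h | h | h) <;> omega
      · intro _
        rw [if_neg h1.ne', if_pos rfl, if_neg h2.ne']
        have := kap_pos (k := k) hb (hi0 (by omega)) hiN
        nlinarith [mul_pos this hAi]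
    · -- i, l tie
      refine ⟨lvl k i, le_rfl, h1.le, h2.le, ?_, ?_⟩
      · rintro (h | h | h) <;> omega
      · intro _
        rw [if_neg h1.ne', if_pos rfl, if_pos h2.symm]
        have k1 := kap_pos (k := k) hb (hi0 (by omega)) hiN
        have k2 := kap_nonneg (k := k) hb l
        nlinarith [mul_pos k1 hAi, mul_nonneg k2 hAl.le]
    · -- l unique lowest
      refine ⟨lvl k l, h2.le, (h2.trans h1).le, le_rfl, ?_, ?_⟩
      · rintro (h | h | h) <;> omega
      · intro _
        rw [if_neg (h2.trans h1).ne', if_neg h2.ne', if_pos rfl]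
        have := kap_pos (k := k) hb hl0 (hlN (by omega))
        nlinarith [mul_pos this hAl]
  · rcases lt_trichotomy (lvl k j) (lvl k l) with h2 | h2 | h2
    · -- i, j tie, l older
      have hi0' := hi0 (by omega)
      refine ⟨lvl k j, h1.ge, le_rfl, h2.le, ?_, ?_⟩
      · rintro (h | h | h)
        · omega
        · rw [if_pos rfl, if_pos h1, if_neg h2.ne', id1 hi0', add_zero]
          exact mul_pos (dij hi0') (br1p hi0' h.2.2)
        · omega
      · intro hX
        have hlt : i + j < l := by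
          by_contra h
          exact hX (Or.inr (Or.inl ⟨h1, h2, not_lt.mp h⟩))
        rw [if_pos rfl, if_pos h1, if_neg h2.ne', add_zero]
        have := mul_pos_of_neg_of_neg (neg_neg_of_pos (dij hi0')) (br1n hi0' hlt)
        have e := id1 hi0'
        linarith
    · -- all tie
      have hi0' := hi0 (by omega)
      have hlN' := hlN (by omega)
      refine ⟨lvl k j, h1.ge, le_rfl, h2.le, ?_, ?_⟩
      · rintro (h | h | h) <;> omega
      · intro _
        rw [if_pos rfl, if_pos h1, if_pos h2.symm, kap_mid hj0 hjN, kap_mid hi0' hiN,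
          kap_mid hl0 hlN', cs_mid hi0' hiN, cs_mid hj0 hjN, cs_mid hl0 hlN']
        have e1 := dij hi0'
        have e2 := djl hlN'
        have e3 : 0 < cc k i - cc k l := by linarith
        have : -((cc k j ^ 2 + b) * (cc k i - cc k l)) + (cc k i ^ 2 + b) * (cc k j - cc k l) +
            (cc k l ^ 2 + b) * (cc k i - cc k j) =
            (cc k i - cc k j) * (cc k j - cc k l) * (cc k i - cc k l) := by ring
        rw [this]; positivity
    · -- l unique lowest
      refine ⟨lvl k l, by omega, h2.le, le_rfl, ?_, ?_⟩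
      · rintro (h | h | h) <;> omega
      · intro _
        rw [if_neg h2.ne', if_neg (by omega), if_pos rfl]
        have := kap_pos (k := k) hb hl0 (hlN (by omega))
        nlinarith [mul_pos this hAl]
  · rcases lt_trichotomy (lvl k j) (lvl k l) with h2 | h2 | h2
    · -- j unique lowest
      refine ⟨lvl k j, h1.le, le_rfl, h2.le, ?_, ?_⟩
      · intro _
        rw [if_pos rfl, if_neg h1.ne', if_neg h2.ne']
        nlinarith [mul_pos hkj hAj]
      · intro hX
        exact absurd (Or.inl ⟨h1, h2⟩) hX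
    · -- j, l tie, i older
      have hlN' := hlN (by omega)
      refine ⟨lvl k j, h1.le, le_rfl, h2.le, ?_, ?_⟩
      · rintro (h | h | h)
        · omega
        · omega
        · rw [if_pos rfl, if_neg h1.ne', if_pos h2.symm]
          have e := id2 hlN'
          have := mul_pos (djl hlN') (br2p hlN' h.2.2)
          linarith
      · intro hX
        have hlt : 2 ^ k + i < j + l := by
          by_contra h
          exact hX (Or.inr (Or.inr ⟨h2, h1, not_lt.mp h⟩))
        rw [if_pos rfl, if_neg h1.ne', if_pos h2.symm]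
        have := mul_pos_of_neg_of_neg (neg_neg_of_pos (djl hlN')) (br2n hlN' hlt)
        have e := id2 hlN'
        linarith
    · -- l unique lowest
      refine ⟨lvl k l, by omega, h2.le, le_rfl, ?_, ?_⟩
      · rintro (h | h | h) <;> omega
      · intro _
        rw [if_neg h2.ne', if_neg (by omega), if_pos rfl]
        have := kap_pos (k := k) hb hl0 (hlN (by omega))
        nlinarith [mul_pos this hAl]

/-- **Realization.** -/
theorem exists_real (k : ℕ) : ∃ m K : ℕ → ℝ, (∀ i j, i < j → j ≤ 2 ^ k → m i < m j) ∧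
    ∀ i j l, i < j → j < l → l ≤ 2 ^ k →
      (Xr k i j l → 0 < G m K i j l) ∧ (¬ Xr k i j l → G m K i j l < 0) := by
  classical
  obtain ⟨b, hb, hbQ⟩ := exists_b k
  obtain ⟨C, hC0, hC, hCQ⟩ := exists_C k b
  let m : ℕ → ℝ := fun i => - cs k C i
  let K : ℝ → ℕ → ℝ := fun δ i => δ ^ lvl k i * kap k b i
  have hG : ∀ δ i j l, G m (K δ) i j l =
      δ ^ lvl k j * (kap k b j * (cs k C i - cs k C l)) +
      δ ^ lvl k i * (-(kap k b i * (cs k C j - cs k C l))) +
      δ ^ lvl k l * (-(kap k b l * (cs k C i - cs k C j))) := by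
    intro δ i j l
    simp only [G, m, K]; ring
  have hev : ∀ᶠ δ in 𝓝[>] (0 : ℝ), ∀ x : Fin (2 ^ k + 1) × Fin (2 ^ k + 1) × Fin (2 ^ k + 1),
      x.1 < x.2.1 → x.2.1 < x.2.2 →
      (Xr k x.1 x.2.1 x.2.2 → 0 < G m (K δ) x.1 x.2.1 x.2.2) ∧
      (¬ Xr k x.1 x.2.1 x.2.2 → G m (K δ) x.1 x.2.1 x.2.2 < 0) := by
    rw [eventually_all]
    rintro ⟨i, j, l⟩
    by_cases hij : i < j
    swap
    · filter_upwards with δ h
      exact absurd h hij
    by_cases hjl : j < l
    swap
    · filter_upwards with δ _ h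
      exact absurd h hjl
    have hij' : (i : ℕ) < (j : ℕ) := hij
    have hjl' : (j : ℕ) < (l : ℕ) := hjl
    have hl' : (l : ℕ) ≤ 2 ^ k := by have := l.isLt; omega
    obtain ⟨w, w1, w2, w3, hp, hn⟩ := leading hb hbQ hC0 hC hCQ hij' hjl' hl'
    by_cases hX : Xr k i j l
    · have := lead _ _ _ w _ _ _ w2 w1 w3 (hp hX)
      filter_upwards [this] with δ hδ _ _
      refine ⟨fun _ => ?_, fun h => absurd hX h⟩
      rw [hG]; exact hδ
    · have := lead _ _ _ w _ _ _ w2 w1 w3 (hn hX)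
      filter_upwards [this] with δ hδ _ _
      refine ⟨fun h => absurd h hX, fun _ => ?_⟩
      rw [hG]
      linarith
  obtain ⟨δ, hδ⟩ := hev.exists
  refine ⟨m, K δ, ?_, ?_⟩
  · intro i j hij hj
    exact neg_lt_neg (cs_anti hC0 hC hij hj)
  · intro i j l hij hjl hl
    have := hδ (⟨i, by omega⟩, ⟨j, by omega⟩, ⟨l, by omega⟩) hij hjl
    exact this

end Pool.Agent.Helper30.KO
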