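import Pool.Agent.Helper30.KO.Simple
import Pool.Agent.Helper30.KO.Realize
import Pool.Agent.Helper30.KO.Count

/-!
# The optimal arrangements in the plane
-/

namespace Pool.Agent.Helper30.KO

open Finset

/-- the line with slope `m i` and intercept `K i` -/
def ln (m K : ℕ → ℝ) (i : ℕ) : Set Plane := {p | p 1 = m i * p 0 + K i}

/-- the affine function of the line -/
def ph (m K : ℕ → ℝ) (q : ℕ) (z : Plane) : ℝ := z 1 - m q * z 0 - K q

/-- the crossing of two lines -/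
noncomputable def pt (m K : ℕ → ℝ) (i j : ℕ) : Plane :=
  !₂[(K i - K j) / (m j - m i), m i * ((K i - K j) / (m j - m i)) + K i]

variable {m K : ℕ → ℝ}

lemma ln_isLine (i : ℕ) : IsLine (ln m K i) := by
  refine ⟨-(m i), 1, K i, Or.inr one_ne_zero, ?_⟩
  ext p
  simp only [ln, Set.mem_ofPred_eq]
  constructor <;> intro h <;> linarith

lemma mem_ln {q : ℕ} {z : Plane} : z ∈ ln m K q ↔ ph m K q z = 0 := by
  simp only [ln, ph, Set.mem_ofPred_eq]
  constructor <;> intro h <;> linarith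

lemma G_common {i j l : ℕ} {z : Plane} (h1 : z ∈ ln m K i) (h2 : z ∈ ln m K j)
    (h3 : z ∈ ln m K l) : G m K i j l = 0 := by
  simp only [ln, Set.mem_ofPred_eq] at h1 h2 h3
  have e1 : K i = z 1 - m i * z 0 := by linarith
  have e2 : K j = z 1 - m j * z 0 := by linarith
  have e3 : K l = z 1 - m l * z 0 := by linarith
  unfold G
  rw [e1, e2, e3]; ring

lemma ph_pt {q a b : ℕ} (h : m a ≠ m b) :
    ph m K q (pt m K a b) = G m K q a b / (m b - m a) := by
  have h1 : m b - m a ≠ 0 := sub_ne_zero.mpr (Ne.symm h)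
  simp only [ph, pt, G]
  simp
  field_simp
  ring

lemma G_swap1 (a q b : ℕ) : G m K q a b = - G m K a q b := by
  unfold G; ring

lemma G_swap2 (a b q : ℕ) : G m K q a b = G m K a b q := by
  unfold G; ring

lemma pt_mem1 {a b : ℕ} : pt m K a b ∈ ln m K a := by
  simp [ln, pt]

lemma pt_mem2 {a b : ℕ} (h : m a ≠ m b) : pt m K a b ∈ ln m K b := by
  rw [mem_ln, ph_pt h]
  unfold G
  rw [div_eq_zero_iff]; left; ring

/-- a line which does not separate the vertices misses the interior -/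
lemma disj_of_sign {q : ℕ} {S : Set Plane} (h : (∀ z ∈ S, 0 ≤ ph m K q z) ∨
    (∀ z ∈ S, ph m K q z ≤ 0)) : Disjoint (ln m K q) (interior (convexHull ℝ S)) := by
  have hph : ∀ (x y : Plane) (s t : ℝ), s + t = 1 →
      ph m K q (s • x + t • y) = s * ph m K q x + t * ph m K q y := by
    intro x y s t hst
    simp only [ph, PiLp.add_apply, PiLp.smul_apply, smul_eq_mul]
    linear_combination (K q) * hst
  -- a point of the interior can be moved up or down
  have hmove : ∀ z ∈ interior (convexHull ℝ S), ∃ ε > 0, ∀ t : ℝ, |t| < ε →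
      (z + !₂[0, t] : Plane) ∈ convexHull ℝ S := by
    intro z hz
    obtain ⟨ε, hε, hb⟩ := Metric.isOpen_iff.mp isOpen_interior z hz
    refine ⟨ε, hε, fun t ht => interior_subset (hb ?_)⟩
    rw [Metric.mem_ball, dist_eq_norm]
    have e1 : z + (!₂[0, t] : Plane) - z = !₂[0, t] := by abel
    rw [e1, EuclideanSpace.norm_eq]
    simp only [Fin.sum_univ_two]
    simpa [Real.sqrt_sq_eq_abs] using ht
  have hval : ∀ (z : Plane) (t : ℝ), ph m K q (z + !₂[0, t]) = ph m K q z + t := by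
    intro z t
    simp [ph]
    ring
  rw [Set.disjoint_left]
  intro z hz1 hz2
  rw [mem_ln] at hz1
  obtain ⟨ε, hε, hm⟩ := hmove z hz2
  rcases h with h | h
  · have hsub : convexHull ℝ S ⊆ {x | 0 ≤ ph m K q x} := by
      apply convexHull_min h
      intro x hx y hy s t hs ht hst
      have hx' : 0 ≤ ph m K q x := hx
      have hy' : 0 ≤ ph m K q y := hy
      change 0 ≤ ph m K q (s • x + t • y)
      rw [hph x y s t hst]
      positivity
    have h1 := hsub (hm (-(ε / 2)) (by rw [abs_neg, abs_of_pos (by positivity)]; linarith))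
    simp only [Set.mem_ofPred_eq, hval, hz1] at h1
    linarith
  · have hsub : convexHull ℝ S ⊆ {x | ph m K q x ≤ 0} := by
      apply convexHull_min h
      intro x hx y hy s t hs ht hst
      have hx' : ph m K q x ≤ 0 := hx
      have hy' : ph m K q y ≤ 0 := hy
      change ph m K q (s • x + t • y) ≤ 0
      rw [hph x y s t hst]
      have h1 : s * ph m K q x ≤ 0 := mul_nonpos_of_nonneg_of_nonpos hs hx
      have h2 : t * ph m K q y ≤ 0 := mul_nonpos_of_nonneg_of_nonpos ht hy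
      linarith
    have h1 := hsub (hm (ε / 2) (by rw [abs_of_pos (by positivity)]; linarith))
    simp only [Set.mem_ofPred_eq, hval, hz1] at h1
    linarith

lemma affInd {p q r : Plane} (h : D p q r ≠ 0) : AffineIndependent ℝ ![p, q, r] := by
  rw [affineIndependent_iff_linearIndependent_vsub ℝ _ (0 : Fin 3)]
  rw [Fintype.linearIndependent_iff]
  intro g hg
  have e : (Finset.univ : Finset {x : Fin 3 // x ≠ 0}) = {⟨1, by decide⟩, ⟨2, by decide⟩} := by
    decide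
  rw [e, Finset.sum_insert (by decide), Finset.sum_singleton] at hg
  simp only [Matrix.cons_val_one, Matrix.cons_val_zero, Matrix.cons_val, vsub_eq_sub] at hg
  have h0 := congrArg (fun z : Plane => z 0) hg
  have h1 := congrArg (fun z : Plane => z 1) hg
  simp only [PiLp.add_apply, PiLp.smul_apply, PiLp.sub_apply, smul_eq_mul, PiLp.zero_apply]
    at h0 h1
  generalize hx : g ⟨1, by decide⟩ = x at *
  generalize hy : g ⟨2, by decide⟩ = y at *
  have k1 : x * D p q r = 0 := by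
    unfold D
    linear_combination (r 1 - p 1) * h0 - (r 0 - p 0) * h1
  have k2 : y * D p q r = 0 := by
    unfold D
    linear_combination (q 0 - p 0) * h1 - (q 1 - p 1) * h0
  have x0 : x = 0 := by
    rcases mul_eq_zero.mp k1 with h2 | h2
    · exact h2
    · exact absurd h2 h
  have y0 : y = 0 := by
    rcases mul_eq_zero.mp k2 with h2 | h2
    · exact h2
    · exact absurd h2 h
  rintro ⟨i, hi⟩
  fin_cases i
  · exact absurd rfl hi
  · exact hx.trans x0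
  · exact hy.trans y0

/-- realizations of the rule -/
structure Rz (k : ℕ) (m K : ℕ → ℝ) : Prop where
  mono : ∀ i j, i < j → j ≤ 2 ^ k → m i < m j
  sgn : ∀ i j l, i < j → j < l → l ≤ 2 ^ k →
    (Xr k i j l → 0 < G m K i j l) ∧ (¬ Xr k i j l → G m K i j l < 0)

variable {k : ℕ}

lemma Rz.ne (h : Rz k m K) {i j : ℕ} (hi : i ≤ 2 ^ k) (hj : j ≤ 2 ^ k) (hij : i ≠ j) :
    m i ≠ m j := by
  rcases lt_or_gt_of_ne hij with h1 | h1
  · exact (h.mono _ _ h1 hj).ne
  · exact (h.mono _ _ h1 hi).ne'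

lemma Rz.G_ne (h : Rz k m K) {i j l : ℕ} (hij : i < j) (hjl : j < l) (hl : l ≤ 2 ^ k) :
    G m K i j l ≠ 0 := by
  have h1 := h.sgn i j l hij hjl hl
  by_cases h2 : Xr k i j l
  · exact (h1.1 h2).ne'
  · exact (h1.2 h2).ne

lemma Rz.sign1 (h : Rz k m K) {q x y : ℕ} (h1 : q < x) (h2 : x < y) (h3 : y ≤ 2 ^ k) :
    (Xr k q x y → 0 < ph m K q (pt m K x y)) ∧ (¬ Xr k q x y → ph m K q (pt m K x y) < 0) := by
  have hm := h.mono x y h2 h3
  have hs := h.sgn q x y h1 h2 h3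
  have hd : 0 < m y - m x := sub_pos.mpr hm
  rw [ph_pt hm.ne]
  exact ⟨fun hx => div_pos (hs.1 hx) hd, fun hx => div_neg_of_neg_of_pos (hs.2 hx) hd⟩

lemma Rz.sign2 (h : Rz k m K) {q x y : ℕ} (h1 : x < q) (h2 : q < y) (h3 : y ≤ 2 ^ k) :
    (¬ Xr k x q y → 0 < ph m K q (pt m K x y)) ∧ (Xr k x q y → ph m K q (pt m K x y) < 0) := by
  have hm := h.mono x y (h1.trans h2) h3
  have hs := h.sgn x q y h1 h2 h3
  have hd : 0 < m y - m x := sub_pos.mpr hm
  rw [ph_pt hm.ne, G_swap1]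
  exact ⟨fun hx => div_pos (neg_pos.mpr (hs.2 hx)) hd,
    fun hx => div_neg_of_neg_of_pos (neg_neg_of_pos (hs.1 hx)) hd⟩

lemma Rz.sign3 (h : Rz k m K) {q x y : ℕ} (h1 : x < y) (h2 : y < q) (h3 : q ≤ 2 ^ k) :
    (Xr k x y q → 0 < ph m K q (pt m K x y)) ∧ (¬ Xr k x y q → ph m K q (pt m K x y) < 0) := by
  have hm := h.mono x y h1 (by omega)
  have hs := h.sgn x y q h1 h2 h3
  have hd : 0 < m y - m x := sub_pos.mpr hm
  rw [ph_pt hm.ne, G_swap2]
  exact ⟨fun hx => div_pos (hs.1 hx) hd, fun hx => div_neg_of_neg_of_pos (hs.2 hx) hd⟩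

/-- no vertex is separated by another line -/
lemma Rz.noSep (h : Rz k m K) {a b c q : ℕ} (hab : a < b) (hbc : b < c) (hc : c ≤ 2 ^ k)
    (hq : q ≤ 2 ^ k) (n1 : q ≠ a) (n2 : q ≠ b) (n3 : q ≠ c) (hN : NS k a b c q) :
    (0 < ph m K q (pt m K a b) ∧ 0 < ph m K q (pt m K a c) ∧ 0 < ph m K q (pt m K b c)) ∨
    (ph m K q (pt m K a b) < 0 ∧ ph m K q (pt m K a c) < 0 ∧ ph m K q (pt m K b c) < 0) := by
  obtain ⟨N1, N2, N3, N4⟩ := hN
  have hac := hab.trans hbc
  rcases lt_or_gt_of_ne n1 with h1 | h1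
  · have s1 := h.sign1 h1 hab (by omega)
    have s2 := h.sign1 h1 hac (by omega)
    have s3 := h.sign1 (h1.trans hab) hbc hc
    have e := N1 h1
    by_cases hx : Xr k q a c
    · exact Or.inl ⟨s1.1 (e.1.mpr hx), s2.1 hx, s3.1 (e.2.mp hx)⟩
    · exact Or.inr ⟨s1.2 (fun g => hx (e.1.mp g)), s2.2 hx, s3.2 (fun g => hx (e.2.mpr g))⟩
  rcases lt_or_gt_of_ne n2 with h2 | h2
  · have s1 := h.sign2 h1 h2 (by omega)
    have s2 := h.sign2 h1 (h2.trans hbc) hc
    have s3 := h.sign1 h2 hbc hc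
    have e := N2 h1 h2
    by_cases hx : Xr k a q c
    · exact Or.inr ⟨s1.2 (e.1.mpr hx), s2.2 hx, s3.2 (e.2.mp hx)⟩
    · exact Or.inl ⟨s1.1 (fun g => hx (e.1.mp g)), s2.1 hx,
        s3.1 (by_contra (fun g => hx (e.2.mpr g)))⟩
  rcases lt_or_gt_of_ne n3 with h3 | h3
  · have s1 := h.sign3 hab h2 hq
    have s2 := h.sign2 h1 h3 hc
    have s3 := h.sign2 h2 h3 hc
    have e := N3 h2 h3
    by_cases hx : Xr k a q c
    · exact Or.inr ⟨s1.2 (fun g => (e.1.mp g) hx), s2.2 hx, s3.2 (e.2.mp hx)⟩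
    · exact Or.inl ⟨s1.1 (e.1.mpr hx), s2.1 hx, s3.1 (fun g => hx (e.2.mpr g))⟩
  · have s1 := h.sign3 hab h2 hq
    have s2 := h.sign3 hac h3 hq
    have s3 := h.sign3 hbc h3 hq
    have e := N4 h3
    by_cases hx : Xr k a c q
    · exact Or.inl ⟨s1.1 (e.1.mpr hx), s2.1 hx, s3.1 (e.2.mp hx)⟩
    · exact Or.inr ⟨s1.2 (fun g => hx (e.1.mp g)), s2.2 hx, s3.2 (fun g => hx (e.2.mpr g))⟩

lemma D_pt {a b c : ℕ} (h1 : m a ≠ m b) (h2 : m a ≠ m c) (h3 : m b ≠ m c) :
    D (pt m K a b) (pt m K a c) (pt m K b c) =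
      (G m K a b c) ^ 2 / ((m b - m a) * (m c - m a) * (m c - m b)) := by
  have k1 : m b - m a ≠ 0 := sub_ne_zero.mpr h1.symm
  have k2 : m c - m a ≠ 0 := sub_ne_zero.mpr h2.symm
  have k3 : m c - m b ≠ 0 := sub_ne_zero.mpr h3.symm
  simp only [D, pt, G]
  simp
  field_simp
  ring

open Classical in
/-- the vertices of the triangle of three lines -/
noncomputable def vt (m K : ℕ → ℝ) (t : ℕ × ℕ × ℕ) : Finset Plane :=
  {pt m K t.1 t.2.1, pt m K t.1 t.2.2, pt m K t.2.1 t.2.2}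

/-- the listed triangles are counted -/
lemma Rz.counted (h : Rz k m K) (hk : 2 ≤ k) {L : Set (Set Plane)}
    (hL : ∀ ℓ, ℓ ∈ L ↔ ∃ q, Lin k q ∧ ℓ = ln m K q) {a b c : ℕ} (ht : (a, b, c) ∈ fam k) :
    Counted L (vt m K (a, b, c)) := by
  obtain ⟨hab, hbc, ha, hb, hc, hN⟩ := fam_spec hk ht
  have hac := hab.trans hbc
  have k1 := h.ne ha.1 hb.1 hab.ne
  have k2 := h.ne ha.1 hc.1 hac.ne
  have k3 := h.ne hb.1 hc.1 hbc.ne
  have z1 := pt_mem1 (m := m) (K := K) (a := a) (b := b)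
  have z2 := pt_mem2 (m := m) (K := K) (a := a) (b := b) k1
  have z3 := pt_mem1 (m := m) (K := K) (a := a) (b := c)
  have z4 := pt_mem2 (m := m) (K := K) (a := a) (b := c) k2
  have z5 := pt_mem1 (m := m) (K := K) (a := b) (b := c)
  have z6 := pt_mem2 (m := m) (K := K) (a := b) (b := c) k3
  refine ⟨pt m K a b, pt m K a c, pt m K b c, by simp [vt], affInd ?_,
    ⟨ln m K a, (hL _).mpr ⟨a, ha, rfl⟩, z1, z3⟩, ⟨ln m K c, (hL _).mpr ⟨c, hc, rfl⟩, z4, z6⟩,
    ⟨ln m K b, (hL _).mpr ⟨b, hb, rfl⟩, z2, z5⟩, ?_⟩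
  · rw [D_pt k1 k2 k3]
    apply div_ne_zero (pow_ne_zero 2 (h.G_ne hab hbc hc.1))
    exact mul_ne_zero (mul_ne_zero (sub_ne_zero.mpr k1.symm) (sub_ne_zero.mpr k2.symm))
      (sub_ne_zero.mpr k3.symm)
  · intro ℓ hℓ
    obtain ⟨q, hq, rfl⟩ := (hL ℓ).mp hℓ
    apply disj_of_sign
    have mk : ∀ x y z : Plane, (0 ≤ ph m K q x ∧ 0 ≤ ph m K q y ∧ 0 ≤ ph m K q z) ∨
        (ph m K q x ≤ 0 ∧ ph m K q y ≤ 0 ∧ ph m K q z ≤ 0) →
        (∀ w ∈ ({x, y, z} : Set Plane), 0 ≤ ph m K q w) ∨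
        (∀ w ∈ ({x, y, z} : Set Plane), ph m K q w ≤ 0) := by
      rintro x y z (⟨u1, u2, u3⟩ | ⟨u1, u2, u3⟩)
      · left
        intro w hw
        rcases hw with rfl | rfl | rfl <;> assumption
      · right
        intro w hw
        rcases hw with rfl | rfl | rfl <;> assumption
    apply mk
    by_cases n1 : q = a
    · subst n1
      rw [mem_ln] at z1 z3
      rw [z1, z3]
      rcases le_total 0 (ph m K q (pt m K b c)) with h5 | h5
      · exact Or.inl ⟨le_rfl, le_rfl, h5⟩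
      · exact Or.inr ⟨le_rfl, le_rfl, h5⟩
    by_cases n2 : q = b
    · subst n2
      rw [mem_ln] at z2 z5
      rw [z2, z5]
      rcases le_total 0 (ph m K q (pt m K a c)) with h5 | h5
      · exact Or.inl ⟨le_rfl, h5, le_rfl⟩
      · exact Or.inr ⟨le_rfl, h5, le_rfl⟩
    by_cases n3 : q = c
    · subst n3
      rw [mem_ln] at z4 z6
      rw [z4, z6]
      rcases le_total 0 (ph m K q (pt m K a b)) with h5 | h5
      · exact Or.inl ⟨h5, le_rfl, le_rfl⟩
      · exact Or.inr ⟨h5, le_rfl, le_rfl⟩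
    rcases h.noSep hab hbc hc.1 hq.1 n1 n2 n3 (hN q hq n1 n2 n3) with ⟨u1, u2, u3⟩ | ⟨u1, u2, u3⟩
    · exact Or.inl ⟨u1.le, u2.le, u3.le⟩
    · exact Or.inr ⟨u1.le, u2.le, u3.le⟩

/-- three different lines have no common point -/
lemma Rz.noThree (h : Rz k m K) {i j l : ℕ} (hi : i ≤ 2 ^ k) (hj : j ≤ 2 ^ k) (hl : l ≤ 2 ^ k)
    (hij : i ≠ j) (hil : i ≠ l) (hjl : j ≠ l) {z : Plane} (h1 : z ∈ ln m K i)
    (h2 : z ∈ ln m K j) (h3 : z ∈ ln m K l) : False := by
  rcases lt_or_gt_of_ne hij with g1 | g1 <;> rcases lt_or_gt_of_ne hil with g2 | g2 <;>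
    rcases lt_or_gt_of_ne hjl with g3 | g3
  · exact h.G_ne g1 g3 hl (G_common h1 h2 h3)
  · exact h.G_ne g2 g3 hj (G_common h1 h3 h2)
  · omega
  · exact h.G_ne g2 g1 hj (G_common h3 h1 h2)
  · exact h.G_ne g1 g2 hl (G_common h2 h1 h3)
  · omega
  · exact h.G_ne g3 g2 hi (G_common h2 h3 h1)
  · exact h.G_ne g3 g1 hi (G_common h3 h2 h1)

/-- the lines through a vertex of a triangle -/
lemma Rz.vt_line (h : Rz k m K) {a b c q : ℕ} (hab : a < b) (hbc : b < c) (hc : c ≤ 2 ^ k)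
    (hq : q ≤ 2 ^ k) : (∃ z ∈ vt m K (a, b, c), z ∈ ln m K q) ↔ q = a ∨ q = b ∨ q = c := by
  have hac := hab.trans hbc
  have k1 := h.ne (by omega) (by omega : b ≤ 2 ^ k) hab.ne
  have k2 := h.ne (by omega) hc hac.ne
  have k3 := h.ne (by omega : b ≤ 2 ^ k) hc hbc.ne
  have z1 := pt_mem1 (m := m) (K := K) (a := a) (b := b)
  have z2 := pt_mem2 (m := m) (K := K) (a := a) (b := b) k1
  have z3 := pt_mem1 (m := m) (K := K) (a := a) (b := c)
  have z4 := pt_mem2 (m := m) (K := K) (a := a) (b := c) k2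
  have z5 := pt_mem1 (m := m) (K := K) (a := b) (b := c)
  have z6 := pt_mem2 (m := m) (K := K) (a := b) (b := c) k3
  constructor
  · rintro ⟨z, hz, hzq⟩
    by_contra hcon
    push Not at hcon
    obtain ⟨n1, n2, n3⟩ := hcon
    simp only [vt, mem_insert, mem_singleton] at hz
    rcases hz with rfl | rfl | rfl
    · exact h.noThree (by omega) (by omega) hq hab.ne n1.symm n2.symm z1 z2 hzq
    · exact h.noThree (by omega) (by omega) hq hac.ne n1.symm n3.symm z3 z4 hzq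
    · exact h.noThree (by omega) (by omega) hq hbc.ne n2.symm n3.symm z5 z6 hzq
  · rintro (rfl | rfl | rfl)
    · exact ⟨_, by simp [vt], z1⟩
    · exact ⟨_, by simp [vt], z2⟩
    · exact ⟨_, by simp [vt], z4⟩

lemma Rz.vt_inj (h : Rz k m K) (hk : 2 ≤ k) :
    Set.InjOn (vt m K) (fam k : Set (ℕ × ℕ × ℕ)) := by
  rintro ⟨a, b, c⟩ hx ⟨a', b', c'⟩ hy hxy
  obtain ⟨hab, hbc, ha, hb, hc, _⟩ := fam_spec hk (Finset.mem_coe.mp hx)
  obtain ⟨hab', hbc', ha', hb', hc', _⟩ := fam_spec hk (Finset.mem_coe.mp hy)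
  have e1 := (h.vt_line hab hbc hc.1 ha'.1).mp (by
    rw [hxy]; exact (h.vt_line hab' hbc' hc'.1 ha'.1).mpr (Or.inl rfl))
  have e2 := (h.vt_line hab hbc hc.1 hb'.1).mp (by
    rw [hxy]; exact (h.vt_line hab' hbc' hc'.1 hb'.1).mpr (Or.inr (Or.inl rfl)))
  have e3 := (h.vt_line hab hbc hc.1 hc'.1).mp (by
    rw [hxy]; exact (h.vt_line hab' hbc' hc'.1 hc'.1).mpr (Or.inr (Or.inr rfl)))
  have : a = a' ∧ b = b' ∧ c = c' := by omega
  rw [this.1, this.2.1, this.2.2]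

end Pool.Agent.Helper30.KO
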