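import Pool.Agent.Helper30.KO.Fams

/-!
# Mirror symmetry and the list of empty triangles
-/

namespace Pool.Agent.Helper30.KO

/-- mirror symmetry of the levels -/
lemma lvl_mirror {k x : ℕ} (hx : x ≤ 2 ^ k) : lvl k (2 ^ k - x) = lvl k x := by
  have h1 : ∀ v, v ≤ k → (v ≤ lvl k (2 ^ k - x) ↔ v ≤ lvl k x) := by
    intro v hv
    rw [le_lvl_iff hv, le_lvl_iff hv]
    have h2 : 2 ^ v ∣ 2 ^ k := pow_dvd_pow 2 hv
    constructor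
    · intro h
      have := (Nat.dvd_sub h2 h)
      rwa [Nat.sub_sub_self hx] at this
    · intro h
      exact Nat.dvd_sub h2 h
  have h3 : lvl k (2 ^ k - x) ≤ k := lvl_le (Nat.sub_le _ _)
  have h4 : lvl k x ≤ k := lvl_le hx
  have h5 := (h1 _ h3).mp le_rfl
  have h6 := (h1 _ h4).mpr le_rfl
  omega

lemma Xr_mirror {k i j l : ℕ} (hij : i < j) (hjl : j < l) (hl : l ≤ 2 ^ k) :
    Xr k (2 ^ k - l) (2 ^ k - j) (2 ^ k - i) ↔ Xr k i j l := by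
  have e1 : 2 ^ k - i ≤ 2 ^ k - l + (2 ^ k - j) ↔ j + l ≤ 2 ^ k + i := by omega
  have e2 : 2 ^ k - j + (2 ^ k - i) ≤ 2 ^ k + (2 ^ k - l) ↔ l ≤ i + j := by omega
  unfold Xr
  rw [lvl_mirror (by omega : i ≤ 2 ^ k), lvl_mirror (by omega : j ≤ 2 ^ k), lvl_mirror hl, e1, e2]
  generalize lvl k i = li
  generalize lvl k j = lj
  generalize lvl k l = ll
  constructor
  · rintro (⟨h1, h2⟩ | ⟨h1, h2, h3⟩ | ⟨h1, h2, h3⟩)
    · exact Or.inl ⟨h2, h1⟩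
    · exact Or.inr (Or.inr ⟨h1.symm, h2, h3⟩)
    · exact Or.inr (Or.inl ⟨h1.symm, h2, h3⟩)
  · rintro (⟨h1, h2⟩ | ⟨h1, h2, h3⟩ | ⟨h1, h2, h3⟩)
    · exact Or.inl ⟨h2, h1⟩
    · exact Or.inr (Or.inr ⟨h1.symm, h2, h3⟩)
    · exact Or.inr (Or.inl ⟨h1.symm, h2, h3⟩)

lemma prop1 {P1 P2 P3 Q1 Q2 Q3 : Prop} (h : (P1 ↔ P2) ∧ (P2 ↔ P3)) (m1 : P1 ↔ Q3) (m2 : P2 ↔ Q2)
    (m3 : P3 ↔ Q1) : (Q1 ↔ Q2) ∧ (Q2 ↔ Q3) := by tauto

lemma prop2 {P1 P2 P3 Q1 Q2 Q3 : Prop} (h : (P1 ↔ ¬ P2) ∧ (P2 ↔ P3)) (m1 : P1 ↔ Q3)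
    (m2 : P2 ↔ Q2) (m3 : P3 ↔ Q1) : (Q1 ↔ Q2) ∧ (Q2 ↔ ¬ Q3) := by tauto

lemma prop3 {P1 P2 P3 Q1 Q2 Q3 : Prop} (h : (P1 ↔ P2) ∧ (P2 ↔ ¬ P3)) (m1 : P1 ↔ Q3)
    (m2 : P2 ↔ Q2) (m3 : P3 ↔ Q1) : (Q1 ↔ ¬ Q2) ∧ (Q2 ↔ Q3) := by tauto

lemma NS_mirror {k a b c q : ℕ} (hab : a < b) (hbc : b < c) (hc : c ≤ 2 ^ k) (hq : q ≤ 2 ^ k)
    (h : NS k (2 ^ k - c) (2 ^ k - b) (2 ^ k - a) (2 ^ k - q)) : NS k a b c q := by
  obtain ⟨h1, h2, h3, h4⟩ := h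
  refine ⟨fun hqa => ?_, fun h5 h6 => ?_, fun h5 h6 => ?_, fun hcq => ?_⟩
  · exact prop1 (h4 (by omega)) (Xr_mirror (by omega) (by omega) (by omega))
      (Xr_mirror (by omega) (by omega) (by omega)) (Xr_mirror (by omega) (by omega) (by omega))
  · exact prop2 (h3 (by omega) (by omega)) (Xr_mirror (by omega) (by omega) (by omega))
      (Xr_mirror (by omega) (by omega) (by omega)) (Xr_mirror (by omega) (by omega) (by omega))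
  · exact prop3 (h2 (by omega) (by omega)) (Xr_mirror (by omega) (by omega) (by omega))
      (Xr_mirror (by omega) (by omega) (by omega)) (Xr_mirror (by omega) (by omega) (by omega))
  · exact prop1 (h1 (by omega)) (Xr_mirror (by omega) (by omega) (by omega))
      (Xr_mirror (by omega) (by omega) (by omega)) (Xr_mirror (by omega) (by omega) (by omega))

/-- an empty triangle of the rule -/
def IsTri (k a b c : ℕ) : Prop :=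
  a < b ∧ b < c ∧ c ≤ 2 ^ k ∧ ∀ q, q ≤ 2 ^ k → q ≠ a → q ≠ b → q ≠ c → NS k a b c q

lemma IsTri.mirror {k a b c : ℕ} (hc : c ≤ 2 ^ k) (hab : a < b) (hbc : b < c)
    (h : IsTri k (2 ^ k - c) (2 ^ k - b) (2 ^ k - a)) : IsTri k a b c := by
  refine ⟨hab, hbc, hc, fun q hq h1 h2 h3 => NS_mirror hab hbc hc hq ?_⟩
  exact h.2.2.2 _ (Nat.sub_le _ _) (by omega) (by omega) (by omega)

lemma tri_A {k v r s t : ℕ} (hv : v < k) (h0 : 0 < r) (hr : lvl k r = v) (hs : lvl k s = v)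
    (hrs : r < s) (ht : t = r + s ∨ t = r + s + 2 ^ (v + 1)) (htk : t ≤ 2 ^ k) :
    IsTri k r s t := by
  have : 0 < 2 ^ (v + 1) := by positivity
  exact ⟨hrs, by omega, htk, fun q hq _ _ h3 => NS_A hv h0 hr hs hrs ht htk hq h3⟩

lemma tri_A' {k v r s t : ℕ} (hv : v < k) (hr : lvl k r = v) (hs : lvl k s = v)
    (hrs : r < s) (hsN : s < 2 ^ k)
    (ht : t + 2 ^ k = r + s ∨ t + 2 ^ k + 2 ^ (v + 1) = r + s) :
    IsTri k t r s := by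
  have hM : 0 < 2 ^ (v + 1) := by positivity
  apply IsTri.mirror hsN.le (by omega) hrs
  apply tri_A hv (by omega) (by rw [lvl_mirror hsN.le]; exact hs)
    (by rw [lvl_mirror (by omega)]; exact hr) (by omega) ?_ (by omega)
  omega

lemma tri_B {k v r : ℕ} (hv : v + 1 < k) (h0 : 0 < r) (hr : lvl k r = v)
    (htk : 2 * r + 2 ^ (v + 1) ≤ 2 ^ k) : IsTri k r (2 * r) (2 * r + 2 ^ (v + 1)) := by
  have : 0 < 2 ^ (v + 1) := by positivity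
  exact ⟨by omega, by omega, htk, fun q hq h1 h2 h3 => NS_B hv h0 hr htk hq h1 h2 h3⟩

lemma tri_B' {k v r : ℕ} (hv : v + 1 < k) (hr : lvl k r = v) (hrN : r < 2 ^ k)
    (htk : 2 ^ k + 2 ^ (v + 1) ≤ 2 * r) :
    IsTri k (2 * r - 2 ^ k - 2 ^ (v + 1)) (2 * r - 2 ^ k) r := by
  have hM : 0 < 2 ^ (v + 1) := by positivity
  apply IsTri.mirror hrN.le (by omega) (by omega)
  have h1 := tri_B (k := k) (v := v) (r := 2 ^ k - r) hv (by omega)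
    (by rw [lvl_mirror hrN.le]; exact hr) (by omega)
  have e1 : 2 ^ k - (2 * r - 2 ^ k) = 2 * (2 ^ k - r) := by omega
  have e2 : 2 ^ k - (2 * r - 2 ^ k - 2 ^ (v + 1)) = 2 * (2 ^ k - r) + 2 ^ (v + 1) := by omega
  rw [e1, e2]; exact h1

lemma tri_B0 {k r : ℕ} (hk : 0 < k) (hr : 2 * r = 2 ^ k) : IsTri k 0 r (2 ^ k) := by
  have : 0 < 2 ^ k := by positivity
  exact ⟨by omega, by omega, le_rfl, fun q hq h1 h2 h3 => NS_B0 hk hr hq h2 h1 h3⟩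

end Pool.Agent.Helper30.KO
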