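import Mathlib

/-!
# The optimal arrangements: the combinatorial rule and its realization by straight lines

The lines are numbered by `0, ..., 2 ^ k`.  The level of a line is the 2-adic valuation of its
number, and the levels of `0` and `2 ^ k` are `k`.
-/

namespace Pool.Agent.Helper30.KO

open Finset Filter Topology

/-- the level of a line -/
def lvl (k i : ℕ) : ℕ := if i = 0 then k else padicValNat 2 i

/-- the orientation rule for three lines `i < j < l` -/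
def Xr (k i j l : ℕ) : Prop :=
  (lvl k j < lvl k i ∧ lvl k j < lvl k l) ∨
  (lvl k i = lvl k j ∧ lvl k j < lvl k l ∧ l ≤ i + j) ∨
  (lvl k j = lvl k l ∧ lvl k j < lvl k i ∧ j + l ≤ 2 ^ k + i)

/-- orientation of three lines with slopes `m` and intercepts `K` -/
def G (m K : ℕ → ℝ) (i j l : ℕ) : ℝ :=
  K j * (m l - m i) - K i * (m l - m j) - K l * (m j - m i)

lemma lvl_zero (k : ℕ) : lvl k 0 = k := by simp [lvl]

lemma lvl_pow (k : ℕ) : lvl k (2 ^ k) = k := by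
  simp [lvl]

lemma lvl_le {k i : ℕ} (hi : i ≤ 2 ^ k) : lvl k i ≤ k := by
  unfold lvl
  split_ifs with h
  · exact le_rfl
  · have h1 : 2 ^ padicValNat 2 i ∣ i := pow_padicValNat_dvd
    have h2 := Nat.le_of_dvd (Nat.pos_of_ne_zero h) h1
    exact (Nat.pow_le_pow_iff_right (by norm_num)).mp (h2.trans hi)

lemma lvl_lt {k i : ℕ} (h0 : 0 < i) (hi : i < 2 ^ k) : lvl k i < k := by
  unfold lvl
  rw [if_neg h0.ne']
  have h1 : 2 ^ padicValNat 2 i ∣ i := pow_padicValNat_dvd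
  have h2 := Nat.le_of_dvd h0 h1
  exact (Nat.pow_lt_pow_iff_right (by norm_num)).mp (h2.trans_lt hi)

/-- the leading term decides the sign -/
lemma lead (p q r w : ℕ) (a b c : ℝ) (hp : w ≤ p) (hq : w ≤ q) (hr : w ≤ r)
    (h : 0 < (if p = w then a else 0) + (if q = w then b else 0) + (if r = w then c else 0)) :
    ∀ᶠ δ in 𝓝[>] (0 : ℝ), 0 < δ ^ p * a + δ ^ q * b + δ ^ r * c := by
  let f : ℝ → ℝ := fun δ => δ ^ (p - w) * a + δ ^ (q - w) * b + δ ^ (r - w) * c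
  have hf : Continuous f := by simp only [f]; fun_prop
  have key : ∀ x : ℕ, w ≤ x → (0 : ℝ) ^ (x - w) = if x = w then 1 else 0 := by
    intro x hx
    split_ifs with h1
    · subst h1; simp
    · exact zero_pow (by omega)
  have h0 : 0 < f 0 := by
    simp only [f]
    rw [key p hp, key q hq, key r hr]
    convert h using 2 <;> split_ifs <;> simp
  have h1 : ∀ᶠ δ in 𝓝 (0 : ℝ), 0 < f δ :=
    hf.continuousAt.eventually (isOpen_Ioi.mem_nhds h0)
  have h2 : ∀ᶠ δ in 𝓝[>] (0 : ℝ), 0 < f δ := h1.filter_mono nhdsWithin_le_nhds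
  filter_upwards [h2, self_mem_nhdsWithin] with δ hδ hδ0
  have hδ0' : 0 < δ := hδ0
  have e : δ ^ p * a + δ ^ q * b + δ ^ r * c = δ ^ w * f δ := by
    simp only [f]
    have ex : ∀ x : ℕ, w ≤ x → δ ^ x = δ ^ w * δ ^ (x - w) := by
      intro x hx; rw [← pow_add]; congr 1; omega
    rw [ex p hp, ex q hq, ex r hr]; ring
  rw [e]; positivity

/-- the cotangents -/
noncomputable def cc (k i : ℕ) : ℝ :=
  Real.cos (i * Real.pi / 2 ^ k) / Real.sin (i * Real.pi / 2 ^ k)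

lemma sin_pos' {k i : ℕ} (h0 : 0 < i) (hi : i < 2 ^ k) :
    0 < Real.sin (i * Real.pi / 2 ^ k) := by
  apply Real.sin_pos_of_pos_of_lt_pi
  · positivity
  · have h1 : (i : ℝ) < 2 ^ k := by exact_mod_cast hi
    rw [div_lt_iff₀ (by positivity)]
    nlinarith [Real.pi_pos]

lemma cc_sub {k i j : ℕ} (hi0 : 0 < i) (hi : i < 2 ^ k) (hj0 : 0 < j) (hj : j < 2 ^ k) :
    cc k i - cc k j = Real.sin (((j : ℝ) - i) * Real.pi / 2 ^ k) /
      (Real.sin (i * Real.pi / 2 ^ k) * Real.sin (j * Real.pi / 2 ^ k)) := by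
  have s1 := (sin_pos' hi0 hi).ne'
  have s2 := (sin_pos' hj0 hj).ne'
  unfold cc
  have e : ((j : ℝ) - i) * Real.pi / 2 ^ k = j * Real.pi / 2 ^ k - i * Real.pi / 2 ^ k := by ring
  rw [e, Real.sin_sub]
  clear e
  generalize (i : ℝ) * Real.pi / 2 ^ k = A at *
  generalize (j : ℝ) * Real.pi / 2 ^ k = B at *
  field_simp

lemma cc_add {k i j : ℕ} (hi0 : 0 < i) (hi : i < 2 ^ k) (hj0 : 0 < j) (hj : j < 2 ^ k) :
    cc k i + cc k j = Real.sin (((i : ℝ) + j) * Real.pi / 2 ^ k) /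
      (Real.sin (i * Real.pi / 2 ^ k) * Real.sin (j * Real.pi / 2 ^ k)) := by
  have s1 := (sin_pos' hi0 hi).ne'
  have s2 := (sin_pos' hj0 hj).ne'
  unfold cc
  have e : ((i : ℝ) + j) * Real.pi / 2 ^ k = i * Real.pi / 2 ^ k + j * Real.pi / 2 ^ k := by ring
  rw [e, Real.sin_add]
  clear e
  generalize (i : ℝ) * Real.pi / 2 ^ k = A at *
  generalize (j : ℝ) * Real.pi / 2 ^ k = B at *
  field_simp
  ring

lemma cc_Q {k i j l : ℕ} (hi0 : 0 < i) (hi : i < 2 ^ k) (hj0 : 0 < j) (hj : j < 2 ^ k)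
    (hl0 : 0 < l) (hl : l < 2 ^ k) :
    1 - cc k i * cc k j + cc k l * (cc k i + cc k j) =
      Real.sin (((i : ℝ) + j - l) * Real.pi / 2 ^ k) /
      (Real.sin (i * Real.pi / 2 ^ k) * Real.sin (j * Real.pi / 2 ^ k) *
        Real.sin (l * Real.pi / 2 ^ k)) := by
  have s1 := (sin_pos' hi0 hi).ne'
  have s2 := (sin_pos' hj0 hj).ne'
  have s3 := (sin_pos' hl0 hl).ne'
  unfold cc
  have e : ((i : ℝ) + j - l) * Real.pi / 2 ^ k =
      (i * Real.pi / 2 ^ k + j * Real.pi / 2 ^ k) - l * Real.pi / 2 ^ k := by ring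
  rw [e, Real.sin_sub, Real.sin_add, Real.cos_add]
  clear e
  generalize (i : ℝ) * Real.pi / 2 ^ k = A at *
  generalize (j : ℝ) * Real.pi / 2 ^ k = B at *
  generalize (l : ℝ) * Real.pi / 2 ^ k = C at *
  field_simp
  ring

/-- sign of the sine at a multiple of `π / 2 ^ k` -/
lemma sin_mul_pos {k : ℕ} {x : ℝ} (h0 : 0 < x) (h1 : x < 2 ^ k) :
    0 < Real.sin (x * Real.pi / 2 ^ k) := by
  apply Real.sin_pos_of_pos_of_lt_pi
  · positivity
  · rw [div_lt_iff₀ (by positivity)]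
    nlinarith [Real.pi_pos]

lemma sin_mul_neg {k : ℕ} {x : ℝ} (h0 : x < 0) (h1 : -2 ^ k < x) :
    Real.sin (x * Real.pi / 2 ^ k) < 0 := by
  have h2 : x * Real.pi / 2 ^ k = -((-x) * Real.pi / 2 ^ k) := by ring
  rw [h2, Real.sin_neg]
  have := sin_mul_pos (k := k) (x := -x) (by linarith) (by linarith)
  linarith

lemma sin_mul_neg' {k : ℕ} {x : ℝ} (h0 : 2 ^ k < x) (h1 : x < 2 * 2 ^ k) :
    Real.sin (x * Real.pi / 2 ^ k) < 0 := by
  have h2 : x * Real.pi / 2 ^ k = (x - 2 ^ k) * Real.pi / 2 ^ k + Real.pi := by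
    field_simp; ring
  rw [h2, Real.sin_add_pi]
  have := sin_mul_pos (k := k) (x := x - 2 ^ k) (by linarith) (by linarith)
  linarith

lemma cc_anti {k i j : ℕ} (hi0 : 0 < i) (hij : i < j) (hj : j < 2 ^ k) : cc k j < cc k i := by
  have h1 := cc_sub hi0 (hij.trans hj) (hi0.trans hij) hj
  have h2 : (0 : ℝ) < (j : ℝ) - i := by
    have : (i : ℝ) < j := by exact_mod_cast hij
    linarith
  have h3 : (j : ℝ) - i < 2 ^ k := by
    have h4 : (j : ℝ) < 2 ^ k := by exact_mod_cast hj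
    have h5 : (0 : ℝ) ≤ i := by positivity
    linarith
  have h4 := sin_mul_pos h2 h3
  have s1 := sin_pos' hi0 (hij.trans hj)
  have s2 := sin_pos' (hi0.trans hij) hj
  have : 0 < cc k i - cc k j := by rw [h1]; positivity
  linarith

/-- the bracket at `b = 1`, `i + j` against `l`: positive case -/
lemma Q_pos {k i j l : ℕ} (hi0 : 0 < i) (hi : i < 2 ^ k) (hj0 : 0 < j) (hj : j < 2 ^ k)
    (hl0 : 0 < l) (hl : l < 2 ^ k) (h : l < i + j) (h' : i + j < 2 ^ k + l) :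
    0 < 1 - cc k i * cc k j + cc k l * (cc k i + cc k j) := by
  rw [cc_Q hi0 hi hj0 hj hl0 hl]
  have s1 := sin_pos' hi0 hi
  have s2 := sin_pos' hj0 hj
  have s3 := sin_pos' hl0 hl
  have h1 : (l : ℝ) < i + j := by exact_mod_cast h
  have h2 : (i : ℝ) + j < 2 ^ k + l := by exact_mod_cast h'
  have := sin_mul_pos (k := k) (x := (i : ℝ) + j - l) (by linarith) (by linarith)
  positivity

lemma Q_zero {k i j l : ℕ} (hi0 : 0 < i) (hi : i < 2 ^ k) (hj0 : 0 < j) (hj : j < 2 ^ k)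
    (hl0 : 0 < l) (hl : l < 2 ^ k) (h : l = i + j ∨ i + j = 2 ^ k + l) :
    1 - cc k i * cc k j + cc k l * (cc k i + cc k j) = 0 := by
  rw [cc_Q hi0 hi hj0 hj hl0 hl]
  have h0 : Real.sin (((i : ℝ) + j - l) * Real.pi / 2 ^ k) = 0 := by
    rcases h with h | h
    · have h1 : (l : ℝ) = i + j := by exact_mod_cast h
      rw [h1]; simp
    · have h1 : (i : ℝ) + j = 2 ^ k + l := by exact_mod_cast h
      rw [h1]
      have : ((2 : ℝ) ^ k + l - l) * Real.pi / 2 ^ k = Real.pi := by field_simp; ring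
      rw [this, Real.sin_pi]
  rw [h0, zero_div]

lemma Q_neg {k i j l : ℕ} (hi0 : 0 < i) (hi : i < 2 ^ k) (hj0 : 0 < j) (hj : j < 2 ^ k)
    (hl0 : 0 < l) (hl : l < 2 ^ k) (h : i + j < l ∨ 2 ^ k + l < i + j) :
    1 - cc k i * cc k j + cc k l * (cc k i + cc k j) < 0 := by
  rw [cc_Q hi0 hi hj0 hj hl0 hl]
  have s1 := sin_pos' hi0 hi
  have s2 := sin_pos' hj0 hj
  have s3 := sin_pos' hl0 hl
  have h0 : Real.sin (((i : ℝ) + j - l) * Real.pi / 2 ^ k) < 0 := by
    have hl' : (l : ℝ) < 2 ^ k := by exact_mod_cast hl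
    have hi' : (i : ℝ) < 2 ^ k := by exact_mod_cast hi
    have hj' : (j : ℝ) < 2 ^ k := by exact_mod_cast hj
    have hi0' : (0 : ℝ) < i := by exact_mod_cast hi0
    have hj0' : (0 : ℝ) < j := by exact_mod_cast hj0
    have hl0' : (0 : ℝ) < l := by exact_mod_cast hl0
    rcases h with h | h
    · have h1 : (i : ℝ) + j < l := by exact_mod_cast h
      exact sin_mul_neg (by linarith) (by linarith)
    · have h1 : 2 ^ k + (l : ℝ) < i + j := by exact_mod_cast h
      exact sin_mul_neg' (by linarith) (by linarith)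
  exact div_neg_of_neg_of_pos h0 (by positivity)

lemma cc_add_pos {k i j : ℕ} (hi0 : 0 < i) (hi : i < 2 ^ k) (hj0 : 0 < j) (hj : j < 2 ^ k)
    (h : i + j < 2 ^ k) : 0 < cc k i + cc k j := by
  rw [cc_add hi0 hi hj0 hj]
  have s1 := sin_pos' hi0 hi
  have s2 := sin_pos' hj0 hj
  have hi0' : (0 : ℝ) < i := by exact_mod_cast hi0
  have hj0' : (0 : ℝ) < j := by exact_mod_cast hj0
  have h1 : (i : ℝ) + j < 2 ^ k := by exact_mod_cast h
  have := sin_mul_pos (k := k) (x := (i : ℝ) + j) (by linarith) h1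
  positivity

lemma cc_add_zero {k i j : ℕ} (hi0 : 0 < i) (hi : i < 2 ^ k) (hj0 : 0 < j) (hj : j < 2 ^ k)
    (h : i + j = 2 ^ k) : cc k i + cc k j = 0 := by
  rw [cc_add hi0 hi hj0 hj]
  have h1 : (i : ℝ) + j = 2 ^ k := by exact_mod_cast h
  rw [h1]
  have : (2 : ℝ) ^ k * Real.pi / 2 ^ k = Real.pi := by field_simp
  rw [this, Real.sin_pi, zero_div]

lemma cc_add_neg {k i j : ℕ} (hi0 : 0 < i) (hi : i < 2 ^ k) (hj0 : 0 < j) (hj : j < 2 ^ k)
    (h : 2 ^ k < i + j) : cc k i + cc k j < 0 := by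
  rw [cc_add hi0 hi hj0 hj]
  have s1 := sin_pos' hi0 hi
  have s2 := sin_pos' hj0 hj
  have hi' : (i : ℝ) < 2 ^ k := by exact_mod_cast hi
  have hj' : (j : ℝ) < 2 ^ k := by exact_mod_cast hj
  have h1 : 2 ^ k < (i : ℝ) + j := by exact_mod_cast h
  have := sin_mul_neg' (k := k) (x := (i : ℝ) + j) h1 (by linarith)
  exact div_neg_of_neg_of_pos this (by positivity)

end Pool.Agent.Helper30.KO
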