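import Pool.Agent.Helper30.KO.Upper

/-!
# Arrangements without three concurrent lines
-/

namespace Pool.Agent.Helper30.KO

open Finset

/-- the two crossings of a triangle lie on a common line -/
lemma Good.split {n : ℕ} {s : Sys n} {V : Finset Plane} {A : Finset (Fin n)}
    (h : Good s V A) {p q : Plane} (hp : p ∈ V) (hq : q ∈ V) (hpq : p ≠ q) :
    ∃ i j k, i ∈ A ∧ j ∈ A ∧ k ∈ A ∧ i ≠ j ∧ i ≠ k ∧ j ≠ k ∧ p ∈ s.line i ∧ p ∈ s.line j ∧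
      q ∈ s.line i ∧ q ∈ s.line k ∧ A = {i, j, k} := by
  classical
  obtain ⟨i1, h1, j1, h2, h3, rfl⟩ := h.all p hp
  obtain ⟨i2, h4, j2, h5, h6, rfl⟩ := h.all q hq
  have m1 := (h.pair i1 h1 j1 h2 h3).1
  have m2 := (h.pair i2 h4 j2 h5 h6).1
  have a1 := s.cr_mem i1 j1
  have a2 := s.cr_mem' m1
  have b1 := s.cr_mem i2 j2
  have b2 := s.cr_mem' m2
  obtain ⟨x, y, z, hxy, hxz, hyz, hA⟩ := Finset.card_eq_three.mp h.card3
  have key : ∀ i j k, i ∈ A → j ∈ A → k ∈ A → i ≠ j → i ≠ k → j ≠ k → A = {i, j, k} := by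
    intro i j k hi hj hk hij hik hjk
    symm
    apply Finset.eq_of_subset_of_card_le
    · intro w hw
      simp only [mem_insert, mem_singleton] at hw
      rcases hw with rfl | rfl | rfl <;> assumption
    · rw [h.card3, Finset.card_eq_three.mpr ⟨i, j, k, hij, hik, hjk, rfl⟩]
  have two : ∀ i j, i ≠ j → s.cr i1 j1 ∈ s.line i → s.cr i1 j1 ∈ s.line j →
      s.cr i2 j2 ∈ s.line i → s.cr i2 j2 ∈ s.line j → False := by
    intro i j hij c1 c2 c3 c4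
    exact hpq (by rw [s.common_eq hij c1 c2, s.common_eq hij c3 c4])
  by_cases e1 : i1 = i2
  · by_cases e2 : j1 = j2
    · exact absurd (by rw [e1, e2]) hpq
    · subst e1
      exact ⟨i1, j1, j2, h1, h2, h5, h3, h6, e2, a1, a2, b1, b2,
        key _ _ _ h1 h2 h5 h3 h6 e2⟩
  by_cases e2 : i1 = j2
  · subst e2
    by_cases e3 : j1 = i2
    · subst e3
      exact absurd b1 (fun _ => two _ _ h3 a1 a2 b2 b1)
    · exact ⟨i1, j1, i2, h1, h2, h4, h3, e1, e3, a1, a2, b2, b1, key _ _ _ h1 h2 h4 h3 e1 e3⟩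
  by_cases e3 : j1 = i2
  · subst e3
    exact ⟨j1, i1, j2, h2, h1, h5, h3.symm, h6, e2, a2, a1, b1, b2,
      key _ _ _ h2 h1 h5 h3.symm h6 e2⟩
  by_cases e4 : j1 = j2
  · subst e4
    exact ⟨j1, i1, i2, h2, h1, h4, h3.symm, h6.symm, e1, a2, a1, b2, b1,
      key _ _ _ h2 h1 h4 h3.symm h6.symm e1⟩
  -- four different lines are impossible
  exfalso
  have hsub : ({i1, j1, i2, j2} : Finset (Fin n)) ⊆ A := by
    intro w hw
    simp only [mem_insert, mem_singleton] at hw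
    rcases hw with rfl | rfl | rfl | rfl <;> assumption
  have hcard : ({i1, j1, i2, j2} : Finset (Fin n)).card = 4 := by
    rw [Finset.card_insert_of_notMem, Finset.card_insert_of_notMem, Finset.card_pair h6]
    · simp only [mem_insert, mem_singleton, not_or]; exact ⟨e3, e4⟩
    · simp only [mem_insert, mem_singleton, not_or]; exact ⟨h3, e1, e2⟩
  have := Finset.card_le_card hsub
  rw [hcard, h.card3] at this
  omega

/-- two counted triangles with two common vertices, each on only two lines, coincide -/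
lemma eq_of_common' {n : ℕ} (s : Sys n) {L : Set (Set Plane)} (h1 : ∀ i, s.line i ∈ L)
    (h2 : ∀ ℓ ∈ L, ∃ i, s.line i = ℓ)
    {V W : Finset Plane} (hV : Counted L V) (hW : Counted L W) {p q : Plane} (hpq : p ≠ q)
    (hp3 : ∀ ℓ₁ ∈ L, ∀ ℓ₂ ∈ L, ∀ ℓ₃ ∈ L, ℓ₁ ≠ ℓ₂ → ℓ₁ ≠ ℓ₃ → ℓ₂ ≠ ℓ₃ → p ∈ ℓ₁ → p ∈ ℓ₂ →
      p ∈ ℓ₃ → False)
    (hq3 : ∀ ℓ₁ ∈ L, ∀ ℓ₂ ∈ L, ∀ ℓ₃ ∈ L, ℓ₁ ≠ ℓ₂ → ℓ₁ ≠ ℓ₃ → ℓ₂ ≠ ℓ₃ → q ∈ ℓ₁ → q ∈ ℓ₂ →
      q ∈ ℓ₃ → False)
    (hp : p ∈ V) (hq : q ∈ V) (hp' : p ∈ W) (hq' : q ∈ W) : V = W := by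
  obtain ⟨A, hA⟩ := exists_good s h1 h2 hV
  obtain ⟨B, hB⟩ := exists_good s h1 h2 hW
  obtain ⟨i, j, k, hi, hj, hk, hij, hik, hjk, p1, p2, q1, q2, hAe⟩ := hA.split hp hq hpq
  obtain ⟨i', j', k', hi', hj', hk', hij', hik', hjk', p1', p2', q1', q2', hBe⟩ :=
    hB.split hp' hq' hpq
  have hinj : ∀ x y, x ≠ y → s.line x ≠ s.line y := by
    intro x y hxy he
    -- two points of the line
    have z1 : (s.cr x x) ∈ s.line x := s.cr_mem x x
    have hy1 : (s.cr x x) ∈ s.line y := by rw [← he]; exact z1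
    let w : Plane := !₂[1 + s.x x x - s.t * (s.m x * (1 + s.x x x) + s.k x),
      s.m x * (1 + s.x x x) + s.k x]
    have hwu : s.u w = 1 + s.x x x := by simp [Sys.u, w]
    have z2 : w ∈ s.line x := by
      change w 1 = _
      rw [hwu]; simp [w]
    have hy2 : w ∈ s.line y := by rw [← he]; exact z2
    have e1 := (s.common hxy z1 hy1).2
    have e2 := (s.common hxy z2 hy2).2
    rw [s.cr_u] at e1
    rw [hwu] at e2
    linarith
  have hnop : ∀ x y z, x ≠ y → x ≠ z → y ≠ z → p ∈ s.line x → p ∈ s.line y →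
      p ∈ s.line z → False := fun x y z hxy hxz hyz r1 r2 r3 =>
    hp3 _ (h1 x) _ (h1 y) _ (h1 z) (hinj _ _ hxy) (hinj _ _ hxz) (hinj _ _ hyz) r1 r2 r3
  have hnoq : ∀ x y z, x ≠ y → x ≠ z → y ≠ z → q ∈ s.line x → q ∈ s.line y →
      q ∈ s.line z → False := fun x y z hxy hxz hyz r1 r2 r3 =>
    hq3 _ (h1 x) _ (h1 y) _ (h1 z) (hinj _ _ hxy) (hinj _ _ hxz) (hinj _ _ hyz) r1 r2 r3
  have ei : i = i' := by
    by_contra hne
    exact hpq (by rw [s.common_eq hne p1 p1', s.common_eq hne q1 q1'])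
  subst ei
  have ej : j = j' := by
    by_contra hne
    exact hnop i j j' hij hij' hne p1 p2 p2'
  subst ej
  have ek : k = k' := by
    by_contra hne
    exact hnoq i k k' hik hik' hne q1 q2 q2'
  subst ek
  rw [hBe, ← hAe] at hB
  exact hA.unique hB

/-- without three concurrent lines, two counted triangles with two common vertices coincide -/
lemma eq_of_common {n : ℕ} (s : Sys n) {L : Set (Set Plane)} (h1 : ∀ i, s.line i ∈ L)
    (h2 : ∀ ℓ ∈ L, ∃ i, s.line i = ℓ) (h3 : NoThree L)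
    {V W : Finset Plane} (hV : Counted L V) (hW : Counted L W) {p q : Plane} (hpq : p ≠ q)
    (hp : p ∈ V) (hq : q ∈ V) (hp' : p ∈ W) (hq' : q ∈ W) : V = W := by
  have key : ∀ r : Plane, ∀ ℓ₁ ∈ L, ∀ ℓ₂ ∈ L, ∀ ℓ₃ ∈ L, ℓ₁ ≠ ℓ₂ → ℓ₁ ≠ ℓ₃ → ℓ₂ ≠ ℓ₃ →
      r ∈ ℓ₁ → r ∈ ℓ₂ → r ∈ ℓ₃ → False := by
    intro r a ha b hb c hc n1 n2 n3 r1 r2 r3
    have h5 : r ∈ a ∩ b ∩ c := ⟨⟨r1, r2⟩, r3⟩
    rw [h3 a ha b hb c hc n1 n2 n3] at h5
    exact h5
  exact eq_of_common' s h1 h2 hV hW hpq (key p) (key q) hp hq hp' hq'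

/-- **Upper bound for families without shared sides at multiple points.** -/
theorem upper_strong {n : ℕ} (hn : Even n) (h4 : 4 ≤ n) (L : Finset (Set Plane))
    (hL : ∀ ℓ ∈ L, IsLine ℓ) (hc : L.card = n) (𝒯 : Finset (Finset Plane))
    (h𝒯 : ∀ V ∈ 𝒯, Counted L V)
    (hd : ∀ V ∈ 𝒯, ∀ W ∈ 𝒯, V ≠ W → ∀ p ∈ V, p ∈ W → ∀ q ∈ V, q ∈ W → p ≠ q →
      ∀ ℓ₁ ∈ L, ∀ ℓ₂ ∈ L, ∀ ℓ₃ ∈ L, ℓ₁ ≠ ℓ₂ → ℓ₁ ≠ ℓ₃ → ℓ₂ ≠ ℓ₃ → p ∈ ℓ₁ → p ∈ ℓ₂ →
      p ∈ ℓ₃ → False) :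
    6 * 𝒯.card ≤ n * (2 * n - 5) := by
  classical
  obtain ⟨s, hs1, hs2⟩ := exists_sys L hL hc
  apply upper hn h4 L hL hc 𝒯 h𝒯
  intro V hV W hW hVW p hp q hq
  by_contra hpq
  apply hVW
  exact eq_of_common' s (L := (L : Set (Set Plane))) hs1 hs2 (h𝒯 V hV) (h𝒯 W hW) hpq
    (hd V hV W hW hVW p hp.1 hp.2 q hq.1 hq.2 hpq)
    (hd V hV W hW hVW q hq.1 hq.2 p hp.1 hp.2 (Ne.symm hpq)) hp.1 hq.1 hp.2 hq.2

/-- **Upper bound without three concurrent lines.** -/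
theorem upper_simple {n : ℕ} (hn : Even n) (h4 : 4 ≤ n) (L : Finset (Set Plane))
    (hL : ∀ ℓ ∈ L, IsLine ℓ) (hc : L.card = n) (h3 : NoThree L) :
    {V | Counted L V}.Finite ∧ 6 * {V | Counted L V}.ncard ≤ n * (2 * n - 5) := by
  classical
  obtain ⟨s, hs1, hs2⟩ := exists_sys L hL hc
  have hfin : {V | Counted L V}.Finite := by
    have hex : ∀ V ∈ {V | Counted L V}, ∃ A, Good s V A := fun V hV =>
      exists_good s (L := (L : Set (Set Plane))) hs1 hs2 hV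
    choose! A hA using hex
    apply Set.Finite.of_finite_image (f := A) (Set.toFinite _)
    intro V hV W hW he
    have g1 := hA V hV
    have g2 := hA W hW
    rw [← he] at g2
    exact g1.unique g2
  refine ⟨hfin, ?_⟩
  rw [Set.ncard_eq_toFinset_card _ hfin]
  apply upper hn h4 L hL hc
  · intro V hV
    simpa using hV
  · intro V hV W hW hVW p hp q hq
    by_contra hpq
    apply hVW
    have hV' : Counted L V := by simpa using hV
    have hW' : Counted L W := by simpa using hW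
    exact eq_of_common s (L := (L : Set (Set Plane))) hs1 hs2 h3 hV' hW' hpq hp.1 hq.1 hp.2 hq.2

end Pool.Agent.Helper30.KO
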