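import Pool.Agent.Helper30.KO.Geo

/-!
# The upper bound for even `n`
-/

namespace Pool.Agent.Helper30.KO

open Finset

/-- every finite set of lines is described by a system -/
lemma exists_sys {n : ℕ} (L : Finset (Set Plane)) (hL : ∀ ℓ ∈ L, IsLine ℓ) (hn : L.card = n) :
    ∃ s : Sys n, (∀ i, s.line i ∈ L) ∧ (∀ ℓ ∈ L, ∃ i, s.line i = ℓ) := by
  classical
  unfold IsLine at hL
  choose! a b c h using hL
  obtain ⟨t, ht⟩ := Infinite.exists_notMem_finset (L.image (fun ℓ => b ℓ / a ℓ))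
  have hne : ∀ ℓ ∈ L, b ℓ - a ℓ * t ≠ 0 := by
    intro ℓ hℓ h0
    by_cases ha : a ℓ = 0
    · rw [ha, zero_mul, sub_zero] at h0
      rcases (h ℓ hℓ).1 with h1 | h1
      · exact h1 ha
      · exact h1 h0
    · apply ht
      rw [Finset.mem_image]
      refine ⟨ℓ, hℓ, ?_⟩
      field_simp
      linarith
  let m : Set Plane → ℝ := fun ℓ => -a ℓ / (b ℓ - a ℓ * t)
  let k : Set Plane → ℝ := fun ℓ => c ℓ / (b ℓ - a ℓ * t)
  have hmem : ∀ ℓ ∈ L, ∀ p : Plane, p ∈ ℓ ↔ p 1 = m ℓ * (p 0 + t * p 1) + k ℓ := by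
    intro ℓ hℓ p
    have h1 := hne ℓ hℓ
    rw [show p ∈ ℓ ↔ a ℓ * p 0 + b ℓ * p 1 = c ℓ from by
      conv_lhs => rw [(h ℓ hℓ).2]
      rfl]
    simp only [m, k]
    constructor
    · intro h2
      field_simp
      linarith
    · intro h2
      field_simp at h2
      linarith
  let κ : Set Plane → ℝ ×ₗ ℝ := fun ℓ => toLex (m ℓ, -k ℓ)
  have hinj : Set.InjOn κ (L : Set (Set Plane)) := by
    intro ℓ hℓ ℓ' hℓ' he
    have h1 : (m ℓ, -k ℓ) = (m ℓ', -k ℓ') := toLex.injective he
    rw [Prod.mk.injEq] at h1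
    ext p
    rw [hmem ℓ hℓ, hmem ℓ' hℓ', h1.1, neg_inj.mp h1.2]
  have hS : (L.image κ).card = n := by rw [Finset.card_image_of_injOn hinj, hn]
  let f := (L.image κ).orderEmbOfFin hS
  have hf : ∀ i, ∃ ℓ ∈ L, κ ℓ = f i := by
    intro i
    have := Finset.orderEmbOfFin_mem (L.image κ) hS i
    rw [Finset.mem_image] at this
    exact this
  let s : Sys n :=
    { t := t
      m := fun i => (ofLex (f i)).1
      k := fun i => -(ofLex (f i)).2
      ord := by
        intro i j hij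
        have h1 : f i < f j := (f.lt_iff_lt).mpr hij
        rw [Prod.Lex.lt_iff] at h1
        rcases h1 with h1 | h1
        · left; exact h1
        · right; exact ⟨h1.1, neg_lt_neg h1.2⟩ }
  have hline : ∀ i, ∀ ℓ ∈ L, κ ℓ = f i → s.line i = ℓ := by
    intro i ℓ hℓ he
    have h1 : s.m i = m ℓ := by
      change (ofLex (f i)).1 = _
      rw [← he]; rfl
    have h2 : s.k i = k ℓ := by
      change -(ofLex (f i)).2 = _
      rw [← he]
      change - - k ℓ = _
      rw [neg_neg]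
    ext p
    rw [hmem ℓ hℓ]
    change p 1 = s.m i * s.u p + s.k i ↔ _
    rw [h1, h2]; rfl
  refine ⟨s, ?_, ?_⟩
  · intro i
    obtain ⟨ℓ, hℓ, he⟩ := hf i
    rw [hline i ℓ hℓ he]; exact hℓ
  · intro ℓ hℓ
    have h1 : κ ℓ ∈ Set.range f := by
      rw [Finset.range_orderEmbOfFin]
      simp only [coe_image]
      exact ⟨ℓ, hℓ, rfl⟩
    obtain ⟨i, hi⟩ := h1
    exact ⟨i, hline i ℓ hℓ hi.symm⟩

lemma Sys.cr_mem' {n : ℕ} (s : Sys n) {i j : Fin n} (h : s.m i ≠ s.m j) :
    s.cr i j ∈ s.line j := by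
  change (s.cr i j) 1 = _
  rw [Sys.cr_1, Sys.cr_u]
  unfold Sys.x
  have : s.m j - s.m i ≠ 0 := sub_ne_zero.mpr (Ne.symm h)
  field_simp
  ring

/-- the triangle `V` is formed by the lines with numbers in `A` -/
structure Good {n : ℕ} (s : Sys n) (V : Finset Plane) (A : Finset (Fin n)) : Prop where
  card3 : A.card = 3
  pair : ∀ i ∈ A, ∀ j ∈ A, i ≠ j → s.m i ≠ s.m j ∧ s.cr i j ∈ V
  dist : ∀ i ∈ A, ∀ j ∈ A, ∀ k ∈ A, i ≠ j → i ≠ k → j ≠ k → s.x i j ≠ s.x i k
  all : ∀ p ∈ V, ∃ i ∈ A, ∃ j ∈ A, i ≠ j ∧ p = s.cr i j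
  sign : ∀ l, ∀ p ∈ V, ∀ q ∈ V, 0 ≤ s.φ l p * s.φ l q

lemma D_perm1 (p q r : Plane) : D q p r = - D p q r := by unfold D; ring
lemma D_perm2 (p q r : Plane) : D p r q = - D p q r := by unfold D; ring

/-- the sign lemma -/
lemma sign_lemma {n : ℕ} (s : Sys n) {p q r : Plane} (hD : D p q r ≠ 0) (l : Fin n)
    (hdis : Disjoint (s.line l) (interior (convexHull ℝ {p, q, r}))) :
    0 ≤ s.φ l p * s.φ l q := by
  by_contra h
  push Not at h
  obtain ⟨z, hz, hz0⟩ := exists_zero hD (s.φ l) (fun α β γ hs => s.φ_aff l p q r α β γ hs) h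
  exact Set.disjoint_left.mp hdis ((s.φ_zero l z).mp hz0) hz

lemma exists_good {n : ℕ} (s : Sys n) {L : Set (Set Plane)} (h1 : ∀ i, s.line i ∈ L)
    (h2 : ∀ ℓ ∈ L, ∃ i, s.line i = ℓ) {V : Finset Plane} (hV : Counted L V) :
    ∃ A, Good s V A := by
  classical
  obtain ⟨p, q, r, hVe, hA, ⟨ℓ1, hℓ1, hp1, hq1⟩, ⟨ℓ2, hℓ2, hq2, hr2⟩, ⟨ℓ3, hℓ3, hp3, hr3⟩,
    hdis⟩ := hV
  have hD := D_ne_zero hA
  obtain ⟨i, rfl⟩ := h2 ℓ1 hℓ1
  obtain ⟨j, rfl⟩ := h2 ℓ2 hℓ2
  obtain ⟨k, rfl⟩ := h2 ℓ3 hℓ3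
  have hij : i ≠ j := by
    rintro rfl; exact hD (D_line s hp1 hq1 hr2)
  have hik : i ≠ k := by
    rintro rfl; exact hD (D_line s hp1 hq1 hr3)
  have hjk : j ≠ k := by
    rintro rfl; exact hD (D_line s hp3 hq2 hr2)
  have hpq : p ≠ q := by
    rintro rfl; apply hD; unfold D; ring
  have hpr : p ≠ r := by
    rintro rfl; apply hD; unfold D; ring
  have hqr : q ≠ r := by
    rintro rfl; apply hD; unfold D; ring
  have hpV : p ∈ V := by rw [← Finset.mem_coe, hVe]; simp
  have hqV : q ∈ V := by rw [← Finset.mem_coe, hVe]; simp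
  have hrV : r ∈ V := by rw [← Finset.mem_coe, hVe]; simp
  have q1 := s.common_eq hij hq1 hq2
  have q1' := s.common_eq hij.symm hq2 hq1
  have p1 := s.common_eq hik hp1 hp3
  have p1' := s.common_eq hik.symm hp3 hp1
  have r1 := s.common_eq hjk hr2 hr3
  have r1' := s.common_eq hjk.symm hr3 hr2
  have m1 := (s.common hij hq1 hq2).1
  have m2 := (s.common hik hp1 hp3).1
  have m3 := (s.common hjk hr2 hr3).1
  have x1 : s.x i j ≠ s.x i k := by
    rw [← s.cr_u i j, ← s.cr_u i k, ← q1, ← p1]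
    intro h; exact hpq (s.ext_on hp1 hq1 h.symm)
  have x2 : s.x j i ≠ s.x j k := by
    rw [← s.cr_u j i, ← s.cr_u j k, ← q1', ← r1]
    intro h; exact hqr (s.ext_on hq2 hr2 h)
  have x3 : s.x k i ≠ s.x k j := by
    rw [← s.cr_u k i, ← s.cr_u k j, ← p1', ← r1']
    intro h; exact hpr (s.ext_on hp3 hr3 h)
  refine ⟨{i, j, k}, ?_, ?_, ?_, ?_, ?_⟩
  · rw [Finset.card_eq_three]; exact ⟨i, j, k, hij, hik, hjk, rfl⟩
  · intro x hx y hy hxy
    simp only [mem_insert, mem_singleton] at hx hy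
    rcases hx with rfl | rfl | rfl <;> rcases hy with rfl | rfl | rfl
    · exact absurd rfl hxy
    · exact ⟨m1, by rw [← q1]; exact hqV⟩
    · exact ⟨m2, by rw [← p1]; exact hpV⟩
    · exact ⟨m1.symm, by rw [← q1']; exact hqV⟩
    · exact absurd rfl hxy
    · exact ⟨m3, by rw [← r1]; exact hrV⟩
    · exact ⟨m2.symm, by rw [← p1']; exact hpV⟩
    · exact ⟨m3.symm, by rw [← r1']; exact hrV⟩
    · exact absurd rfl hxy
  · intro x hx y hy z hz hxy hxz hyz
    simp only [mem_insert, mem_singleton] at hx hy hz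
    rcases hx with rfl | rfl | rfl <;> rcases hy with rfl | rfl | rfl <;>
      rcases hz with rfl | rfl | rfl <;>
      first
        | exact absurd rfl hxy
        | exact absurd rfl hxz
        | exact absurd rfl hyz
        | exact x1
        | exact x1.symm
        | exact x2
        | exact x2.symm
        | exact x3
        | exact x3.symm
  · intro z hz
    rw [← Finset.mem_coe, hVe] at hz
    simp only [Set.mem_insert_iff, Set.mem_singleton_iff] at hz
    rcases hz with rfl | rfl | rfl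
    · exact ⟨i, by simp, k, by simp, hik, p1⟩
    · exact ⟨i, by simp, j, by simp, hij, q1⟩
    · exact ⟨j, by simp, k, by simp, hjk, r1⟩
  · intro l y hy z hz
    have hdl := hdis _ (h1 l)
    have s1 := sign_lemma s hD l hdl
    have hD2 : D p r q ≠ 0 := by rw [D_perm2]; exact neg_ne_zero.mpr hD
    have s2 := sign_lemma s hD2 l (by
      have : ({p, r, q} : Set Plane) = {p, q, r} := by
        ext w; simp only [Set.mem_insert_iff, Set.mem_singleton_iff]; tauto
      rw [this]; exact hdl)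
    have hD3 : D q r p ≠ 0 := by
      have : D q r p = D p q r := by unfold D; ring
      rw [this]; exact hD
    have s3 := sign_lemma s hD3 l (by
      have : ({q, r, p} : Set Plane) = {p, q, r} := by
        ext w; simp only [Set.mem_insert_iff, Set.mem_singleton_iff]; tauto
      rw [this]; exact hdl)
    rw [← Finset.mem_coe, hVe] at hy hz
    simp only [Set.mem_insert_iff, Set.mem_singleton_iff] at hy hz
    rcases hy with rfl | rfl | rfl <;> rcases hz with rfl | rfl | rfl <;>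
      first
        | exact mul_self_nonneg _
        | assumption
        | (rw [mul_comm]; assumption)

/-- emptiness in terms of abscissae -/
lemma Good.emp {n : ℕ} {s : Sys n} {V : Finset Plane} {A : Finset (Fin n)} (h : Good s V A)
    {i j k l : Fin n} (hi : i ∈ A) (hj : j ∈ A) (hk : k ∈ A) (hij : i ≠ j) (hik : i ≠ k)
    (hl : s.m i ≠ s.m l) : ¬ (s.x i j < s.x i l ∧ s.x i l < s.x i k) := by
  rintro ⟨h1, h2⟩
  have h3 := h.sign l _ (h.pair i hi j hj hij).2 _ (h.pair i hi k hk hik).2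
  rw [s.φ_on (s.cr_mem i j) hl, s.φ_on (s.cr_mem i k) hl, s.cr_u, s.cr_u] at h3
  have h4 : s.m i - s.m l ≠ 0 := sub_ne_zero.mpr hl
  have h5 : 0 < (s.m i - s.m l) ^ 2 := by positivity
  nlinarith [mul_pos (sub_pos.mpr h1) (sub_pos.mpr h2)]

lemma Good.unique {n : ℕ} {s : Sys n} {V W : Finset Plane} {A : Finset (Fin n)}
    (h : Good s V A) (h' : Good s W A) : V = W := by
  ext p
  constructor
  · intro hp
    obtain ⟨i, hi, j, hj, hij, rfl⟩ := h.all p hp
    exact (h'.pair i hi j hj hij).2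
  · intro hp
    obtain ⟨i, hi, j, hj, hij, rfl⟩ := h'.all p hp
    exact (h.pair i hi j hj hij).2

/-- **Upper bound for side-disjoint families of counted triangles.** -/
theorem upper {n : ℕ} (hn : Even n) (h4 : 4 ≤ n) (L : Finset (Set Plane))
    (hL : ∀ ℓ ∈ L, IsLine ℓ) (hc : L.card = n) (𝒯 : Finset (Finset Plane))
    (h𝒯 : ∀ V ∈ 𝒯, Counted L V)
    (hd : ∀ V ∈ 𝒯, ∀ W ∈ 𝒯, V ≠ W → ((V : Set Plane) ∩ (W : Set Plane)).Subsingleton) :
    6 * 𝒯.card ≤ n * (2 * n - 5) := by
  classical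
  obtain ⟨s, hs1, hs2⟩ := exists_sys L hL hc
  obtain ⟨M, hM⟩ := exists_bound s
  have hex : ∀ V ∈ 𝒯, ∃ A, Good s V A := fun V hV =>
    exists_good s (L := (L : Set (Set Plane))) hs1 hs2 (h𝒯 V hV)
  choose! A hA using hex
  have hX : ∀ i j, s.m i ≠ s.m j → (s.arr M hM).X i j = s.x i j := by
    intro i j h
    simp only [Sys.arr]
    rw [if_neg h]
  have hinj : Set.InjOn A (𝒯 : Set (Finset Plane)) := by
    intro V hV W hW he
    have h1 := hA V hV
    have h2 := hA W hW
    rw [← he] at h2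
    exact h1.unique h2
  let F : Fam (s.arr M hM) :=
    { T := 𝒯.image A
      card3 := by
        intro B hB
        obtain ⟨V, hV, rfl⟩ := Finset.mem_image.mp hB
        exact (hA V hV).card3
      ne := by
        intro B hB i hi j hj k hk hij hik hjk
        obtain ⟨V, hV, rfl⟩ := Finset.mem_image.mp hB
        rw [hX i j ((hA V hV).pair i hi j hj hij).1, hX i k ((hA V hV).pair i hi k hk hik).1]
        exact (hA V hV).dist i hi j hj k hk hij hik hjk
      emp := by
        intro B hB i hi j hj k hk hij hik hjk l hl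
        obtain ⟨V, hV, rfl⟩ := Finset.mem_image.mp hB
        rw [hX i j ((hA V hV).pair i hi j hj hij).1, hX i k ((hA V hV).pair i hi k hk hik).1]
        by_cases hm : s.m i = s.m l
        · have : (s.arr M hM).X i l = M := by
            simp only [Sys.arr]
            rw [if_pos hm]
          rw [this]
          rintro ⟨_, h2⟩
          exact lt_asymm h2 (hM i k)
        · rw [hX i l hm]
          exact (hA V hV).emp hi hj hk hij hik hm
      ed := by
        intro B hB C hC i hiB hiC j hj k hk j' hj' k' hk' hij hik hjk hij' hik' hjk' e1 e2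
        obtain ⟨V, hV, rfl⟩ := Finset.mem_image.mp hB
        obtain ⟨W, hW, rfl⟩ := Finset.mem_image.mp hC
        have gV := hA V hV
        have gW := hA W hW
        rw [hX i j (gV.pair i hiB j hj hij).1, hX i j' (gW.pair i hiC j' hj' hij').1] at e1
        rw [hX i k (gV.pair i hiB k hk hik).1, hX i k' (gW.pair i hiC k' hk' hik').1] at e2
        have c1 : s.cr i j = s.cr i j' :=
          s.ext_on (s.cr_mem i j) (s.cr_mem i j') (by rw [s.cr_u, s.cr_u, e1])
        have c2 : s.cr i k = s.cr i k' :=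
          s.ext_on (s.cr_mem i k) (s.cr_mem i k') (by rw [s.cr_u, s.cr_u, e2])
        by_contra hne
        have hVW : V ≠ W := fun h => hne (by rw [h])
        have h3 := hd V hV W hW hVW
          (x := s.cr i j) ⟨(gV.pair i hiB j hj hij).2, by
            rw [c1]; exact (gW.pair i hiC j' hj' hij').2⟩
          (y := s.cr i k) ⟨(gV.pair i hiB k hk hik).2, by
            rw [c2]; exact (gW.pair i hiC k' hk' hik').2⟩
        have h4 := gV.dist i hiB j hj k hk hij hik hjk
        apply h4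
        rw [← s.cr_u i j, ← s.cr_u i k, h3] }
  have h5 := core F hn h4
  have h6 : F.T.card = 𝒯.card := Finset.card_image_of_injOn hinj
  rw [h6] at h5
  exact h5

end Pool.Agent.Helper30.KO
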